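import Pool.Agent.H824.Param

namespace Pool.Agent.H824

open MvPolynomial

namespace ProjVariety

variable {k : Type*} [Field k] {ι : Type*} (V : ProjVariety k ι)

theorem el_sub (F G : MvPolynomial ι k) : V.el (F - G) = V.el F - V.el G := by
  simp [el]

theorem el_add (F G : MvPolynomial ι k) : V.el (F + G) = V.el F + V.el G := by
  simp [el]

theorem el_pow (F : MvPolynomial ι k) (n : ℕ) : V.el (F ^ n) = V.el F ^ n := by
  simp [el]

theorem el_eq_iff (F G : MvPolynomial ι k) : V.el F = V.el G ↔ F - G ∈ V.ideal := by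
  rw [← sub_eq_zero, ← el_sub, el_eq_zero_iff]

end ProjVariety

section param

variable {k ι κ : Type*} [Field k]
    (g : ι → MvPolynomial κ k) (m : ℕ) (hm : 0 < m) (hg : ∀ i, (g i).IsHomogeneous m)
    (h0 : ∃ i, g i ≠ 0)

theorem param_el_eq_iff (F G : MvPolynomial ι k) :
    (paramVariety g m hm hg h0).el F = (paramVariety g m hm hg h0).el G ↔
      aeval g F = aeval g G := by
  rw [ProjVariety.el_eq_iff]
  change _ ∈ RingHom.ker _ ↔ _
  rw [RingHom.mem_ker, map_sub, sub_eq_zero]

theorem param_el_eq_zero_iff (F : MvPolynomial ι k) :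
    (paramVariety g m hm hg h0).el F = 0 ↔ aeval g F = 0 := by
  rw [ProjVariety.el_eq_zero_iff]
  change _ ∈ RingHom.ker _ ↔ _
  rw [RingHom.mem_ker]

end param

section surface

variable (k : Type*) [Field k]

theorem zvX_homog (ij : Fin 3 × Fin 3) :
    (zv (X : Fin 3 → MvPolynomial (Fin 3) k) ij).IsHomogeneous 7 :=
  zv_homog _ (fun i => isHomogeneous_X k i) ij

/-- the surface -/
noncomputable def surf : ProjVariety k (Fin 3 × Fin 3) :=
  paramVariety (zv (X : Fin 3 → MvPolynomial (Fin 3) k)) 7 (by norm_num) (zvX_homog k)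
    ⟨(0, 0), zv_X_ne _⟩

variable {k}

theorem surf_el_eq_iff (F G : MvPolynomial (Fin 3 × Fin 3) k) :
    (surf k).el F = (surf k).el G ↔
      aeval (zv (X : Fin 3 → MvPolynomial (Fin 3) k)) F = aeval (zv X) G :=
  param_el_eq_iff _ _ _ _ _ _ _

theorem surf_el_eq_zero_iff (F : MvPolynomial (Fin 3 × Fin 3) k) :
    (surf k).el F = 0 ↔ aeval (zv (X : Fin 3 → MvPolynomial (Fin 3) k)) F = 0 :=
  param_el_eq_zero_iff _ _ _ _ _ _

/-- the elements `x_i` of the cone field -/
noncomputable def xe (k : Type*) [Field k] (i : Fin 3) : (surf k).ConeField := (surf k).el (X (i, 2))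

/-- the elements `y_j` of the cone field -/
noncomputable def ye (k : Type*) [Field k] (j : Fin 3) : (surf k).ConeField := (surf k).el (X (0, j))

theorem elX_ne (ij : Fin 3 × Fin 3) : (surf k).el (X ij) ≠ 0 := by
  rw [Ne, surf_el_eq_zero_iff, aeval_X]
  exact zv_X_ne ij

theorem xe_ne (i : Fin 3) : xe k i ≠ 0 := elX_ne _

theorem ye_ne (i : Fin 3) : ye k i ≠ 0 := elX_ne _

theorem two_eq_zero_poly [CharP k 2] (σ : Type*) : (2 : MvPolynomial σ k) = 0 := by
  have : ((2 : ℕ) : MvPolynomial σ k) = 0 := CharP.cast_eq_zero _ _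
  exact_mod_cast this

theorem rel1_e [CharP k 2] : ∑ i, ye k i ^ 2 * xe k i = 0 := by
  have h : (surf k).el (∑ i, X (0, i) ^ 2 * X (i, 2)) = ∑ i, ye k i ^ 2 * xe k i := by
    simp [ProjVariety.el, ye, xe]
  rw [← h, surf_el_eq_zero_iff, map_sum]
  have h2 := rel1 (two_eq_zero_poly (k := k) (Fin 3)) X
  have : (xv X 0 ^ 2 * yv X 2) * ∑ i, yv X i ^ 2 * xv (X : Fin 3 → MvPolynomial (Fin 3) k) i = 0 := by
    rw [h2, mul_zero]
  rw [← this, Finset.mul_sum]
  apply Finset.sum_congr rfl
  intro i _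
  simp only [map_mul, map_pow, aeval_X, zv]
  ring

theorem rel2_e [CharP k 2] : ∑ i, xe k i ^ 2 * ye k i = 0 := by
  have h : (surf k).el (∑ i, X (i, 2) ^ 2 * X (0, i)) = ∑ i, xe k i ^ 2 * ye k i := by
    simp [ProjVariety.el, ye, xe]
  rw [← h, surf_el_eq_zero_iff, map_sum]
  have h2 := rel2 (two_eq_zero_poly (k := k) (Fin 3)) X
  have : (xv X 0 * yv X 2 ^ 2) * ∑ i, xv X i ^ 2 * yv (X : Fin 3 → MvPolynomial (Fin 3) k) i = 0 := by
    rw [h2, mul_zero]
  rw [← this, Finset.mul_sum]
  apply Finset.sum_congr rfl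
  intro i _
  simp only [map_mul, map_pow, aeval_X, zv]
  ring

theorem xe_mem (a b : Fin 3) : xe k a / xe k b ∈ (surf k).functionField :=
  IntermediateField.subset_adjoin _ _ ⟨_, _, rfl⟩

theorem ye_mem (a b : Fin 3) : ye k a / ye k b ∈ (surf k).functionField :=
  IntermediateField.subset_adjoin _ _ ⟨_, _, rfl⟩

theorem elX_ratio (i j a b : Fin 3) : (surf k).el (X (i, j)) / (surf k).el (X (a, b)) =
    (xe k i / xe k a) * (ye k j / ye k b) := by
  have h : (surf k).el (X (i, j) * X (a, 2) * X (0, b)) =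
      (surf k).el (X (a, b) * X (i, 2) * X (0, j)) := by
    rw [surf_el_eq_iff]
    simp only [map_mul, aeval_X, zv]
    ring
  simp only [ProjVariety.el_mul] at h
  have h1 := elX_ne (k := k) (a, b)
  have h2 := xe_ne (k := k) a
  have h3 := ye_ne (k := k) b
  rw [div_mul_div_comm, div_eq_div_iff h1 (mul_ne_zero h2 h3)]
  unfold xe ye
  linear_combination h

theorem surf_gen (E' : IntermediateField k (surf k).ConeField)
    (h1 : ∀ a b, xe k a / xe k b ∈ E') (h2 : ∀ a b, ye k a / ye k b ∈ E') :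
    (surf k).functionField ≤ E' := by
  unfold ProjVariety.functionField ratioField
  rw [IntermediateField.adjoin_le_iff]
  rintro u ⟨⟨i, j⟩, ⟨a, b⟩, rfl⟩
  rw [SetLike.mem_coe, elX_ratio]
  exact mul_mem (h1 _ _) (h2 _ _)

theorem surf_two_le [CharP k 2] (ψ : (surf k).DominantMap 2) : 2 ≤ ψ.degree :=
  two_le_degree (surf k) (xe k) (ye k) 0 0 (xe_ne 0) (ye_ne 0) rel1_e rel2_e xe_mem ye_mem
    surf_gen ψ

theorem xe_indep : AlgebraicIndependent k (xe k) := by
  classical
  rw [algebraicIndependent_iff]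
  intro P hP
  -- the polynomials `X_i Y_2`
  let g : Fin 3 → MvPolynomial (Fin 3) k := fun i => zv X (i, 2)
  have h1 : aeval g P = 0 := by
    have h2 : (surf k).el (rename (fun i : Fin 3 => (i, (2 : Fin 3))) P) = aeval (xe k) P := by
      rw [ProjVariety.el_eq_aeval, aeval_rename]
      rfl
    rw [hP, surf_el_eq_zero_iff, aeval_rename] at h2
    exact h2
  have hg : ∀ i, (g i).IsHomogeneous 7 := fun i => zvX_homog k _
  have h3 : ∀ d, homogeneousComponent d P = 0 := by
    intro d
    have h4 := aeval_component g 7 (by norm_num) hg P h1 d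
    have h5 : g = fun i => yv X 2 * (X i ^ 2) := by
      funext i
      simp only [g, zv, xv]
      ring
    rw [h5, aeval_smul_of_homog _ (homogeneousComponent_isHomogeneous d P)] at h4
    have h6 := (mul_eq_zero.mp h4).resolve_left (pow_ne_zero _ (yv_X_ne 2))
    have h7 : expand 2 (homogeneousComponent d P) = 0 := by
      rw [← h6]
      rfl
    exact (expand_injective (σ := Fin 3) (R := k) (n := 2) (by norm_num)) (by rw [h7, map_zero])
  rw [← sum_homogeneousComponent P]
  exact Finset.sum_eq_zero (fun d _ => h3 d)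

/-- the map `X ⇢ ℙ²` -/
noncomputable def psi (k : Type*) [Field k] : (surf k).DominantMap 2 where
  formDegree := 1
  form := fun i => X (i, 2)
  isHomogeneous := fun _ => isHomogeneous_X k _
  dominant := xe_indep

end surface

end Pool.Agent.H824
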