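import Pool.Agent.H824.AmpDefs
import Pool.Agent.H824.Surface

namespace Pool.Agent.H824

open MvPolynomial

section homog

variable {k σ : Type*} [Field k]

/-- the homogenization with an extra variable, graded by degree -/
noncomputable def hT (k σ : Type*) [Field k] :
    MvPolynomial σ k →ₐ[k] Polynomial (MvPolynomial σ k) :=
  aeval (fun i => Polynomial.X * Polynomial.C (X i))

theorem hT_homog (F : MvPolynomial σ k) {e : ℕ} (hF : F.IsHomogeneous e) :
    hT k σ F = Polynomial.C F * Polynomial.X ^ e := by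
  unfold hT
  rw [aeval_smul_of_homog F hF]
  have h : aeval (fun i => (Polynomial.C (X i) : Polynomial (MvPolynomial σ k))) F =
      Polynomial.C F := by
    have : (aeval (fun i => (Polynomial.C (X i) : Polynomial (MvPolynomial σ k))) :
        MvPolynomial σ k →ₐ[k] _) =
        (Algebra.ofId (MvPolynomial σ k) (Polynomial (MvPolynomial σ k))).restrictScalars k := by
      apply MvPolynomial.algHom_ext
      intro i
      simp [Algebra.ofId_apply]
    rw [this]
    rfl
  rw [h, mul_comm]

theorem hT_coeff (F : MvPolynomial σ k) (e : ℕ) :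
    (hT k σ F).coeff e = homogeneousComponent e F := by
  classical
  have h1 : hT k σ F = ∑ j ∈ Finset.range (F.totalDegree + 1),
      Polynomial.C (homogeneousComponent j F) * Polynomial.X ^ j := by
    conv_lhs => rw [← sum_homogeneousComponent F]
    rw [map_sum]
    apply Finset.sum_congr rfl
    intro j _
    exact hT_homog _ (homogeneousComponent_isHomogeneous j F)
  rw [h1, Polynomial.finsetSum_coeff]
  simp only [Polynomial.coeff_C_mul, Polynomial.coeff_X_pow, mul_ite, mul_one, mul_zero]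
  rw [Finset.sum_ite_eq]
  split_ifs with h
  · rfl
  · rw [homogeneousComponent_eq_zero]
    simpa using h

/-- A nonzero factor of a form is a form. -/
theorem homog_of_mul (A B : MvPolynomial σ k) (N : ℕ)
    (h : (A * B).IsHomogeneous N) (h0 : A * B ≠ 0) : ∃ a, A.IsHomogeneous a := by
  classical
  have hA : A ≠ 0 := left_ne_zero_of_mul h0
  have hB : B ≠ 0 := right_ne_zero_of_mul h0
  have hinj : ∀ F : MvPolynomial σ k, F ≠ 0 → hT k σ F ≠ 0 := by
    intro F hF h1
    apply hF
    rw [← sum_homogeneousComponent F]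
    apply Finset.sum_eq_zero
    intro j _
    rw [← hT_coeff, h1, Polynomial.coeff_zero]
  have hAB : hT k σ A * hT k σ B = Polynomial.C (A * B) * Polynomial.X ^ N := by
    rw [← map_mul, hT_homog _ h]
  have e1 : (hT k σ A).natDegree + (hT k σ B).natDegree = N := by
    rw [← Polynomial.natDegree_mul (hinj A hA) (hinj B hB), hAB,
      Polynomial.natDegree_C_mul_X_pow _ _ h0]
  have e2 : (hT k σ A).natTrailingDegree + (hT k σ B).natTrailingDegree = N := by
    rw [← Polynomial.natTrailingDegree_mul (hinj A hA) (hinj B hB), hAB,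
      Polynomial.C_mul_X_pow_eq_monomial, Polynomial.natTrailingDegree_monomial h0]
  have e3 := Polynomial.natTrailingDegree_le_natDegree (hT k σ A)
  have e4 := Polynomial.natTrailingDegree_le_natDegree (hT k σ B)
  have e5 : (hT k σ A).natTrailingDegree = (hT k σ A).natDegree := by omega
  refine ⟨(hT k σ A).natDegree, ?_⟩
  have e6 : ∀ j, j ≠ (hT k σ A).natDegree → homogeneousComponent j A = 0 := by
    intro j hj
    rw [← hT_coeff]
    rcases lt_or_gt_of_ne hj with h1 | h1
    · exact Polynomial.coeff_eq_zero_of_lt_natTrailingDegree (by omega)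
    · exact Polynomial.coeff_eq_zero_of_natDegree_lt h1
  have e7 : A = homogeneousComponent (hT k σ A).natDegree A := by
    conv_lhs => rw [← sum_homogeneousComponent A]
    by_cases hd : (hT k σ A).natDegree ∈ Finset.range (A.totalDegree + 1)
    · exact Finset.sum_eq_single_of_mem _ hd (fun j _ hj => e6 j hj)
    · have hlt : A.totalDegree < (hT k σ A).natDegree := by simpa using hd
      have hz : homogeneousComponent (hT k σ A).natDegree A = 0 :=
        homogeneousComponent_eq_zero _ _ hlt
      rw [hz]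
      apply Finset.sum_eq_zero
      intro j hj
      apply e6
      rintro rfl
      exact hd hj
  have e8 := homogeneousComponent_isHomogeneous (hT k σ A).natDegree A
  rwa [← e7] at e8

end homog

section forms

variable {k σ : Type*} [Field k] {M : Type*} [Field M]

/-- ratios of forms of the same degree -/
def IsFormRatio (φ : MvPolynomial σ k →+* M) (u : M) : Prop :=
  ∃ (e : ℕ) (F G : MvPolynomial σ k), F.IsHomogeneous e ∧ G.IsHomogeneous e ∧ G ≠ 0 ∧
    u = φ F / φ G

theorem exists_coprime_forms {ι : Type*} [Finite ι] (φ : MvPolynomial σ k →+* M)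
    (hφ : Function.Injective φ) (u : ι → M) (i0 : ι) (hu0 : u i0 = 1)
    (hu : ∀ i, IsFormRatio φ (u i)) :
    ∃ (d : ℕ) (G : ι → MvPolynomial σ k), (∀ i, (G i).IsHomogeneous d) ∧ G i0 ≠ 0 ∧
      (∀ i, u i = φ (G i) / φ (G i0)) ∧ (∀ Q B, (∀ i, Q ∣ G i * B) → Q ∣ B) := by
  classical
  have := Fintype.ofFinite ι
  have hφ0 : ∀ F, F ≠ 0 → φ F ≠ 0 := fun F hF h => hF (hφ (by rw [h, map_zero]))
  choose e F B hF hB hB0 huF using hu
  set D := ∏ j, B j with hD
  have hD0 : D ≠ 0 := Finset.prod_ne_zero_iff.mpr (fun j _ => hB0 j)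
  have hDh : D.IsHomogeneous (∑ j, e j) := IsHomogeneous.prod _ _ _ (fun j _ => hB j)
  set F' : ι → MvPolynomial σ k := fun i => F i * ∏ j ∈ Finset.univ.erase i, B j with hF'
  have hF'h : ∀ i, (F' i).IsHomogeneous (∑ j, e j) := by
    intro i
    have h1 := (hF i).mul (IsHomogeneous.prod (Finset.univ.erase i) _ _ (fun j _ => hB j))
    rw [Finset.add_sum_erase _ _ (Finset.mem_univ i)] at h1
    exact h1
  have hDi : ∀ i, D = B i * ∏ j ∈ Finset.univ.erase i, B j := by
    intro i
    rw [hD, Finset.mul_prod_erase _ _ (Finset.mem_univ i)]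
  have huF' : ∀ i, u i = φ (F' i) / φ D := by
    intro i
    rw [huF i, hDi i, hF']
    simp only [map_mul]
    rw [mul_div_mul_right]
    exact hφ0 _ (Finset.prod_ne_zero_iff.mpr (fun j _ => hB0 j))
  have hF'0 : F' i0 = D := by
    have h1 := huF' i0
    rw [hu0, eq_comm, div_eq_one_iff_eq (hφ0 _ hD0)] at h1
    exact hφ h1
  let _ : StrongNormalizationMonoid (MvPolynomial σ k) :=
    UniqueFactorizationMonoid.strongNormalizationMonoid
  let _ : NormalizedGCDMonoid (MvPolynomial σ k) :=
    UniqueFactorizationMonoid.toNormalizedGCDMonoid _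
  obtain ⟨g, hg1, hg2⟩ := Finset.extract_gcd F' (s := Finset.univ) ⟨i0, Finset.mem_univ _⟩
  set c := Finset.univ.gcd F' with hc
  have hc0 : c * g i0 ≠ 0 := by
    rw [← hg1 i0 (Finset.mem_univ _), hF'0]
    exact hD0
  have hch : (c * g i0).IsHomogeneous (∑ j, e j) := by
    rw [← hg1 i0 (Finset.mem_univ _)]
    exact hF'h i0
  obtain ⟨a, ha⟩ := homog_of_mul _ _ _ hch hc0
  refine ⟨(∑ j, e j) - a, g, ?_, right_ne_zero_of_mul hc0, ?_, ?_⟩
  · intro i
    by_cases hgi : g i = 0
    · rw [hgi]
      exact isHomogeneous_zero _ _ _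
    · have h1 : g i * c ≠ 0 := mul_ne_zero hgi (left_ne_zero_of_mul hc0)
      have h2 : (g i * c).IsHomogeneous (∑ j, e j) := by
        rw [mul_comm, ← hg1 i (Finset.mem_univ _)]
        exact hF'h i
      obtain ⟨b, hb⟩ := homog_of_mul _ _ _ h2 h1
      have h3 := (hb.mul ha).inj_right h2 h1
      have : b = (∑ j, e j) - a := by omega
      rw [← this]
      exact hb
  · intro i
    rw [huF', ← hF'0, hg1 i (Finset.mem_univ _), hg1 i0 (Finset.mem_univ _), map_mul, map_mul,
      mul_div_mul_left]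
    exact hφ0 _ (left_ne_zero_of_mul hc0)
  · intro Q B' hQ
    have h1 : Q ∣ Finset.univ.gcd (fun i => g i * B') := Finset.dvd_gcd (fun i _ => hQ i)
    have h2 := Finset.gcd_mul_right' Finset.univ g B'
    rw [hg2, one_mul] at h2
    exact h1.trans h2.dvd

theorem eval_ne_zero_of_ratios {ι : Type*} [Finite ι] (φ : MvPolynomial σ k →+* M)
    (hφ : Function.Injective φ) (G : ι → MvPolynomial σ k)
    (hcop : ∀ Q B, (∀ i, Q ∣ G i * B) → Q ∣ B) (w : σ → k) (j : ι) (hj : G j ≠ 0)
    (h : ∀ i, ∃ A B, eval w B ≠ 0 ∧ φ (G i) / φ (G j) = φ A / φ B) : eval w (G j) ≠ 0 := by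
  classical
  have := Fintype.ofFinite ι
  have hφ0 : ∀ F, F ≠ 0 → φ F ≠ 0 := fun F hF h => hF (hφ (by rw [h, map_zero]))
  choose A B hB hAB using h
  have hB0 : ∀ i, B i ≠ 0 := by
    intro i hi
    apply hB i
    rw [hi, map_zero]
  have h1 : ∀ i, G i * B i = A i * G j := by
    intro i
    have h2 := hAB i
    rw [div_eq_div_iff (hφ0 _ hj) (hφ0 _ (hB0 i)), ← map_mul, ← map_mul] at h2
    exact hφ h2
  have h2 : G j ∣ ∏ i, B i := by
    apply hcop
    intro i
    have h3 : G i * ∏ j, B j = G j * (A i * ∏ j ∈ Finset.univ.erase i, B j) := by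
      rw [← Finset.mul_prod_erase _ _ (Finset.mem_univ i), ← mul_assoc, h1 i]
      ring
    rw [h3]
    exact dvd_mul_right _ _
  obtain ⟨C, hC⟩ := h2
  intro h3
  have h4 := congrArg (eval w) hC
  rw [map_mul, h3, zero_mul, map_prod] at h4
  exact (Finset.prod_ne_zero_iff.mpr (fun i _ => hB i)) h4

theorem isUnit_of_no_zero [IsAlgClosed k] [Finite σ] (c : MvPolynomial σ k)
    (hc : ∀ w, eval w c = 0 → w = 0) (a b : σ) (hab : a ≠ b) : IsUnit c := by
  classical
  have h1 : ∀ i : σ, ∃ n : ℕ, c ∣ (X i : MvPolynomial σ k) ^ n := by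
    intro i
    have h2 : (X i : MvPolynomial σ k) ∈ (Ideal.span {c}).radical := by
      rw [← vanishingIdeal_zeroLocus_eq_radical (K := k)]
      rw [mem_vanishingIdeal_iff]
      intro x hx
      rw [mem_zeroLocus_iff] at hx
      have h3 : eval x c = 0 := hx c (Ideal.subset_span rfl)
      rw [hc x h3]
      simp
    obtain ⟨n, hn⟩ := h2
    exact ⟨n, Ideal.mem_span_singleton.mp hn⟩
  obtain ⟨n, hn⟩ := h1 a
  obtain ⟨l, hl⟩ := h1 b
  have hpa : Prime (X a : MvPolynomial σ k) := X_prime
  have hpb : Prime (X b : MvPolynomial σ k) := X_prime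
  obtain ⟨i, _, hi⟩ := (dvd_prime_pow hpa n).mp hn
  rcases Nat.eq_zero_or_pos i with h0 | h0
  · subst h0
    rw [pow_zero] at hi
    exact (associated_one_iff_isUnit.mp hi)
  · exfalso
    have h2 : (X a : MvPolynomial σ k) ∣ X b ^ l :=
      ((dvd_pow_self _ h0.ne').trans hi.symm.dvd).trans hl
    have h3 : (X a : MvPolynomial σ k) ∣ X b := hpa.dvd_of_dvd_pow h2
    rw [X_dvd_X] at h3
    exact hab h3

end forms

end Pool.Agent.H824
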