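import Pool.Agent.H824.Surface

namespace Pool.Agent.H824

open MvPolynomial

section surface

variable {k : Type*} [Field k]

theorem xe_ratio_mem (a b : Fin 3) : xe k a / xe k b ∈ (psi k).pullbackField :=
  IntermediateField.subset_adjoin _ _ ⟨_, _, rfl⟩

theorem two_eq_zero_alg (Ω : Type*) [Field Ω] [Algebra k Ω] [CharP k 2] : (2 : Ω) = 0 := by
  have : ((2 : ℕ) : k) = 0 := CharP.cast_eq_zero _ _
  have h := congrArg (algebraMap k Ω) this
  rw [map_natCast, map_zero] at h
  exact_mod_cast h

theorem A_ne : (xe k 1 / xe k 0) ^ 4 + xe k 1 / xe k 0 ≠ 0 := by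
  intro h
  have h1 := ratio_indep (xe k) xe_indep
  have h2 : aeval (fun i : Fin 2 => xe k i.succ / xe k 0)
      (X 0 ^ 4 + X 0 : MvPolynomial (Fin 2) k) = 0 := by
    simpa using h
  have h3 := (algebraicIndependent_iff.mp h1) _ h2
  have h4 := congrArg (coeff (Finsupp.single 0 1)) h3
  rw [coeff_add, X_pow_eq_monomial, X, coeff_monomial, coeff_monomial, if_pos rfl, if_neg,
    coeff_zero] at h4
  · simp at h4
  · intro h5
    have h6 := DFunLike.congr_fun h5 0
    simp at h6

theorem y0_eq [CharP k 2] : ye k 0 / ye k 2 =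
    (xe k 1 / xe k 0) ^ 2 * (ye k 1 / ye k 2) + (xe k 2 / xe k 0) ^ 2 := by
  have h := rel2_e (k := k)
  rw [Fin.sum_univ_three] at h
  have h0 := xe_ne (k := k) 0
  have h2 := ye_ne (k := k) 2
  have h3 := two_eq_zero_alg (k := k) (surf k).ConeField
  field_simp
  linear_combination h - (xe k 1 ^ 2 * ye k 1 + ye k 2 * xe k 2 ^ 2) * h3

theorem r_sq [CharP k 2] : (ye k 1 / ye k 2) ^ 2 =
    ((xe k 2 / xe k 0) ^ 4 + (xe k 2 / xe k 0)) / ((xe k 1 / xe k 0) ^ 4 + xe k 1 / xe k 0) := by
  rw [eq_div_iff A_ne]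
  have h := rel1_e (k := k)
  rw [Fin.sum_univ_three] at h
  have h0 := xe_ne (k := k) 0
  have h2 := ye_ne (k := k) 2
  have h3 := two_eq_zero_alg (k := k) (surf k).ConeField
  have h4 : (ye k 0 / ye k 2) ^ 2 + (ye k 1 / ye k 2) ^ 2 * (xe k 1 / xe k 0) +
      xe k 2 / xe k 0 = 0 := by
    field_simp
    linear_combination h
  rw [y0_eq] at h4
  set A := xe k 1 / xe k 0
  set B := xe k 2 / xe k 0
  set r := ye k 1 / ye k 2
  linear_combination h4 - (A ^ 2 * B ^ 2 * r + B ^ 4 + B) * h3

theorem r_sq_mem [CharP k 2] : (ye k 1 / ye k 2) ^ 2 ∈ (psi k).pullbackField := by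
  rw [r_sq]
  exact div_mem (add_mem (pow_mem (xe_ratio_mem _ _) _) (xe_ratio_mem _ _))
    (add_mem (pow_mem (xe_ratio_mem _ _) _) (xe_ratio_mem _ _))

theorem ye_ratio_mem_of [CharP k 2] (E' : IntermediateField k (surf k).ConeField)
    (h1 : ∀ a b, xe k a / xe k b ∈ E') (h2 : ye k 1 / ye k 2 ∈ E') (a b : Fin 3) :
    ye k a / ye k b ∈ E' := by
  have key : ∀ a, ye k a / ye k 2 ∈ E' := by
    intro a
    fin_cases a
    · change ye k 0 / ye k 2 ∈ E'
      rw [y0_eq]
      exact add_mem (mul_mem (pow_mem (h1 _ _) _) h2) (pow_mem (h1 _ _) _)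
    · exact h2
    · change ye k 2 / ye k 2 ∈ E'
      rw [div_self (ye_ne 2)]
      exact one_mem _
  have : ye k a / ye k b = (ye k a / ye k 2) / (ye k b / ye k 2) := by
    have := ye_ne (k := k) b
    have := ye_ne (k := k) 2
    field_simp
  rw [this]
  exact div_mem (key a) (key b)

theorem psi_degree_le [CharP k 2] : (psi k).degree ≤ 2 := by
  have hle := (surf k).pullbackField_le (psi k)
  unfold ProjVariety.DominantMap.degree
  rw [IntermediateField.relrank_eq_rank_of_le hle]
  set K0 := (psi k).pullbackField with hK0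
  set r : (surf k).ConeField := ye k 1 / ye k 2 with hr
  let c : K0 := ⟨r ^ 2, r_sq_mem⟩
  have hint : Polynomial.aeval r (Polynomial.X ^ 2 - Polynomial.C c : Polynomial K0) = 0 := by
    rw [map_sub, map_pow, Polynomial.aeval_X, Polynomial.aeval_C]
    exact sub_self _
  have hmonic : (Polynomial.X ^ 2 - Polynomial.C c : Polynomial K0).Monic :=
    Polynomial.monic_X_pow_sub_C c (by norm_num)
  have hI : IsIntegral K0 r := ⟨_, hmonic, hint⟩
  have hfin : Module.finrank K0 (IntermediateField.adjoin K0 {r}) ≤ 2 := by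
    rw [IntermediateField.adjoin.finrank hI]
    have h1 := Polynomial.natDegree_le_of_dvd (minpoly.dvd K0 r hint) hmonic.ne_zero
    rwa [Polynomial.natDegree_X_pow_sub_C] at h1
  have : FiniteDimensional K0 (IntermediateField.adjoin K0 {r}) :=
    IntermediateField.adjoin.finiteDimensional hI
  have hrank : Module.rank K0 (IntermediateField.adjoin K0 {r}) ≤ 2 := by
    rw [← Module.finrank_eq_rank]
    exact_mod_cast hfin
  have hsub : IntermediateField.extendScalars hle ≤ IntermediateField.adjoin K0 {r} := by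
    rw [IntermediateField.extendScalars_le_iff]
    apply surf_gen
    · intro a b
      change _ ∈ IntermediateField.adjoin K0 {r}
      have := (IntermediateField.adjoin K0 {r}).algebraMap_mem ⟨_, xe_ratio_mem (k := k) a b⟩
      exact this
    · intro a b
      apply ye_ratio_mem_of
      · intro a b
        change _ ∈ IntermediateField.adjoin K0 {r}
        have := (IntermediateField.adjoin K0 {r}).algebraMap_mem ⟨_, xe_ratio_mem (k := k) a b⟩
        exact this
      · exact IntermediateField.mem_adjoin_simple_self K0 r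
  refine le_trans ?_ hrank
  exact LinearMap.rank_le_of_injective (IntermediateField.inclusion hsub).toLinearMap
    (IntermediateField.inclusion_injective hsub)

theorem psi_degree [CharP k 2] : (psi k).degree = 2 :=
  le_antisymm psi_degree_le (surf_two_le _)

end surface

end Pool.Agent.H824
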