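import Pool.Agent.H824.Defs

namespace Pool.Agent.H824

open MvPolynomial

theorem trdeg_of_pow {k Ω : Type*} [Field k] [Field Ω] [Algebra k Ω] {n : ℕ}
    (E : IntermediateField k Ω) (s : Fin n → Ω) (hsE : ∀ i, s i ∈ E)
    (hs : AlgebraicIndependent k s) (m : ℕ) (hm : 0 < m)
    (halg : ∀ u ∈ E, u ^ m ∈ IntermediateField.adjoin k (Set.range s)) :
    Algebra.trdeg k E = n := by
  classical
  let s' : Fin n → E := fun i => ⟨s i, hsE i⟩
  have hs' : AlgebraicIndependent k s' := by
    apply AlgebraicIndependent.of_comp E.val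
    exact hs
  have hmap : (Algebra.adjoin k (Set.range s')).map E.val = Algebra.adjoin k (Set.range s) := by
    rw [AlgHom.map_adjoin, ← Set.range_comp]
    rfl
  have hb : IsTranscendenceBasis k s' := by
    rw [hs'.isTranscendenceBasis_iff_isAlgebraic]
    constructor
    intro e
    have h1 := halg e e.2
    rw [IntermediateField.mem_adjoin_iff_div] at h1
    obtain ⟨p, hp, q, hq, hpq⟩ := h1
    rw [← hmap] at hp hq
    obtain ⟨p', hp', rfl⟩ := hp
    obtain ⟨q', hq', rfl⟩ := hq
    change (e : Ω) ^ m = (p' : Ω) / (q' : Ω) at hpq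
    by_cases hq0 : q' = 0
    · rw [hq0] at hpq
      simp only [ZeroMemClass.coe_zero, div_zero] at hpq
      have : e = 0 := by
        have h2 := (pow_eq_zero_iff hm.ne').mp hpq
        exact Subtype.ext h2
      rw [this]
      exact isAlgebraic_zero
    · have hq0' : (q' : Ω) ≠ 0 := fun h => hq0 (Subtype.ext h)
      have hrel : q' * e ^ m = p' := by
        apply Subtype.ext
        change (q' : Ω) * (e : Ω) ^ m = (p' : Ω)
        rw [hpq]
        field_simp
      refine ⟨Polynomial.C ⟨q', hq'⟩ * Polynomial.X ^ m - Polynomial.C ⟨p', hp'⟩, ?_, ?_⟩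
      · intro h
        have h2 := congrArg (fun P => Polynomial.coeff P m) h
        simp only [Polynomial.coeff_sub, Polynomial.coeff_C_mul, Polynomial.coeff_X_pow,
          if_true, mul_one, Polynomial.coeff_C, Polynomial.coeff_zero, if_neg hm.ne',
          sub_zero] at h2
        exact hq0 (congrArg Subtype.val h2)
      · rw [map_sub, map_mul, map_pow, Polynomial.aeval_C, Polynomial.aeval_X, Polynomial.aeval_C]
        change q' * e ^ m - p' = 0
        rw [hrel, sub_self]
  have h3 := hb.lift_cardinalMk_eq_trdeg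
  simpa using h3.symm

end Pool.Agent.H824
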