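import Pool.Agent.H824.AmpA
import Pool.Agent.H824.Trdeg
import Pool.Agent.H824.Surface2

namespace Pool.Agent.H824

open MvPolynomial

section general

/-- the chain rule -/
theorem der_aeval {k σ B : Type*} [Field k] [Fintype σ] [CommRing B] [Algebra k B]
    (D : Derivation k B B) (g : σ → B) (p : MvPolynomial σ k) :
    D (aeval g p) = ∑ i, aeval g (pderiv i p) * D (g i) := by
  classical
  induction p using MvPolynomial.induction_on with
  | C a =>
    rw [aeval_C, Derivation.map_algebraMap]
    simp
  | add p q hp hq =>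
    simp only [map_add, hp, hq, add_mul, Finset.sum_add_distrib]
  | mul_X p j hp =>
    simp only [map_mul, Derivation.leibniz, smul_eq_mul, hp, pderiv_X, map_add, aeval_X]
    simp only [add_mul, Finset.sum_add_distrib]
    congr 1
    · rw [Finset.sum_eq_single j]
      · simp
      · intro b _ hb
        simp [hb.symm]
      · simp
    · rw [Finset.mul_sum]
      apply Finset.sum_congr rfl
      intro i _
      ring

theorem ratio_indep' {k Ω : Type*} [Field k] [Field Ω] [Algebra k Ω] {n : ℕ}
    (F : Fin (n + 1) → Ω) (hF : AlgebraicIndependent k F) :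
    AlgebraicIndependent k (fun i : Fin n => F i.succ / F 0) := by
  classical
  rw [algebraicIndependent_iff]
  intro P hP
  have h0 : F 0 ≠ 0 := hF.ne_zero 0
  set d := P.totalDegree with hd
  set H : MvPolynomial (Fin (n + 1)) k := ∑ e ∈ Finset.range (d + 1),
    X 0 ^ (d - e) * rename Fin.succ (homogeneousComponent e P) with hH
  have h1 : aeval F H = 0 := by
    have h2 : aeval F H = F 0 ^ d * aeval (fun i : Fin n => F i.succ / F 0) P := by
      conv_rhs => rw [← sum_homogeneousComponent P]
      rw [hH, map_sum, map_sum, Finset.mul_sum]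
      apply Finset.sum_congr rfl
      intro e he
      have he' : e ≤ d := by
        rw [Finset.mem_range] at he
        omega
      rw [map_mul, map_pow, aeval_X, aeval_rename]
      have h3 : (F ∘ Fin.succ : Fin n → Ω) = fun i => F 0 * (F i.succ / F 0) := by
        funext i
        simp only [Function.comp]
        field_simp
      rw [h3, aeval_smul_of_homog _ (homogeneousComponent_isHomogeneous e P)]
      rw [← mul_assoc, ← pow_add, Nat.sub_add_cancel he']
    rw [h2, hP, mul_zero]
  have h2 : H = 0 := (algebraicIndependent_iff.mp hF) H h1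
  have h3 : aeval (Fin.cons 1 X : Fin (n + 1) → MvPolynomial (Fin n) k) H = P := by
    rw [hH, map_sum]
    conv_rhs => rw [← sum_homogeneousComponent P]
    apply Finset.sum_congr rfl
    intro e he
    rw [map_mul, map_pow, aeval_X, aeval_rename]
    have h4 : ((Fin.cons 1 X : Fin (n + 1) → MvPolynomial (Fin n) k) ∘ Fin.succ) = X := by
      funext i
      simp
    rw [h4]
    simp
  rw [← h3, h2, map_zero]

theorem finrank_ker_functional {k ι : Type*} [Field k] [Fintype ι] (w : ι → k) (hw : w ≠ 0)
    (S : Submodule k (ι → k)) (hS : ∀ v ∈ S, ∑ i, v i * w i = 0) :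
    Module.finrank k S + 1 ≤ Fintype.card ι := by
  classical
  set f := ∑ i, w i • LinearMap.proj (R := k) (φ := fun _ : ι => k) i with hf
  have hfa : ∀ u, f u = ∑ i, w i * u i := by
    intro u
    simp [hf]
  have hf0 : f ≠ 0 := by
    obtain ⟨i, hi⟩ : ∃ i, w i ≠ 0 := by
      by_contra h
      push Not at h
      exact hw (funext h)
    intro h
    apply hi
    have := hfa (Pi.single i 1)
    rw [h] at this
    simp [Pi.single_apply] at this
    exact this.symm
  have hr : Module.finrank k (LinearMap.range f) = 1 := by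
    have := LinearMap.range_eq_top.mpr (LinearMap.surjective hf0)
    rw [this, finrank_top, Module.finrank_self]
  have h1 := LinearMap.finrank_range_add_finrank_ker f
  rw [hr, Module.finrank_fintype_fun_eq_card] at h1
  have h2 : S ≤ LinearMap.ker f := by
    intro v hv
    rw [LinearMap.mem_ker, hfa, ← hS v hv]
    exact Finset.sum_congr rfl (fun i _ => mul_comm _ _)
  have h3 := Submodule.finrank_mono h2
  omega

end general

namespace ProjVariety

variable {k : Type*} [Field k] {ι : Type*} (V : ProjVariety k ι)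

/-- the field of the fractions of forms of the same degree -/
def formField : IntermediateField k V.ConeField where
  carrier := {u | ∃ (e : ℕ) (F G : MvPolynomial ι k), F.IsHomogeneous e ∧ G.IsHomogeneous e ∧
    V.el G ≠ 0 ∧ u = V.el F / V.el G}
  mul_mem' := by
    rintro _ _ ⟨e, F, G, hF, hG, hG0, rfl⟩ ⟨e', F', G', hF', hG', hG0', rfl⟩
    refine ⟨e + e', F * F', G * G', hF.mul hF', hG.mul hG', ?_, ?_⟩
    · rw [el_mul]
      exact mul_ne_zero hG0 hG0'
    · rw [el_mul, el_mul, div_mul_div_comm]
  one_mem' := by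
    refine ⟨0, 1, 1, isHomogeneous_one _ _, isHomogeneous_one _ _, ?_, ?_⟩
    · simp [el]
    · simp [el]
  add_mem' := by
    rintro _ _ ⟨e, F, G, hF, hG, hG0, rfl⟩ ⟨e', F', G', hF', hG', hG0', rfl⟩
    refine ⟨e + e', F * G' + G * F', G * G', (hF.mul hG').add (hG.mul hF'), hG.mul hG', ?_, ?_⟩
    · rw [el_mul]
      exact mul_ne_zero hG0 hG0'
    · rw [el_add, el_mul, el_mul, el_mul, div_add_div _ _ hG0 hG0']
  zero_mem' := by
    refine ⟨0, 0, 1, isHomogeneous_zero _ _ _, isHomogeneous_one _ _, ?_, ?_⟩
    · simp [el]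
    · simp [el]
  algebraMap_mem' := by
    intro c
    refine ⟨0, C c, 1, isHomogeneous_C _ _, isHomogeneous_one _ _, ?_, ?_⟩
    · simp [el]
    · rw [el_eq_aeval V (C c), aeval_C]
      simp [el]
  inv_mem' := by
    rintro _ ⟨e, F, G, hF, hG, hG0, rfl⟩
    by_cases h : V.el F = 0
    · refine ⟨0, 0, 1, isHomogeneous_zero _ _ _, isHomogeneous_one _ _, ?_, ?_⟩
      · simp [el]
      · rw [h]
        simp [el]
    · exact ⟨e, G, F, hG, hF, h, by rw [inv_div]⟩

theorem functionField_le_formField : V.functionField ≤ V.formField := by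
  unfold functionField ratioField
  rw [IntermediateField.adjoin_le_iff]
  rintro u ⟨i, j, rfl⟩
  change V.el (X i) / V.el (X j) ∈ V.formField
  by_cases h : V.el (X j) = 0
  · rw [h, div_zero]
    exact zero_mem V.formField
  · exact ⟨1, X i, X j, isHomogeneous_X _ _, isHomogeneous_X _ _, h, rfl⟩

theorem exists_forms (u : V.functionField) :
    ∃ (e : ℕ) (F G : MvPolynomial ι k), F.IsHomogeneous e ∧ G.IsHomogeneous e ∧
      V.el G ≠ 0 ∧ (u : V.ConeField) = V.el F / V.el G :=
  V.functionField_le_formField u.2

theorem coord_ratio_mem (i j : ι) : V.el (X i) / V.el (X j) ∈ V.functionField :=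
  IntermediateField.subset_adjoin _ _ ⟨_, _, rfl⟩

end ProjVariety

section quad

variable (k : Type*) [Field k] (m : ℕ)

/-- the parametrizing forms of the quadric -/
noncomputable def gq : Option (Fin (m + 1) × Fin 2) → MvPolynomial (Fin (m + 1) × Fin 2) k
  | some a => X a ^ 2
  | none => ∑ i, X (i, 0) * X (i, 1)

theorem gq_homog (i : Option (Fin (m + 1) × Fin 2)) : (gq k m i).IsHomogeneous 2 := by
  cases i with
  | none =>
    exact IsHomogeneous.sum _ _ _ (fun i _ => (isHomogeneous_X k _).mul (isHomogeneous_X k _))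
  | some a =>
    change (X a ^ 2 : MvPolynomial (Fin (m + 1) × Fin 2) k).IsHomogeneous 2
    simpa using (isHomogeneous_X k a).pow 2

theorem gq_some_ne (a : Fin (m + 1) × Fin 2) : gq k m (some a) ≠ 0 :=
  pow_ne_zero _ (X_ne_zero _)

/-- the quadric, through its parametrization -/
noncomputable def quadVar : ProjVariety k (Option (Fin (m + 1) × Fin 2)) :=
  paramVariety (gq k m) 2 (by norm_num) (gq_homog k m) ⟨some (0, 0), gq_some_ne k m _⟩

variable {k m}

theorem quad_mem (F : MvPolynomial (Option (Fin (m + 1) × Fin 2)) k) :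
    F ∈ (quadVar k m).ideal ↔ aeval (gq k m) F = 0 := by
  change _ ∈ RingHom.ker _ ↔ _
  rw [RingHom.mem_ker]

theorem quadric_aeval [CharP k 2] : aeval (gq k m) (quadric k m) = 0 := by
  have h2 : CharP (MvPolynomial (Fin (m + 1) × Fin 2) k) 2 := inferInstance
  unfold quadric
  rw [map_add, map_pow, aeval_X, map_sum]
  simp only [map_mul, aeval_X, gq]
  rw [sum_pow_char]
  simp only [mul_pow]
  exact CharTwo.add_self_eq_zero _

theorem der_sq {B : Type*} [CommRing B] [Algebra k B] (h2 : (2 : B) = 0)
    (D : Derivation k B B) (x : B) : D (x ^ 2) = 0 := by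
  rw [pow_two, Derivation.leibniz, smul_eq_mul, ← two_mul, h2, zero_mul]

theorem expand_indep [CharP k 2] (A B : MvPolynomial (Fin (m + 1) × Fin 2) k)
    (h : aeval (fun a => gq k m (some a)) A + aeval (fun a => gq k m (some a)) B * gq k m none = 0) :
    A = 0 ∧ B = 0 := by
  classical
  have h2 : (2 : MvPolynomial (Fin (m + 1) × Fin 2) k) = 0 := two_eq_zero_poly _
  have hinj : ∀ P : MvPolynomial (Fin (m + 1) × Fin 2) k,
      aeval (fun a => gq k m (some a)) P = 0 → P = 0 := by
    intro P hP
    have h1 : expand 2 P = 0 := hP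
    exact (expand_injective (σ := Fin (m + 1) × Fin 2) (R := k) (n := 2) (by norm_num))
      (by rw [h1, map_zero])
  have hD : ∀ P : MvPolynomial (Fin (m + 1) × Fin 2) k,
      pderiv ((0 : Fin (m + 1)), (1 : Fin 2)) (aeval (fun a => gq k m (some a)) P) = 0 := by
    intro P
    rw [der_aeval]
    apply Finset.sum_eq_zero
    intro i _
    rw [gq, der_sq h2, mul_zero]
  have h3 := congrArg (pderiv ((0 : Fin (m + 1)), (1 : Fin 2))) h
  rw [map_add, hD, Derivation.leibniz, hD, smul_zero, add_zero, zero_add, map_zero,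
    smul_eq_mul, gq, map_sum] at h3
  have h4 : ∑ i : Fin (m + 1), pderiv ((0 : Fin (m + 1)), (1 : Fin 2))
      (X (i, 0) * X (i, 1) : MvPolynomial (Fin (m + 1) × Fin 2) k) = X (0, 0) := by
    rw [Finset.sum_eq_single 0]
    · rw [Derivation.leibniz, pderiv_X, pderiv_X]
      simp
    · intro b _ hb
      rw [Derivation.leibniz, pderiv_X, pderiv_X]
      simp [hb]
    · simp
  rw [h4] at h3
  have hB : B = 0 := hinj B ((mul_eq_zero.mp h3).resolve_right (X_ne_zero _))
  refine ⟨?_, hB⟩
  rw [hB, map_zero, zero_mul, add_zero] at h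
  exact hinj A h

end quad

end Pool.Agent.H824
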