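import Pool.Agent.H824.AmpB

namespace Pool.Agent.H824

open MvPolynomial

section quad

variable {k : Type*} [Field k] {m : ℕ}

/-- the coordinates in the cone field -/
noncomputable def xi (k : Type*) [Field k] (m : ℕ) (i : Option (Fin (m + 1) × Fin 2)) :
    (quadVar k m).ConeField := (quadVar k m).el (X i)

theorem quad_el_zero (F : MvPolynomial (Option (Fin (m + 1) × Fin 2)) k) :
    (quadVar k m).el F = 0 ↔ aeval (gq k m) F = 0 := by
  rw [ProjVariety.el_eq_zero_iff, quad_mem]

theorem xi_some_ne (a : Fin (m + 1) × Fin 2) : xi k m (some a) ≠ 0 := by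
  unfold xi
  rw [Ne, quad_el_zero, aeval_X]
  exact gq_some_ne k m a

theorem xi_indep [CharP k 2] :
    AlgebraicIndependent k (fun a : Fin (m + 1) × Fin 2 => xi k m (some a)) := by
  classical
  rw [algebraicIndependent_iff]
  intro P hP
  have h1 : aeval (fun a => gq k m (some a)) P = 0 := by
    have h2 : (quadVar k m).el (rename some P) =
        aeval (fun a : Fin (m + 1) × Fin 2 => xi k m (some a)) P := by
      rw [ProjVariety.el_eq_aeval, aeval_rename]
      rfl
    rw [hP, quad_el_zero, aeval_rename] at h2
    exact h2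
  have h3 : expand 2 P = 0 := h1
  exact (expand_injective (σ := Fin (m + 1) × Fin 2) (R := k) (n := 2) (by norm_num))
    (by rw [h3, map_zero])

theorem xi_none_sq [CharP k 2] : xi k m none ^ 2 =
    ∑ i : Fin (m + 1), xi k m (some (i, 0)) * xi k m (some (i, 1)) := by
  have h1 : (quadVar k m).el (quadric k m) = 0 := by
    rw [quad_el_zero]
    exact quadric_aeval
  have h2 : (quadVar k m).el (quadric k m) = xi k m none ^ 2 +
      ∑ i : Fin (m + 1), xi k m (some (i, 0)) * xi k m (some (i, 1)) := by
    rw [ProjVariety.el_eq_aeval]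
    unfold quadric xi
    rw [map_add, map_pow, aeval_X, map_sum]
    simp only [map_mul, aeval_X]
  rw [h2] at h1
  have h3 : (2 : (quadVar k m).ConeField) = 0 := two_eq_zero_alg (k := k) _
  linear_combination h1 - (∑ i : Fin (m + 1), xi k m (some (i, 0)) * xi k m (some (i, 1))) * h3

/-- the elements of the cone field whose square lies in a subfield -/
def sqField {Ω : Type*} [Field Ω] [Algebra k Ω] (h2 : (2 : Ω) = 0) (E : IntermediateField k Ω) :
    IntermediateField k Ω where
  carrier := {u | u ^ 2 ∈ E}
  mul_mem' := by
    intro a b ha hb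
    change (a * b) ^ 2 ∈ E
    rw [mul_pow]
    exact mul_mem ha hb
  one_mem' := by
    change (1 : Ω) ^ 2 ∈ E
    rw [one_pow]
    exact one_mem E
  add_mem' := by
    intro a b ha hb
    change (a + b) ^ 2 ∈ E
    have : (a + b) ^ 2 = a ^ 2 + b ^ 2 := by linear_combination a * b * h2
    rw [this]
    exact add_mem ha hb
  zero_mem' := by
    change (0 : Ω) ^ 2 ∈ E
    rw [zero_pow two_ne_zero]
    exact zero_mem E
  algebraMap_mem' := by
    intro c
    change (algebraMap k Ω c) ^ 2 ∈ E
    exact pow_mem (E.algebraMap_mem c) 2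
  inv_mem' := by
    intro a ha
    change (a⁻¹) ^ 2 ∈ E
    rw [inv_pow]
    exact inv_mem (S := IntermediateField k Ω) (x := a ^ 2) ha

theorem quad_dim [CharP k 2] : (quadVar k m).dim = 2 * m + 1 := by
  classical
  let e : Fin (2 * m + 1 + 1) ≃ Fin (m + 1) × Fin 2 :=
    (Fintype.equivFinOfCardEq (by simp; ring)).symm
  let F : Fin (2 * m + 1 + 1) → (quadVar k m).ConeField := fun j => xi k m (some (e j))
  have hF : AlgebraicIndependent k F := xi_indep.comp e e.injective
  have hs := ratio_indep' F hF
  set s : Fin (2 * m + 1) → (quadVar k m).ConeField := fun i => F i.succ / F 0 with hsdef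
  have h2 : (2 : (quadVar k m).ConeField) = 0 := two_eq_zero_alg (k := k) _
  have hF0 : F 0 ≠ 0 := xi_some_ne _
  have hmem : ∀ a, xi k m (some a) / F 0 ∈ IntermediateField.adjoin k (Set.range s) := by
    intro a
    obtain ⟨j, rfl⟩ := e.surjective a
    refine Fin.cases ?_ (fun i => ?_) j
    · have : xi k m (some (e 0)) / F 0 = 1 := div_self hF0
      rw [this]
      exact one_mem _
    · exact IntermediateField.subset_adjoin _ _ ⟨i, rfl⟩
  have hsq : ∀ i, (xi k m i / F 0) ^ 2 ∈ IntermediateField.adjoin k (Set.range s) := by
    intro i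
    cases i with
    | some a => exact pow_mem (hmem a) 2
    | none =>
      have : (xi k m none / F 0) ^ 2 =
          ∑ i : Fin (m + 1), (xi k m (some (i, 0)) / F 0) * (xi k m (some (i, 1)) / F 0) := by
        rw [div_pow, xi_none_sq, Finset.sum_div]
        apply Finset.sum_congr rfl
        intro i _
        field_simp
      rw [this]
      exact sum_mem (fun i _ => mul_mem (hmem _) (hmem _))
  have hle : (quadVar k m).functionField ≤
      sqField h2 (IntermediateField.adjoin k (Set.range s)) := by
    unfold ProjVariety.functionField ratioField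
    rw [IntermediateField.adjoin_le_iff]
    rintro u ⟨i, j, rfl⟩
    change (xi k m i / xi k m j) ^ 2 ∈ IntermediateField.adjoin k (Set.range s)
    have : (xi k m i / xi k m j) ^ 2 = (xi k m i / F 0) ^ 2 / (xi k m j / F 0) ^ 2 := by
      rw [← div_pow, div_div_div_cancel_right₀ hF0]
    rw [this]
    exact div_mem (hsq i) (hsq j)
  have h := trdeg_of_pow (quadVar k m).functionField s
    (fun i => (quadVar k m).coord_ratio_mem _ _) hs 2 (by norm_num) (fun u hu => hle hu)
  unfold ProjVariety.dim fieldDim
  rw [h]
  exact Cardinal.toNat_natCast _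

theorem eval_quadric (z : Option (Fin (m + 1) × Fin 2) → k) :
    eval z (quadric k m) = z none ^ 2 + ∑ i, z (some (i, 0)) * z (some (i, 1)) := by
  unfold quadric
  simp

theorem quad_point [CharP k 2] (z : Option (Fin (m + 1) × Fin 2) → k)
    (hz : z ∈ (quadVar k m).points) : ∃ a, z (some a) ≠ 0 := by
  by_contra h
  push Not at h
  have h1 := hz.2 (quadric k m) (by rw [quad_mem]; exact quadric_aeval)
  rw [eval_quadric] at h1
  simp only [h, mul_zero, Finset.sum_const_zero, add_zero] at h1
  apply hz.1
  funext i
  cases i with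
  | none => simpa using h1
  | some a => exact h a

theorem pderiv_quadric_zero (i : Fin (m + 1)) :
    pderiv (some (i, 0)) (quadric k m) = X (some (i, 1)) := by
  classical
  unfold quadric
  rw [map_add, map_sum, Finset.sum_eq_single i]
  · rw [pow_two]
    simp [Derivation.leibniz, pderiv_X]
  · intro b _ hb
    simp [Derivation.leibniz, pderiv_X, hb]
  · simp

theorem pderiv_quadric_one (i : Fin (m + 1)) :
    pderiv (some (i, 1)) (quadric k m) = X (some (i, 0)) := by
  classical
  unfold quadric
  rw [map_add, map_sum, Finset.sum_eq_single i]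
  · rw [pow_two]
    simp [Derivation.leibniz, pderiv_X]
  · intro b _ hb
    simp [Derivation.leibniz, pderiv_X, hb]
  · simp

theorem quad_smooth [CharP k 2] : (quadVar k m).IsSmooth := by
  classical
  intro z hz
  have hq : quadric k m ∈ (quadVar k m).ideal := by
    rw [quad_mem]
    exact quadric_aeval
  have h1 := finrank_ker_functional (fun i => eval z (pderiv i (quadric k m))) (by
    intro h
    obtain ⟨⟨i, b⟩, ha⟩ := quad_point z hz
    apply ha
    fin_cases b
    · have := congrFun h (some (i, 1))
      rw [pderiv_quadric_one] at this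
      simpa using this
    · have := congrFun h (some (i, 0))
      rw [pderiv_quadric_zero] at this
      simpa using this) ((quadVar k m).coneTangent z) (fun v hv => hv _ hq)
  rw [quad_dim]
  have h2 : Fintype.card (Option (Fin (m + 1) × Fin 2)) = 2 * m + 3 := by
    simp
    ring
  omega

end quad

end Pool.Agent.H824
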