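import Pool.Agent.H824.AmpC

namespace Pool.Agent.H824

open MvPolynomial

section lift

/-- A derivation of a domain with values in the fraction field extends to the fraction field. -/
theorem exists_lift_derivation {k R M : Type*} [Field k] [CommRing R] [Field M] [Algebra k R]
    [Algebra k M] [Algebra R M] [IsScalarTower k R M] [IsFractionRing R M]
    (d : Derivation k R M) : ∃ D : Derivation k M M, ∀ r, D (algebraMap R M r) = d r := by
  classical
  let g : R →+* TrivSqZeroExt M M :=
    { toFun := fun r => TrivSqZeroExt.inl (algebraMap R M r) + TrivSqZeroExt.inr (d r)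
      map_one' := by simp
      map_mul' := fun a b => by
        apply TrivSqZeroExt.ext
        · simp only [map_mul, TrivSqZeroExt.fst_add, TrivSqZeroExt.fst_inl,
            TrivSqZeroExt.fst_inr, add_zero, TrivSqZeroExt.fst_mul]
        · simp only [map_mul, TrivSqZeroExt.snd_add, TrivSqZeroExt.snd_inl,
            TrivSqZeroExt.snd_inr, zero_add, TrivSqZeroExt.snd_mul, Derivation.leibniz,
            TrivSqZeroExt.fst_add, TrivSqZeroExt.fst_inl, TrivSqZeroExt.fst_inr, add_zero,
            Algebra.smul_def, Algebra.algebraMap_self, RingHom.id_apply, MulOpposite.smul_eq_mul_unop,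
            MulOpposite.unop_op]
          rw [mul_comm (algebraMap R M b)]
      map_zero' := by simp
      map_add' := fun a b => by
        apply TrivSqZeroExt.ext
        · simp
        · simp }
  have hfst : ∀ q, (g q).fst = algebraMap R M q := by
    intro q
    simp [g]
  have hsnd : ∀ q, (g q).snd = d q := by
    intro q
    simp [g]
  have hu : ∀ y : nonZeroDivisors R, IsUnit (g y) := by
    intro y
    rw [TrivSqZeroExt.isUnit_iff_isUnit_fst, hfst]
    exact IsLocalization.map_units M y
  let φ : M →+* TrivSqZeroExt M M := IsLocalization.lift (M := nonZeroDivisors R) hu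
  have hφ : ∀ q, φ (algebraMap R M q) = g q := by
    intro q
    exact IsLocalization.lift_eq hu q
  have hφfst : ∀ u, (φ u).fst = u := by
    intro u
    have : ((TrivSqZeroExt.fstHom k M M).toRingHom.comp φ) = RingHom.id M := by
      apply IsLocalization.ringHom_ext (nonZeroDivisors R)
      apply RingHom.ext
      intro q
      simp only [RingHom.comp_apply]
      rw [hφ]
      change (g _).fst = _
      rw [hfst]
      rfl
    exact DFunLike.congr_fun this u
  have hφk : ∀ a : k, φ (algebraMap k M a) = TrivSqZeroExt.inl (algebraMap k M a) := by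
    intro a
    rw [IsScalarTower.algebraMap_apply k R M, hφ]
    have h0 : g (algebraMap k R a) = (TrivSqZeroExt.inl (algebraMap R M (algebraMap k R a)) :
        TrivSqZeroExt M M) + TrivSqZeroExt.inr (d (algebraMap k R a)) := rfl
    rw [h0, Derivation.map_algebraMap, TrivSqZeroExt.inr_zero, add_zero]
  refine ⟨Derivation.mk'
    { toFun := fun u => (φ u).snd
      map_add' := fun u v => by simp
      map_smul' := fun a u => by
        simp only [Algebra.smul_def, map_mul, hφk, RingHom.id_apply, TrivSqZeroExt.snd_mul,
          TrivSqZeroExt.fst_inl, TrivSqZeroExt.snd_inl, smul_zero, add_zero]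
        simp } ?_, ?_⟩
  · intro u v
    simp only [LinearMap.coe_mk, AddHom.coe_mk, map_mul, TrivSqZeroExt.snd_mul, hφfst]
    simp [mul_comm]
  · intro r
    change (φ _).snd = d r
    rw [hφ, hsnd]

end lift

section quad

variable {k : Type*} [Field k] {m : ℕ}

theorem quad_reduce (F : MvPolynomial (Option (Fin (m + 1) × Fin 2)) k) :
    ∃ A B : MvPolynomial (Fin (m + 1) × Fin 2) k,
      F - (rename some A + rename some B * X none) ∈ Ideal.span {quadric k m} := by
  classical
  induction F using MvPolynomial.induction_on with
  | C a =>
    refine ⟨C a, 0, ?_⟩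
    simp
  | add p q hp hq =>
    obtain ⟨A, B, h⟩ := hp
    obtain ⟨A', B', h'⟩ := hq
    refine ⟨A + A', B + B', ?_⟩
    have := add_mem h h'
    convert this using 1
    simp only [map_add]
    ring
  | mul_X p j hp =>
    obtain ⟨A, B, h⟩ := hp
    cases j with
    | some a =>
      refine ⟨A * X a, B * X a, ?_⟩
      have := Ideal.mul_mem_right (X (some a)) _ h
      convert this using 1
      simp only [map_mul, rename_X]
      ring
    | none =>
      refine ⟨- (B * ∑ i, X (i, 0) * X (i, 1)), A, ?_⟩
      have h1 := Ideal.mul_mem_right (X none) _ h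
      have h2 : rename some B * quadric k m ∈ Ideal.span {quadric k m} :=
        Ideal.mul_mem_left _ _ (Ideal.subset_span rfl)
      have := add_mem h1 h2
      convert this using 1
      unfold quadric
      simp only [map_mul, map_neg, map_sum, rename_X]
      ring

theorem quad_ideal [CharP k 2] : (quadVar k m).ideal = Ideal.span {quadric k m} := by
  apply le_antisymm
  · intro F hF
    obtain ⟨A, B, h⟩ := quad_reduce F
    have h1 : rename some A + rename some B * X none ∈ (quadVar k m).ideal := by
      have h2 : F - (rename some A + rename some B * X none) ∈ (quadVar k m).ideal := by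
        have h3 : Ideal.span {quadric k m} ≤ (quadVar k m).ideal := by
          rw [Ideal.span_singleton_le_iff_mem, quad_mem]
          exact quadric_aeval
        exact h3 h
      have := sub_mem hF h2
      convert this using 1
      ring
    rw [quad_mem, map_add, map_mul, aeval_rename, aeval_rename, aeval_X] at h1
    obtain ⟨rfl, rfl⟩ := expand_indep A B h1
    simpa using h
  · rw [Ideal.span_singleton_le_iff_mem, quad_mem]
    exact quadric_aeval

theorem pderiv_none_quadric [CharP k 2] : pderiv none (quadric k m) = 0 := by
  classical
  have h2 : (2 : MvPolynomial (Option (Fin (m + 1) × Fin 2)) k) = 0 := two_eq_zero_poly _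
  unfold quadric
  rw [map_add, der_sq h2, map_sum, zero_add]
  apply Finset.sum_eq_zero
  intro i _
  rw [Derivation.leibniz, pderiv_X_of_ne (by simp), pderiv_X_of_ne (by simp)]
  simp

theorem pderiv_none_mem [CharP k 2] (F : MvPolynomial (Option (Fin (m + 1) × Fin 2)) k)
    (hF : F ∈ (quadVar k m).ideal) : pderiv none F ∈ (quadVar k m).ideal := by
  rw [quad_ideal, Ideal.mem_span_singleton] at hF ⊢
  obtain ⟨A, rfl⟩ := hF
  rw [Derivation.leibniz, pderiv_none_quadric, smul_zero, add_zero, smul_eq_mul]
  exact dvd_mul_right _ _

end quad

end Pool.Agent.H824
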