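import Pool.Agent.H824.AmpD

namespace Pool.Agent.H824

open MvPolynomial

/-- A derivation that preserves the kernel of a surjection onto a domain induces a derivation of
the fraction field. -/
theorem exists_quot_derivation {k P R M : Type*} [Field k] [CommRing P] [Algebra k P]
    [CommRing R] [Field M] [Algebra k R] [Algebra k M] [Algebra R M] [IsScalarTower k R M]
    [IsFractionRing R M] (π : P →ₐ[k] R) (hπ : Function.Surjective π) (D0 : Derivation k P P)
    (h : ∀ F, π F = 0 → π (D0 F) = 0) :
    ∃ D : Derivation k M M, ∀ F, D (algebraMap R M (π F)) = algebraMap R M (π (D0 F)) := by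
  classical
  have hwd : ∀ A B, π A = π B → algebraMap R M (π (D0 A)) = algebraMap R M (π (D0 B)) := by
    intro A B hAB
    have h1 : π (A - B) = 0 := by rw [map_sub, hAB, sub_self]
    have h2 := h _ h1
    rw [map_sub, map_sub, sub_eq_zero] at h2
    rw [h2]
  choose r hr using hπ
  have hf : ∀ A, algebraMap R M (π (D0 (r (π A)))) = algebraMap R M (π (D0 A)) := fun A =>
    hwd _ _ (hr _)
  let f : R →ₗ[k] M :=
    { toFun := fun a => algebraMap R M (π (D0 (r a)))
      map_add' := fun a b => by
        rw [← hr a, ← hr b, ← map_add, hf, hf, hf, map_add, map_add, map_add]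
      map_smul' := fun c a => by
        have h1 : c • a = π (c • r a) := by rw [map_smul, hr]
        rw [h1, hf, Derivation.map_smul, map_smul, Algebra.smul_def, map_mul, RingHom.id_apply,
          Algebra.smul_def, ← IsScalarTower.algebraMap_apply] }
  have hf' : ∀ A, f (π A) = algebraMap R M (π (D0 A)) := hf
  let d : Derivation k R M :=
    Derivation.mk' f (by
      intro a b
      rw [← hr a, ← hr b, ← map_mul, hf', hf', hf', Derivation.leibniz, smul_eq_mul, smul_eq_mul,
        map_add, map_add, map_mul, map_mul, map_mul, map_mul, Algebra.smul_def, Algebra.smul_def])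
  obtain ⟨D, hD⟩ := exists_lift_derivation d
  exact ⟨D, fun F => (hD (π F)).trans (hf' F)⟩

section quad

variable {k : Type*} [Field k] {m : ℕ}

/-- The derivation `∂/∂z` of the cone over the quadric. -/
theorem exists_delta (k : Type*) [Field k] [CharP k 2] (m : ℕ) :
    ∃ D : Derivation k (quadVar k m).ConeField (quadVar k m).ConeField,
      ∀ F, D ((quadVar k m).el F) = (quadVar k m).el (pderiv none F) := by
  classical
  refine exists_quot_derivation (quadVar k m).toCoord Ideal.Quotient.mk_surjective
    (pderiv none) ?_
  intro F hF
  have h1 : F ∈ (quadVar k m).ideal := Ideal.Quotient.eq_zero_iff_mem.mp hF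
  exact Ideal.Quotient.eq_zero_iff_mem.mpr (pderiv_none_mem F h1)

/-- The derivation `∂/∂z` of the cone over the quadric. -/
noncomputable def delta (k : Type*) [Field k] [CharP k 2] (m : ℕ) :
    Derivation k (quadVar k m).ConeField (quadVar k m).ConeField := (exists_delta k m).choose

theorem delta_el [CharP k 2] (F : MvPolynomial (Option (Fin (m + 1) × Fin 2)) k) :
    delta k m ((quadVar k m).el F) = (quadVar k m).el (pderiv none F) :=
  (exists_delta k m).choose_spec F

end quad

end Pool.Agent.H824
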