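import Pool.Agent.H824.AmpD2

namespace Pool.Agent.H824

open MvPolynomial

theorem exists_phi {k M : Type*} [Field k] [Field M] [Algebra k M] (K : IntermediateField k M)
    (S : Submodule K M) (D : Derivation k M M) (h : ∀ s ∈ S, ∀ u ∈ K, s * D u ∈ K) :
    ∃ Φ : S →ₗ[K] Derivation k K K, ∀ (s : S) (u : K), ((Φ s u : K) : M) = (s : M) * D (u : M) := by
  classical
  let f : S → K →ₗ[k] K := fun s =>
    { toFun := fun u => ⟨(s : M) * D (u : M), h s s.2 u u.2⟩
      map_add' := fun u v => by
        apply Subtype.ext
        change (s : M) * D ((u : M) + (v : M)) = (s : M) * D (u : M) + (s : M) * D (v : M)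
        rw [map_add, mul_add]
      map_smul' := fun c u => by
        apply Subtype.ext
        change (s : M) * D (c • (u : M)) = c • ((s : M) * D (u : M))
        rw [Derivation.map_smul, mul_smul_comm] }
  let der : S → Derivation k K K := fun s => Derivation.mk' (f s) (by
    intro u v
    apply Subtype.ext
    change (s : M) * D ((u : M) * (v : M)) =
      (u : M) * ((s : M) * D (v : M)) + (v : M) * ((s : M) * D (u : M))
    rw [Derivation.leibniz, smul_eq_mul, smul_eq_mul]
    ring)
  refine ⟨{ toFun := der, map_add' := ?_, map_smul' := ?_ }, ?_⟩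
  · intro s t
    apply Derivation.ext
    intro u
    apply Subtype.ext
    change ((s : M) + (t : M)) * D (u : M) = (s : M) * D (u : M) + (t : M) * D (u : M)
    rw [add_mul]
  · intro c s
    apply Derivation.ext
    intro u
    apply Subtype.ext
    change ((c : M) * (s : M)) * D (u : M) = (c : M) * ((s : M) * D (u : M))
    rw [mul_assoc]
  · intro s u
    rfl

theorem pderiv_of_homog_zero {k σ : Type*} [Field k] (i : σ) (F : MvPolynomial σ k)
    (hF : F.IsHomogeneous 0) : pderiv i F = 0 := by
  have h : F.totalDegree = 0 := by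
    have := hF.totalDegree_le
    omega
  rw [totalDegree_eq_zero_iff_eq_C] at h
  rw [h, pderiv_C]

theorem der_div {k M : Type*} [Field k] [Field M] [Algebra k M] (D : Derivation k M M)
    (a b a' b' : M) (ha : D a = a') (hb : D b = b') : D (a / b) = b⁻¹ ^ 2 * (b * a' - a * b') := by
  rw [Derivation.leibniz_div, ha, hb]
  rfl

theorem numer_homog {k σ : Type*} [Field k] (i : σ) (A F G : MvPolynomial σ k) {d e : ℕ}
    (hA : A.IsHomogeneous (d + 1)) (hF : F.IsHomogeneous e) (hG : G.IsHomogeneous e) :
    (A * (G * pderiv i F - F * pderiv i G)).IsHomogeneous (d + 2 * e) := by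
  rcases Nat.eq_zero_or_pos e with h | h
  · subst h
    rw [pderiv_of_homog_zero i F hF, pderiv_of_homog_zero i G hG]
    simp only [mul_zero, sub_zero]
    exact isHomogeneous_zero _ _ _
  · have h1 := hA.mul ((hG.mul (hF.pderiv (i := i))).sub (hF.mul (hG.pderiv (i := i))))
    have h2 : d + 1 + (e + (e - 1)) = d + 2 * e := by omega
    rw [h2] at h1
    exact h1

section quad

variable {k : Type*} [Field k] {m : ℕ}

theorem delta_ratio [CharP k 2] (A B F G : MvPolynomial (Option (Fin (m + 1) × Fin 2)) k)
    (hG : (quadVar k m).el G ≠ 0) :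
    ((quadVar k m).el A / (quadVar k m).el B) *
      delta k m ((quadVar k m).el F / (quadVar k m).el G) =
      (quadVar k m).el (A * (G * pderiv none F - F * pderiv none G)) /
        (quadVar k m).el (B * G ^ 2) := by
  rw [der_div (delta k m) _ _ _ _ (delta_el F) (delta_el G)]
  simp only [ProjVariety.el_mul, ProjVariety.el_sub, ProjVariety.el_pow]
  rw [inv_pow]
  by_cases hB : (quadVar k m).el B = 0
  · rw [hB]
    simp
  · field_simp

theorem phi_mem [CharP k 2] : ∀ s ∈ (quadVar k m).rationalSections,
    ∀ u ∈ (quadVar k m).functionField, s * delta k m u ∈ (quadVar k m).functionField := by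
  intro s hs u hu
  unfold ProjVariety.rationalSections at hs
  induction hs using Submodule.span_induction with
  | mem s hs =>
    obtain ⟨i, rfl⟩ := hs
    obtain ⟨e, F, G, hF, hG, hG0, h⟩ := (quadVar k m).exists_forms ⟨u, hu⟩
    change u = _ at h
    have h1 := delta_ratio (X i) 1 F G hG0
    have h2 : (quadVar k m).el 1 = 1 := by simp [ProjVariety.el]
    rw [h2, div_one, ← h, one_mul] at h1
    rw [h1]
    have h3 := numer_homog none (X i) F G (d := 0) (by simpa using isHomogeneous_X k i) hF hG
    rw [zero_add, mul_comm 2 e] at h3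
    exact (quadVar k m).ratio_mem _ _ _ h3 (hG.pow 2)
  | zero =>
    rw [zero_mul]
    exact zero_mem _
  | add s t _ _ hs ht =>
    rw [add_mul]
    exact add_mem hs ht
  | smul c s _ hs =>
    have : (c • s) * delta k m u = (c : (quadVar k m).ConeField) * (s * delta k m u) := by
      rw [← mul_assoc]
      rfl
    rw [this]
    exact mul_mem c.2 hs

theorem exists_morphism (k : Type*) [Field k] [CharP k 2] (m : ℕ) :
    ∃ Φ : (quadVar k m).rationalSections →ₗ[(quadVar k m).functionField]
      Derivation k (quadVar k m).functionField (quadVar k m).functionField,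
      (quadVar k m).IsHyperplaneToTangent Φ ∧
      ∀ z ∈ (quadVar k m).points, ∃ s ∈ (quadVar k m).hyperplaneStalk z,
        ∃ u ∈ (quadVar k m).localRing z, Φ s u = 1 := by
  classical
  obtain ⟨Φ, hΦ⟩ := exists_phi (quadVar k m).functionField (quadVar k m).rationalSections
    (delta k m) phi_mem
  have hne : ∀ z ∈ (quadVar k m).points, ∀ G, eval z G ≠ 0 → (quadVar k m).el G ≠ 0 := by
    intro z hz G hG h
    rw [ProjVariety.el_eq_zero_iff] at h
    exact hG (hz.2 G h)
  refine ⟨Φ, ?_, ?_⟩
  · rintro z hz s ⟨d, A, B, hA, hB, hB0, hs⟩ u ⟨e, F, G, hF, hG, hG0, hu⟩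
    refine ⟨d + 2 * e, A * (G * pderiv none F - F * pderiv none G), B * G ^ 2,
      numer_homog none A F G hA hF hG, ?_, ?_, ?_⟩
    · have h1 := hB.mul (hG.pow 2)
      rw [mul_comm e 2] at h1
      exact h1
    · rw [map_mul, map_pow]
      exact mul_ne_zero hB0 (pow_ne_zero _ hG0)
    · rw [hΦ, hs, hu]
      exact delta_ratio A B F G (hne z hz G hG0)
  · intro z hz
    obtain ⟨a, ha⟩ := quad_point z hz
    have hs : xi k m (some a) ∈ (quadVar k m).rationalSections :=
      Submodule.subset_span ⟨some a, rfl⟩
    refine ⟨⟨xi k m (some a), hs⟩, ?_, ⟨xi k m none / xi k m (some a),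
      (quadVar k m).coord_ratio_mem _ _⟩, ?_, ?_⟩
    · refine ⟨0, X (some a), 1, by simpa using isHomogeneous_X k (some a),
        isHomogeneous_one _ _, ?_, ?_⟩
      · simp
      · have h2 : (quadVar k m).el 1 = 1 := by simp [ProjVariety.el]
        rw [h2, div_one]
        rfl
    · exact ⟨1, X none, X (some a), isHomogeneous_X _ _, isHomogeneous_X _ _,
        by simpa using ha, rfl⟩
    · apply Subtype.ext
      rw [hΦ]
      change xi k m (some a) * delta k m (xi k m none / xi k m (some a)) = 1
      have h1 := delta_ratio (k := k) (m := m) (X (some a)) 1 (X none) (X (some a)) (xi_some_ne a)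
      have h2 : (quadVar k m).el 1 = 1 := by simp [ProjVariety.el]
      rw [h2, div_one] at h1
      refine h1.trans ?_
      rw [pderiv_X_self, pderiv_X_of_ne (by simp)]
      have h3 : (quadVar k m).el (X (some a)) ≠ 0 := xi_some_ne a
      simp only [ProjVariety.el_mul, ProjVariety.el_pow, mul_one, mul_zero,
        sub_zero, one_mul]
      field_simp

end quad

end Pool.Agent.H824
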