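import Pool.Agent.H824.Defs

/-!
# Local rings, the hyperplane bundle and the tangent sheaf of a projective variety

Everything is expressed inside the function field (or the one-dimensional space of rational sections
of the hyperplane bundle) of the variety, stalk by stalk at the points with coordinates in the
algebraically closed ground field.
-/

namespace Pool.Agent.H824

open MvPolynomial

/-- The projective space `ℙ(k^κ)`, of dimension `|κ| - 1`, as a projective variety. -/
noncomputable def projectiveSpace (k : Type*) [Field k] (κ : Type*) [hκ : Nonempty κ] : ProjVariety k κ where
  ideal := ⊥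
  prime := Ideal.isPrime_bot
  homogeneous := by
    intro F hF d
    rw [Ideal.mem_bot] at hF ⊢
    rw [hF, map_zero]
  relevant := by
    obtain ⟨i⟩ := hκ
    exact ⟨i, fun h => X_ne_zero i ((Ideal.mem_bot).mp h)⟩

namespace ProjVariety

variable {k : Type*} [Field k] {ι : Type*} (V : ProjVariety k ι)

/-- The local ring of the variety `V` at the point `z`, as a subset of the function field: the
fractions of forms of the same degree whose denominator does not vanish at `z`. -/
def localRing (z : ι → k) : Set V.functionField :=
  {u | ∃ (d : ℕ) (F G : MvPolynomial ι k), F.IsHomogeneous d ∧ G.IsHomogeneous d ∧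
    eval z G ≠ 0 ∧ (u : V.ConeField) = V.el F / V.el G}

/-- The rational sections of the hyperplane bundle `O_V(1)`: the vector space spanned over the
function field by the homogeneous coordinates. It has dimension one. -/
noncomputable def rationalSections : Submodule V.functionField V.ConeField :=
  Submodule.span V.functionField (Set.range fun i => V.el (X i))

/-- The stalk of the hyperplane bundle `O_V(1)` at the point `z`: the fractions `F / G` of forms
with `deg F = deg G + 1` and `G(z) ≠ 0`. -/
def hyperplaneStalk (z : ι → k) : Set V.rationalSections :=
  {s | ∃ (d : ℕ) (F G : MvPolynomial ι k), F.IsHomogeneous (d + 1) ∧ G.IsHomogeneous d ∧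
    eval z G ≠ 0 ∧ (s : V.ConeField) = V.el F / V.el G}

/-- The stalk of the tangent sheaf `T_V` at the point `z`: the `k`-derivations of the function
field that map the local ring at `z` to itself. -/
def tangentStalk (z : ι → k) : Set (Derivation k V.functionField V.functionField) :=
  {D | ∀ u ∈ V.localRing z, D u ∈ V.localRing z}

/-- A morphism of sheaves of modules `O_V(1) → T_V`: a linear map over the function field from the
rational sections of `O_V(1)` to those of `T_V` that maps the stalk of `O_V(1)` at each point to the
stalk of `T_V` at this point. -/
def IsHyperplaneToTangent
    (Φ : V.rationalSections →ₗ[V.functionField] Derivation k V.functionField V.functionField) :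
    Prop :=
  ∀ z ∈ V.points, ∀ s ∈ V.hyperplaneStalk z, Φ s ∈ V.tangentStalk z

/-- Two projective varieties (over an algebraically closed field) are isomorphic: there is an
isomorphism of their function fields over `k` for which the local rings of the points of the first
are exactly the local rings of the points of the second. -/
def IsIsomorphic {κ : Type*} (V : ProjVariety k ι) (W : ProjVariety k κ) : Prop :=
  ∃ θ : V.functionField ≃ₐ[k] W.functionField,
    (∀ z ∈ V.points, ∃ w ∈ W.points, θ '' V.localRing z = W.localRing w) ∧
    (∀ w ∈ W.points, ∃ z ∈ V.points, θ '' V.localRing z = W.localRing w)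

end ProjVariety

/-- The quadratic form `z² + ∑ x_i y_i`, where `z` is the variable `none` and `x_i`, `y_i` are the
variables `(i, 0)`, `(i, 1)`, for `i = 0, …, m`. -/
noncomputable def quadric (k : Type*) [Field k] (m : ℕ) :
    MvPolynomial (Option (Fin (m + 1) × Fin 2)) k :=
  X none ^ 2 + ∑ i, X (some (i, 0)) * X (some (i, 1))

end Pool.Agent.H824
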