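import Pool.Agent.H824.AmpD3

namespace Pool.Agent.H824

open MvPolynomial

section general

variable {k : Type*} [Field k] {ι : Type*} (V : ProjVariety k ι)

/-- `el` as a ring homomorphism -/
noncomputable def ProjVariety.elHom : MvPolynomial ι k →+* V.ConeField :=
  (algebraMap V.CoordRing V.ConeField).comp V.toCoord.toRingHom

theorem ProjVariety.elHom_apply (F : MvPolynomial ι k) : V.elHom F = V.el F := rfl

variable {κ : Type*} [Nonempty κ]

theorem projectiveSpace_el_zero (F : MvPolynomial κ k) :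
    (projectiveSpace k κ).el F = 0 ↔ F = 0 := by
  rw [ProjVariety.el_eq_zero_iff]
  exact Ideal.mem_bot

theorem projectiveSpace_inj : Function.Injective (projectiveSpace k κ).elHom := by
  rw [injective_iff_map_eq_zero]
  intro F hF
  exact (projectiveSpace_el_zero F).mp hF

theorem projectiveSpace_points (w : κ → k) : w ∈ (projectiveSpace k κ).points ↔ w ≠ 0 := by
  constructor
  · exact fun h => h.1
  · intro h
    refine ⟨h, fun F hF => ?_⟩
    have : F = 0 := Ideal.mem_bot.mp hF
    rw [this, map_zero]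

/-- Part (α): the forms that represent an isomorphism with the projective space. -/
theorem exists_alpha {ι : Type*} [Finite ι] (V : ProjVariety k ι)
    (θ : V.functionField ≃ₐ[k] (projectiveSpace k κ).functionField)
    (h2 : ∀ w ∈ (projectiveSpace k κ).points, ∃ z ∈ V.points,
      θ '' V.localRing z = (projectiveSpace k κ).localRing w)
    (i0 : ι) (hi0 : V.el (X i0) ≠ 0) (J : Set ι) (hJ : ∀ z ∈ V.points, ∃ j ∈ J, z j ≠ 0)
    (hJ0 : ∀ j ∈ J, V.el (X j) ≠ 0) :
    ∃ (d : ℕ) (F : ι → MvPolynomial κ k), (∀ i, (F i).IsHomogeneous d) ∧ F i0 ≠ 0 ∧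
      (∀ i, ((θ ⟨V.el (X i) / V.el (X i0), V.coord_ratio_mem _ _⟩ :
        (projectiveSpace k κ).functionField) : (projectiveSpace k κ).ConeField) =
        (projectiveSpace k κ).el (F i) / (projectiveSpace k κ).el (F i0)) ∧
      (∀ w, w ≠ 0 → ∃ j ∈ J, eval w (F j) ≠ 0) := by
  classical
  set u : ι → V.functionField := fun i =>
    ⟨V.el (X i) / V.el (X i0), V.coord_ratio_mem _ _⟩ with hu
  have hu0 : u i0 = 1 := by
    apply Subtype.ext
    exact div_self hi0
  obtain ⟨d, F, hF, hF0, hFu, hcop⟩ := exists_coprime_forms (projectiveSpace k κ).elHom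
    projectiveSpace_inj (fun i => ((θ (u i) : (projectiveSpace k κ).functionField) :
      (projectiveSpace k κ).ConeField)) i0 (by
        rw [hu0, map_one]
        rfl) (by
        intro i
        obtain ⟨e, A, B, hA, hB, hB0, h⟩ := (projectiveSpace k κ).exists_forms (θ (u i))
        refine ⟨e, A, B, hA, hB, ?_, h⟩
        rintro rfl
        apply hB0
        rw [projectiveSpace_el_zero])
  refine ⟨d, F, hF, hF0, hFu, ?_⟩
  intro w hw
  obtain ⟨z, hz, hzw⟩ := h2 w ((projectiveSpace_points w).mpr hw)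
  obtain ⟨j, hjJ, hj⟩ := hJ z hz
  refine ⟨j, hjJ, ?_⟩
  have hFj : F j ≠ 0 := by
    intro h
    have h3 := hFu j
    simp only [ProjVariety.elHom_apply] at h3
    have h4 : (projectiveSpace k κ).el (F j) = 0 := by rw [h, projectiveSpace_el_zero]
    rw [h4, zero_div] at h3
    have h5 : θ (u j) = 0 := Subtype.ext h3
    rw [map_eq_zero_iff _ θ.injective] at h5
    have h6 : V.el (X j) / V.el (X i0) = 0 := congrArg Subtype.val h5
    rw [div_eq_zero_iff] at h6
    exact h6.elim (hJ0 j hjJ) hi0
  apply eval_ne_zero_of_ratios (projectiveSpace k κ).elHom projectiveSpace_inj F hcop w j hFj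
  intro i
  have h3 : (⟨V.el (X i) / V.el (X j), V.coord_ratio_mem _ _⟩ : V.functionField) ∈
      V.localRing z :=
    ⟨1, X i, X j, isHomogeneous_X _ _, isHomogeneous_X _ _, by simpa using hj, rfl⟩
  have h4 : θ ⟨V.el (X i) / V.el (X j), V.coord_ratio_mem _ _⟩ ∈
      (projectiveSpace k κ).localRing w := by
    rw [← hzw]
    exact ⟨_, h3, rfl⟩
  obtain ⟨e, A, B, hA, hB, hB0, h⟩ := h4
  refine ⟨A, B, hB0, ?_⟩
  have h5 : (⟨V.el (X i) / V.el (X j), V.coord_ratio_mem _ _⟩ : V.functionField) =
      u i / u j := by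
    apply Subtype.ext
    change V.el (X i) / V.el (X j) = (V.el (X i) / V.el (X i0)) / (V.el (X j) / V.el (X i0))
    rw [div_div_div_cancel_right₀ hi0]
  rw [h5, map_div₀] at h
  rw [ProjVariety.elHom_apply, ProjVariety.elHom_apply, ProjVariety.elHom_apply,
    ProjVariety.elHom_apply, ← h]
  have h6 : (projectiveSpace k κ).el (F i0) ≠ 0 := by
    rw [Ne, projectiveSpace_el_zero]
    exact hF0
  change _ = ((θ (u i) : (projectiveSpace k κ).functionField) : (projectiveSpace k κ).ConeField) /
    ((θ (u j) : (projectiveSpace k κ).functionField) : (projectiveSpace k κ).ConeField)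
  rw [hFu i, hFu j]
  simp only [ProjVariety.elHom_apply]
  rw [div_div_div_cancel_right₀ h6]

end general

end Pool.Agent.H824
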