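import Pool.Agent.H824.AmpE

namespace Pool.Agent.H824

open MvPolynomial

theorem eval_aeval_comp {k ι κ : Type*} [Field k] (g : ι → MvPolynomial κ k) (w : κ → k)
    (F : MvPolynomial ι k) : eval w (aeval g F) = eval (fun i => eval w (g i)) F := by
  have : (eval w).comp (aeval g : MvPolynomial ι k →ₐ[k] MvPolynomial κ k).toRingHom =
      eval (fun i => eval w (g i)) := by
    apply MvPolynomial.ringHom_ext
    · intro r
      simp
    · intro i
      simp
  exact DFunLike.congr_fun this F

/-- A map of domains with the same kernel as a surjection extends to the fraction fields. -/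
theorem exists_gamma {k P R M T Ω : Type*} [Field k] [CommRing P] [Algebra k P]
    [CommRing R] [Field M] [Algebra k R] [Algebra k M] [Algebra R M] [IsScalarTower k R M]
    [IsFractionRing R M] [CommRing T] [Field Ω] [Algebra k T] [Algebra k Ω] [Algebra T Ω]
    [IsScalarTower k T Ω] [IsFractionRing T Ω]
    (π : P →ₐ[k] R) (hπ : Function.Surjective π) (g : P →ₐ[k] T)
    (h : ∀ F, π F = 0 ↔ g F = 0) :
    ∃ γ : M →ₐ[k] Ω, ∀ F, γ (algebraMap R M (π F)) = algebraMap T Ω (g F) := by
  classical
  have hwd : ∀ A B, π A = π B → g A = g B := by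
    intro A B hAB
    have h1 : π (A - B) = 0 := by rw [map_sub, hAB, sub_self]
    have h2 := (h _).mp h1
    rwa [map_sub, sub_eq_zero] at h2
  choose r hr using hπ
  have hf : ∀ A, g (r (π A)) = g A := fun A => hwd _ _ (hr _)
  let f : R →+* Ω :=
    { toFun := fun a => algebraMap T Ω (g (r a))
      map_one' := by
        have h1 : (1 : R) = π 1 := (map_one π).symm
        rw [h1, hf, map_one, map_one]
      map_mul' := fun a b => by
        rw [← hr a, ← hr b, ← map_mul, hf, hf, hf, map_mul, map_mul]
      map_zero' := by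
        have h1 : (0 : R) = π 0 := (map_zero π).symm
        rw [h1, hf, map_zero, map_zero]
      map_add' := fun a b => by
        rw [← hr a, ← hr b, ← map_add, hf, hf, hf, map_add, map_add] }
  have hf' : ∀ A, f (π A) = algebraMap T Ω (g A) := fun A => congrArg _ (hf A)
  have hinj : Function.Injective f := by
    rw [injective_iff_map_eq_zero]
    intro a ha
    rw [← hr a, hf', map_eq_zero_iff _ (IsFractionRing.injective T Ω), ← h] at ha
    rw [← hr a, ha]
  let γ0 : M →+* Ω := IsFractionRing.lift (g := f) hinj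
  have hγ0 : ∀ a, γ0 (algebraMap R M a) = f a := fun a => IsFractionRing.lift_algebraMap hinj a
  refine ⟨{ γ0 with commutes' := ?_ }, ?_⟩
  · intro c
    change γ0 (algebraMap k M c) = _
    rw [IsScalarTower.algebraMap_apply k R M, hγ0, ← π.commutes, hf', g.commutes,
      ← IsScalarTower.algebraMap_apply]
  · intro F
    change γ0 _ = _
    rw [hγ0, hf']

section quad

variable {k : Type*} [Field k] {m : ℕ}

/-- the field of fractions of the parametrizing ring -/
theorem exists_gamma_quad (k : Type*) [Field k] (m : ℕ) :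
    ∃ γ : (quadVar k m).ConeField →ₐ[k] FractionRing (MvPolynomial (Fin (m + 1) × Fin 2) k),
      ∀ F, γ ((quadVar k m).el F) = algebraMap _ _ (aeval (gq k m) F) := by
  refine exists_gamma (quadVar k m).toCoord Ideal.Quotient.mk_surjective (aeval (gq k m)) ?_
  intro F
  rw [← quad_mem]
  exact Ideal.Quotient.eq_zero_iff_mem

theorem gq_point [CharP k 2] (s : Fin (m + 1) × Fin 2 → k) (hs : s ≠ 0) :
    (fun i => eval s (gq k m i)) ∈ (quadVar k m).points := by
  refine ⟨?_, ?_⟩
  · intro h
    apply hs
    funext a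
    have := congrFun h (some a)
    simpa [gq] using this
  · intro F hF
    rw [quad_mem] at hF
    have := congrArg (eval s) hF
    rwa [eval_aeval_comp, map_zero] at this

/-- Part (β). -/
theorem exists_beta [CharP k 2] {κ : Type*} [Finite κ] [Nonempty κ]
    (γ : (quadVar k m).ConeField →ₐ[k] FractionRing (MvPolynomial (Fin (m + 1) × Fin 2) k))
    (hγ : ∀ F, γ ((quadVar k m).el F) = algebraMap _ _ (aeval (gq k m) F))
    (θ : (quadVar k m).functionField ≃ₐ[k] (projectiveSpace k κ).functionField)
    (h1 : ∀ z ∈ (quadVar k m).points, ∃ w ∈ (projectiveSpace k κ).points,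
      θ '' (quadVar k m).localRing z = (projectiveSpace k κ).localRing w)
    (j0 : κ) :
    ∃ (e : ℕ) (H : κ → MvPolynomial (Fin (m + 1) × Fin 2) k), (∀ j, (H j).IsHomogeneous e) ∧
      H j0 ≠ 0 ∧
      (∀ j, γ ((θ.symm ⟨(projectiveSpace k κ).el (X j) / (projectiveSpace k κ).el (X j0),
        (projectiveSpace k κ).coord_ratio_mem _ _⟩ : (quadVar k m).functionField) :
          (quadVar k m).ConeField) =
        algebraMap _ (FractionRing (MvPolynomial (Fin (m + 1) × Fin 2) k)) (H j) /
          algebraMap _ _ (H j0)) ∧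
      (∀ s, s ≠ 0 → ∃ j, eval s (H j) ≠ 0) := by
  classical
  set ψ := algebraMap (MvPolynomial (Fin (m + 1) × Fin 2) k)
    (FractionRing (MvPolynomial (Fin (m + 1) × Fin 2) k)) with hψ
  have hψinj : Function.Injective ψ := IsFractionRing.injective _ _
  have hX : ∀ j : κ, (projectiveSpace k κ).el (X j) ≠ 0 := by
    intro j
    rw [Ne, projectiveSpace_el_zero]
    exact X_ne_zero j
  set v : κ → (projectiveSpace k κ).functionField := fun j =>
    ⟨(projectiveSpace k κ).el (X j) / (projectiveSpace k κ).el (X j0),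
      (projectiveSpace k κ).coord_ratio_mem _ _⟩ with hv
  have hv0 : v j0 = 1 := by
    apply Subtype.ext
    exact div_self (hX j0)
  have hγ0 : ∀ (F : MvPolynomial (Option (Fin (m + 1) × Fin 2)) k),
      (quadVar k m).el F ≠ 0 → aeval (gq k m) F ≠ 0 := by
    intro F hF h
    exact hF ((quad_el_zero F).mpr h)
  obtain ⟨e, H, hH, hH0, hHv, hcop⟩ := exists_coprime_forms ψ hψinj
    (fun j => γ ((θ.symm (v j) : (quadVar k m).functionField) : (quadVar k m).ConeField)) j0 (by
        rw [hv0, map_one]
        exact map_one γ) (by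
        intro j
        obtain ⟨e, A, B, hA, hB, hB0, h⟩ := (quadVar k m).exists_forms (θ.symm (v j))
        refine ⟨2 * e, aeval (gq k m) A, aeval (gq k m) B, hA.aeval _ (gq_homog k m),
          hB.aeval _ (gq_homog k m), hγ0 B hB0, ?_⟩
        rw [h, map_div₀, hγ, hγ])
  refine ⟨e, H, hH, hH0, hHv, ?_⟩
  intro s hs
  obtain ⟨w, hw, hzw⟩ := h1 _ (gq_point s hs)
  obtain ⟨j, hj⟩ : ∃ j, w j ≠ 0 := by
    by_contra h
    push Not at h
    exact hw.1 (funext h)
  refine ⟨j, ?_⟩
  have hvj : v j ≠ 0 := by
    intro h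
    have h3 : (projectiveSpace k κ).el (X j) / (projectiveSpace k κ).el (X j0) = 0 :=
      congrArg Subtype.val h
    rw [div_eq_zero_iff] at h3
    exact h3.elim (hX j) (hX j0)
  have hHj : H j ≠ 0 := by
    intro h
    have h3 := hHv j
    rw [h, map_zero, zero_div, map_eq_zero] at h3
    have h4 : θ.symm (v j) = 0 := Subtype.ext h3
    rw [map_eq_zero_iff _ θ.symm.injective] at h4
    exact hvj h4
  apply eval_ne_zero_of_ratios ψ hψinj H hcop s j hHj
  intro i
  have h3 : (⟨(projectiveSpace k κ).el (X i) / (projectiveSpace k κ).el (X j),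
      (projectiveSpace k κ).coord_ratio_mem _ _⟩ : (projectiveSpace k κ).functionField) ∈
      (projectiveSpace k κ).localRing w :=
    ⟨1, X i, X j, isHomogeneous_X _ _, isHomogeneous_X _ _, by simpa using hj, rfl⟩
  rw [← hzw] at h3
  obtain ⟨q, ⟨e', A, B, hA, hB, hB0, hq⟩, hqe⟩ := h3
  have h5 : (⟨(projectiveSpace k κ).el (X i) / (projectiveSpace k κ).el (X j),
      (projectiveSpace k κ).coord_ratio_mem _ _⟩ : (projectiveSpace k κ).functionField) =
      v i / v j := by
    apply Subtype.ext
    change (projectiveSpace k κ).el (X i) / (projectiveSpace k κ).el (X j) =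
      ((projectiveSpace k κ).el (X i) / (projectiveSpace k κ).el (X j0)) /
        ((projectiveSpace k κ).el (X j) / (projectiveSpace k κ).el (X j0))
    rw [div_div_div_cancel_right₀ (hX j0)]
  have h6 : q = θ.symm (v i) / θ.symm (v j) := by
    rw [← map_div₀, ← h5, ← hqe, AlgEquiv.symm_apply_apply]
  refine ⟨aeval (gq k m) A, aeval (gq k m) B, ?_, ?_⟩
  · rw [eval_aeval_comp]
    exact hB0
  · have h7 : ψ (H j0) ≠ 0 := fun h => hH0 (hψinj (by rw [h, map_zero]))
    have h8 : γ (q : (quadVar k m).ConeField) = ψ (aeval (gq k m) A) / ψ (aeval (gq k m) B) := by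
      rw [hq, map_div₀, hγ, hγ]
    have h9 : (q : (quadVar k m).ConeField) =
        ((θ.symm (v i) : (quadVar k m).functionField) : (quadVar k m).ConeField) /
        ((θ.symm (v j) : (quadVar k m).functionField) : (quadVar k m).ConeField) := by
      rw [h6]
      rfl
    rw [← h8, h9, map_div₀, hHv i, hHv j, div_div_div_cancel_right₀ h7]

end quad

end Pool.Agent.H824
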