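import Pool.Agent.H824.AmpF

namespace Pool.Agent.H824

open MvPolynomial

theorem linear_form {k κ : Type*} [Field k] [Fintype κ] (F : MvPolynomial κ k)
    (hF : F.IsHomogeneous 1) : ∃ c : κ → k, F = ∑ j, C (c j) * X j := by
  classical
  have h1 : ∀ j, ∃ c : k, pderiv j F = C c := by
    intro j
    have h2 : (pderiv j F).IsHomogeneous 0 := hF.pderiv
    have h3 : (pderiv j F).totalDegree = 0 := by
      have := h2.totalDegree_le
      omega
    rw [totalDegree_eq_zero_iff_eq_C] at h3
    exact ⟨_, h3⟩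
  choose c hc using h1
  refine ⟨c, ?_⟩
  have h2 := hF.sum_X_mul_pderiv
  rw [one_smul] at h2
  conv_lhs => rw [← h2]
  apply Finset.sum_congr rfl
  intro j _
  rw [hc, mul_comm]

/-- A family of linear forms without common zeros, as numerous as the variables. -/
theorem linear_forms {k κ σ : Type*} [Field k] [Fintype κ] [Fintype σ]
    (hcard : Fintype.card κ = Fintype.card σ) (F : σ → MvPolynomial κ k)
    (hF : ∀ a, (F a).IsHomogeneous 1) (h0 : ∀ w, w ≠ 0 → ∃ a, eval w (F a) ≠ 0) :
    ∃ L : (κ → k) ≃ₗ[k] (σ → k), ∀ w a, L w a = eval w (F a) := by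
  classical
  choose c hc using fun a => linear_form (F a) (hF a)
  let L0 : (κ → k) →ₗ[k] (σ → k) := LinearMap.pi fun a =>
    ∑ j, c a j • (LinearMap.proj (R := k) (φ := fun _ : κ => k) j)
  have hL0 : ∀ w a, L0 w a = eval w (F a) := by
    intro w a
    conv_rhs => rw [hc a]
    simp [L0]
  have hinj : Function.Injective L0 := by
    rw [injective_iff_map_eq_zero]
    intro w hw
    by_contra hw0
    obtain ⟨a, ha⟩ := h0 w hw0
    rw [← hL0, hw] at ha
    exact ha rfl
  have hfr : Module.finrank k (κ → k) = Module.finrank k (σ → k) := by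
    rw [Module.finrank_fintype_fun_eq_card, Module.finrank_fintype_fun_eq_card, hcard]
  refine ⟨LinearEquiv.ofInjectiveOfFinrankEq L0 hinj hfr, ?_⟩
  intro w a
  exact hL0 w a

section quad

variable {k : Type*} [Field k] {m : ℕ}

/-- The degree one case. -/
theorem no_linear_quadric [CharP k 2] {κ : Type*} [Fintype κ]
    (hcard : Fintype.card κ = Fintype.card (Fin (m + 1) × Fin 2))
    (F : Option (Fin (m + 1) × Fin 2) → MvPolynomial κ k)
    (hF : ∀ i, (F i).IsHomogeneous 1)
    (h0 : ∀ w, w ≠ 0 → ∃ a, eval w (F (some a)) ≠ 0)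
    (hq : aeval F (quadric k m) = 0) : False := by
  classical
  obtain ⟨L, hL⟩ := linear_forms hcard (fun a => F (some a)) (fun a => hF _) h0
  obtain ⟨c, hc⟩ := linear_form (F none) (hF none)
  have hN : ∀ w w', eval (w + w') (F none) = eval w (F none) + eval w' (F none) := by
    intro w w'
    rw [hc]
    simp only [map_sum, map_mul, eval_C, eval_X, Pi.add_apply]
    rw [← Finset.sum_add_distrib]
    apply Finset.sum_congr rfl
    intro j _
    ring
  have hrel : ∀ w, eval w (F none) ^ 2 + ∑ i, L w (i, 0) * L w (i, 1) = 0 := by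
    intro w
    have h1 := congrArg (eval w) hq
    rw [eval_aeval_comp, map_zero, eval_quadric] at h1
    simpa only [hL] using h1
  let w1 := L.symm (Pi.single (0, 0) 1)
  let w2 := L.symm (Pi.single (0, 1) 1)
  have e1 : L w1 = Pi.single (0, 0) 1 := L.apply_symm_apply _
  have e2 : L w2 = Pi.single (0, 1) 1 := L.apply_symm_apply _
  have r1 := hrel w1
  have r2 := hrel w2
  have r3 := hrel (w1 + w2)
  rw [e1] at r1
  rw [e2] at r2
  rw [map_add, e1, e2, hN] at r3
  have s1 : ∑ i : Fin (m + 1), (Pi.single (0, 0) 1 : Fin (m + 1) × Fin 2 → k) (i, 0) *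
      (Pi.single (0, 0) 1 : Fin (m + 1) × Fin 2 → k) (i, 1) = 0 := by
    apply Finset.sum_eq_zero
    intro i _
    simp [Pi.single_apply]
  have s2 : ∑ i : Fin (m + 1), (Pi.single (0, 1) 1 : Fin (m + 1) × Fin 2 → k) (i, 0) *
      (Pi.single (0, 1) 1 : Fin (m + 1) × Fin 2 → k) (i, 1) = 0 := by
    apply Finset.sum_eq_zero
    intro i _
    simp [Pi.single_apply]
  rw [s1, add_zero] at r1
  rw [s2, add_zero] at r2
  have t1 : eval w1 (F none) = 0 := by simpa using r1
  have t2 : eval w2 (F none) = 0 := by simpa using r2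
  rw [t1, t2, add_zero, zero_pow two_ne_zero, zero_add] at r3
  have s3 : ∑ i : Fin (m + 1), ((Pi.single (0, 0) 1 + Pi.single (0, 1) 1 :
      Fin (m + 1) × Fin 2 → k)) (i, 0) * ((Pi.single (0, 0) 1 + Pi.single (0, 1) 1 :
      Fin (m + 1) × Fin 2 → k)) (i, 1) = 1 := by
    rw [Finset.sum_eq_single 0]
    · simp
    · intro i _ hi
      simp [hi]
    · simp
  rw [s3] at r3
  exact one_ne_zero r3

end quad

end Pool.Agent.H824
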