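import Pool.Agent.H824.AmpG

namespace Pool.Agent.H824

open MvPolynomial

section quad

variable {k : Type*} [Field k] {m : ℕ}

/-- The derivation that kills the function field of the quadric. -/
theorem exists_killer [CharP k 2] (i1 : Fin (m + 1))
    (γ : (quadVar k m).ConeField →ₐ[k] FractionRing (MvPolynomial (Fin (m + 1) × Fin 2) k))
    (hγ : ∀ F, γ ((quadVar k m).el F) = algebraMap _ _ (aeval (gq k m) F)) :
    ∃ D : Derivation k (FractionRing (MvPolynomial (Fin (m + 1) × Fin 2) k))
      (FractionRing (MvPolynomial (Fin (m + 1) × Fin 2) k)),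
      (∀ a, D (algebraMap _ _ (X a : MvPolynomial (Fin (m + 1) × Fin 2) k)) =
        if a.1 = i1 then algebraMap _ _ (X a : MvPolynomial (Fin (m + 1) × Fin 2) k) else 0) ∧
      ∀ u ∈ (quadVar k m).functionField, D (γ u) = 0 := by
  classical
  set Ω := FractionRing (MvPolynomial (Fin (m + 1) × Fin 2) k) with hΩ
  set ψ := algebraMap (MvPolynomial (Fin (m + 1) × Fin 2) k) Ω with hψ
  have h2 : (2 : Ω) = 0 := two_eq_zero_alg (k := k) _
  obtain ⟨D, hD⟩ := exists_derivation (k := k) Ω
    (fun a : Fin (m + 1) × Fin 2 => if a.1 = i1 then ψ (X a) else 0)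
  refine ⟨D, hD, ?_⟩
  have hg : ∀ i, D (ψ (gq k m i)) = 0 := by
    intro i
    cases i with
    | some a =>
      change D (ψ (X a ^ 2)) = 0
      rw [map_pow]
      exact der_sq h2 D _
    | none =>
      change D (ψ (∑ i, X (i, 0) * X (i, 1))) = 0
      rw [map_sum, map_sum]
      apply Finset.sum_eq_zero
      intro i _
      rw [map_mul, Derivation.leibniz, hD, hD, smul_eq_mul, smul_eq_mul]
      by_cases hi : i = i1
      · rw [if_pos hi, if_pos hi]
        linear_combination ψ (X (i, 0)) * ψ (X (i, 1)) * h2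
      · rw [if_neg hi, if_neg hi, mul_zero, mul_zero, add_zero]
  have hp : ∀ F : MvPolynomial (Option (Fin (m + 1) × Fin 2)) k,
      D (γ ((quadVar k m).el F)) = 0 := by
    intro F
    rw [hγ]
    have h3 : ψ (aeval (gq k m) F) = aeval (fun i => ψ (gq k m i)) F := by
      rw [← MvPolynomial.aeval_algebraMap_apply]
      rfl
    rw [h3, der_aeval]
    apply Finset.sum_eq_zero
    intro i _
    rw [hg, mul_zero]
  intro u hu
  obtain ⟨e, F, G, _, _, _, h⟩ := (quadVar k m).exists_forms ⟨u, hu⟩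
  change u = _ at h
  rw [h, map_div₀, der_div D _ _ _ _ (hp F) (hp G)]
  simp

/-- The degree one case for the inverse map. -/
theorem no_linear_param [IsAlgClosed k] [CharP k 2] {κ : Type*} [Fintype κ]
    (hcard : Fintype.card κ = Fintype.card (Fin (m + 1) × Fin 2))
    (γ : (quadVar k m).ConeField →ₐ[k] FractionRing (MvPolynomial (Fin (m + 1) × Fin 2) k))
    (hγ : ∀ F, γ ((quadVar k m).el F) = algebraMap _ _ (aeval (gq k m) F))
    (H : κ → MvPolynomial (Fin (m + 1) × Fin 2) k) (j0 : κ) (hH0 : H j0 ≠ 0)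
    (hH : ∀ j, (H j).IsHomogeneous 1)
    (h0 : ∀ s, s ≠ 0 → ∃ j, eval s (H j) ≠ 0)
    (hv : ∀ j, ∃ u ∈ (quadVar k m).functionField, γ u =
      algebraMap _ (FractionRing (MvPolynomial (Fin (m + 1) × Fin 2) k)) (H j) /
          algebraMap _ _ (H j0))
    (hm : 1 ≤ m) : False := by
  classical
  set Ω := FractionRing (MvPolynomial (Fin (m + 1) × Fin 2) k) with hΩ
  set ψ := algebraMap (MvPolynomial (Fin (m + 1) × Fin 2) k) Ω with hψ
  have hψinj : Function.Injective ψ := IsFractionRing.injective _ _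
  have : Infinite k := IsAlgClosed.instInfinite
  obtain ⟨L, hL⟩ := linear_forms hcard.symm H hH h0
  choose u hu huv using hv
  -- the variables are linear combinations of the forms `H j`
  have h1 : ∀ a, ∃ c : κ → k, X a = ∑ j, C (c j) * H j := by
    intro a
    refine ⟨fun j => L.symm (Pi.single j 1) a, ?_⟩
    apply MvPolynomial.funext
    intro s
    rw [eval_X, map_sum]
    have h3 : s = L.symm (L s) := (L.symm_apply_apply s).symm
    have h4 : L s = ∑ j, (L s j) • (Pi.single j 1 : κ → k) := by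
      funext i
      simp [Finset.sum_apply, Pi.single_apply]
    conv_lhs => rw [h3, h4, map_sum]
    rw [Finset.sum_apply]
    apply Finset.sum_congr rfl
    intro j _
    rw [map_smul, Pi.smul_apply, smul_eq_mul, hL, map_mul, eval_C, mul_comm]
  have h2 : ∀ a, ∃ t ∈ (quadVar k m).functionField, γ t = ψ (X a) / ψ (H j0) := by
    intro a
    obtain ⟨c, hc⟩ := h1 a
    refine ⟨∑ j, algebraMap k _ (c j) * u j, ?_, ?_⟩
    · exact sum_mem (fun j _ => mul_mem ((quadVar k m).functionField.algebraMap_mem _) (hu j))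
    · rw [map_sum, hc, map_sum, Finset.sum_div]
      apply Finset.sum_congr rfl
      intro j _
      rw [map_mul, huv, map_mul, AlgHom.commutes]
      have : ψ (C (c j)) = algebraMap k Ω (c j) := by
        rw [IsScalarTower.algebraMap_apply k (MvPolynomial (Fin (m + 1) × Fin 2) k) Ω]
        rfl
      rw [this, mul_div_assoc]
  let i1 : Fin (m + 1) := ⟨1, by omega⟩
  have hi1 : (0 : Fin (m + 1)) ≠ i1 := by
    intro h
    have := congrArg Fin.val h
    simp [i1] at this
  obtain ⟨D, hD, hDk⟩ := exists_killer i1 γ hγ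
  obtain ⟨t, ht, htv⟩ := h2 (i1, 0)
  obtain ⟨t', ht', htv'⟩ := h2 (0, 0)
  have h5 : γ (t / t') = ψ (X (i1, 0)) / ψ (X (0, 0)) := by
    rw [map_div₀, htv, htv', div_div_div_cancel_right₀]
    exact fun h => hH0 (hψinj (by rw [h, map_zero]))
  have h6 := hDk (t / t') (div_mem ht ht')
  have hx : ∀ a, ψ (X a) ≠ 0 := fun a h => X_ne_zero a (hψinj (by rw [h, map_zero]))
  rw [h5, der_div D _ _ _ _ (hD _) (hD _), if_pos rfl, if_neg hi1, mul_zero, sub_zero] at h6
  exact mul_ne_zero (pow_ne_zero _ (inv_ne_zero (hx _))) (mul_ne_zero (hx _) (hx _)) h6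

end quad

end Pool.Agent.H824
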