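import Pool.Agent.H824.AmpI

namespace Pool.Agent.H824

open MvPolynomial

section quad

variable {k : Type*} [Field k] {m : ℕ}

/-- dehomogenization -/
theorem aeval_ratio {κ M : Type*} [Field M] [Algebra k M] (K : IntermediateField k M)
    (x : κ → M) (r : κ → K) (c : M) (hr : ∀ j, x j = c * (r j : M)) (F : MvPolynomial κ k)
    {d : ℕ} (hF : F.IsHomogeneous d) : aeval x F = c ^ d * ((aeval r F : K) : M) := by
  have h1 : ((aeval r F : K) : M) = aeval (fun j => (r j : M)) F := by
    change algebraMap K M (aeval r F) = _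
    rw [← MvPolynomial.aeval_algebraMap_apply]
    rfl
  rw [h1, ← aeval_smul_of_homog F hF]
  congr 2
  funext j
  exact hr j

/-- The forms `F i` that represent the isomorphism composed with the forms `H j`. -/
theorem composition [CharP k 2] {κ : Type*} [Nonempty κ]
    (γ : (quadVar k m).ConeField →ₐ[k] FractionRing (MvPolynomial (Fin (m + 1) × Fin 2) k))
    (hγ : ∀ F, γ ((quadVar k m).el F) = algebraMap _ _ (aeval (gq k m) F))
    (θ : (quadVar k m).functionField ≃ₐ[k] (projectiveSpace k κ).functionField)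
    (a0 : Fin (m + 1) × Fin 2) (j0 : κ) (d : ℕ)
    (F : Option (Fin (m + 1) × Fin 2) → MvPolynomial κ k) (hF : ∀ i, (F i).IsHomogeneous d)
    (hF0 : F (some a0) ≠ 0)
    (hFu : ∀ i, ((θ ⟨(quadVar k m).el (X i) / (quadVar k m).el (X (some a0)),
      (quadVar k m).coord_ratio_mem _ _⟩ :
        (projectiveSpace k κ).functionField) : (projectiveSpace k κ).ConeField) =
        (projectiveSpace k κ).el (F i) / (projectiveSpace k κ).el (F (some a0)))
    (H : κ → MvPolynomial (Fin (m + 1) × Fin 2) k) (hH0 : H j0 ≠ 0)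
    (hHv : ∀ j, γ ((θ.symm ⟨(projectiveSpace k κ).el (X j) / (projectiveSpace k κ).el (X j0),
        (projectiveSpace k κ).coord_ratio_mem _ _⟩ : (quadVar k m).functionField) :
          (quadVar k m).ConeField) =
        algebraMap _ (FractionRing (MvPolynomial (Fin (m + 1) × Fin 2) k)) (H j) /
          algebraMap _ _ (H j0)) :
    aeval H (F (some a0)) ≠ 0 ∧
    ∀ i, aeval H (F i) * gq k m (some a0) = aeval H (F (some a0)) * gq k m i := by
  classical
  set Ω := FractionRing (MvPolynomial (Fin (m + 1) × Fin 2) k) with hΩ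
  set ψ := algebraMap (MvPolynomial (Fin (m + 1) × Fin 2) k) Ω with hψ
  have hψinj : Function.Injective ψ := IsFractionRing.injective _ _
  have hψ0 : ∀ P, P ≠ 0 → ψ P ≠ 0 := fun P hP h => hP (hψinj (by rw [h, map_zero]))
  have hX : ∀ j : κ, (projectiveSpace k κ).el (X j) ≠ 0 := by
    intro j
    rw [Ne, projectiveSpace_el_zero]
    exact X_ne_zero j
  set r : κ → (projectiveSpace k κ).functionField := fun j =>
    ⟨(projectiveSpace k κ).el (X j) / (projectiveSpace k κ).el (X j0),
      (projectiveSpace k κ).coord_ratio_mem _ _⟩ with hr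
  let B : (projectiveSpace k κ).functionField →ₐ[k] Ω :=
    (γ.comp (quadVar k m).functionField.val).comp θ.symm.toAlgHom
  have hBr : ∀ j, B (r j) = ψ (H j) / ψ (H j0) := hHv
  -- the value of a form at the ratios
  have h1 : ∀ i, (projectiveSpace k κ).el (F i) = (projectiveSpace k κ).el (X j0) ^ d *
      ((aeval r (F i) : (projectiveSpace k κ).functionField) :
        (projectiveSpace k κ).ConeField) := by
    intro i
    rw [ProjVariety.el_eq_aeval]
    apply aeval_ratio _ _ _ _ _ _ (hF i)
    intro j
    change (projectiveSpace k κ).el (X j) = (projectiveSpace k κ).el (X j0) *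
      ((projectiveSpace k κ).el (X j) / (projectiveSpace k κ).el (X j0))
    rw [mul_div_cancel₀ _ (hX j0)]
  have h2 : ∀ i, ψ (aeval H (F i)) = ψ (H j0) ^ d * B (aeval r (F i)) := by
    intro i
    have h3 : ψ (aeval H (F i)) = aeval (fun j => ψ (H j)) (F i) := by
      rw [← MvPolynomial.aeval_algebraMap_apply]
      rfl
    have h4 : B (aeval r (F i)) = aeval (fun j => B (r j)) (F i) :=
      MvPolynomial.comp_aeval_apply r B (F i)
    rw [h3, h4, ← aeval_smul_of_homog (F i) (hF i)]
    congr 2
    funext j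
    rw [hBr, mul_div_cancel₀ _ (hψ0 _ hH0)]
  have h3 : aeval r (F (some a0)) ≠ 0 := by
    intro h
    have h4 := h1 (some a0)
    rw [h] at h4
    have h5 : (projectiveSpace k κ).el (F (some a0)) = 0 := by
      rw [h4]
      exact mul_zero _
    rw [projectiveSpace_el_zero] at h5
    exact hF0 h5
  have h4 : aeval H (F (some a0)) ≠ 0 := by
    intro h
    have h5 := h2 (some a0)
    rw [h, map_zero] at h5
    have h6 := (mul_eq_zero.mp h5.symm).resolve_left (pow_ne_zero _ (hψ0 _ hH0))
    rw [map_eq_zero] at h6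
    exact h3 h6
  refine ⟨h4, ?_⟩
  intro i
  -- the ratios on the quadric
  have h5 : θ ⟨(quadVar k m).el (X i) / (quadVar k m).el (X (some a0)),
      (quadVar k m).coord_ratio_mem _ _⟩ = aeval r (F i) / aeval r (F (some a0)) := by
    apply Subtype.ext
    rw [hFu i, h1 i, h1 (some a0)]
    exact mul_div_mul_left _ _ (pow_ne_zero _ (hX j0))
  have h6 : (⟨(quadVar k m).el (X i) / (quadVar k m).el (X (some a0)),
      (quadVar k m).coord_ratio_mem _ _⟩ : (quadVar k m).functionField) =
      θ.symm (aeval r (F i) / aeval r (F (some a0))) := by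
    rw [← h5, AlgEquiv.symm_apply_apply]
  have h7 : γ ((quadVar k m).el (X i) / (quadVar k m).el (X (some a0))) =
      B (aeval r (F i) / aeval r (F (some a0))) := by
    change _ = γ ((θ.symm (aeval r (F i) / aeval r (F (some a0))) : (quadVar k m).functionField) :
      (quadVar k m).ConeField)
    rw [← h6]
  rw [map_div₀, hγ, hγ, aeval_X, aeval_X, map_div₀] at h7
  have h8 : ψ (aeval H (F i)) / ψ (aeval H (F (some a0))) =
      ψ (gq k m i) / ψ (gq k m (some a0)) := by
    rw [h2, h2, mul_div_mul_left _ _ (pow_ne_zero _ (hψ0 _ hH0)), h7]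
  rw [div_eq_div_iff (hψ0 _ h4) (hψ0 _ (gq_some_ne k m a0)), ← map_mul, ← map_mul] at h8
  rw [hψinj h8, mul_comm]

/-- The odd-dimensional quadrics of dimension at least three in characteristic two are not
isomorphic to a projective space. -/
theorem quad_not_iso [IsAlgClosed k] [CharP k 2] (hm : 1 ≤ m) {κ : Type*} [Fintype κ] [Nonempty κ]
    (hκ : Fintype.card κ = 2 * m + 2) :
    ¬ (quadVar k m).IsIsomorphic (projectiveSpace k κ) := by
  classical
  rintro ⟨θ, hθ1, hθ2⟩
  have hcard : Fintype.card κ = Fintype.card (Fin (m + 1) × Fin 2) := by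
    rw [hκ]
    simp
    ring
  obtain ⟨j0⟩ := ‹Nonempty κ›
  obtain ⟨γ, hγ⟩ := exists_gamma_quad k m
  obtain ⟨e, H, hH, hH0, hHv, hHs⟩ := exists_beta γ hγ θ hθ1 j0
  obtain ⟨d, F, hF, hF0, hFu, hFw⟩ := exists_alpha (quadVar k m) θ hθ2 (some (0, 0))
    (xi_some_ne _) (Set.range some) (by
      intro z hz
      obtain ⟨a, ha⟩ := quad_point z hz
      exact ⟨some a, ⟨a, rfl⟩, ha⟩) (by
      rintro j ⟨a, rfl⟩
      exact xi_some_ne a)
  obtain ⟨hne, hcomp⟩ := composition γ hγ θ (0, 0) j0 d F hF hF0 hFu H hH0 hHv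
  -- the common factor
  have hdvd : (X (0, 0) ^ 2 : MvPolynomial (Fin (m + 1) × Fin 2) k) ∣
      aeval H (F (some (0, 0))) := by
    have h1 := hcomp (some (0, 1))
    have h2 : (X (0, 0) ^ 2 : MvPolynomial (Fin (m + 1) × Fin 2) k) ∣
        X (0, 1) ^ 2 * aeval H (F (some (0, 0))) := by
      refine ⟨aeval H (F (some (0, 1))), ?_⟩
      have h3 : aeval H (F (some (0, 1))) * X (0, 0) ^ 2 =
          aeval H (F (some (0, 0))) * X (0, 1) ^ 2 := h1
      rw [mul_comm (X (0, 0) ^ 2), h3, mul_comm]
    apply (X_prime (R := k) (i := ((0 : Fin (m + 1)), (0 : Fin 2)))).pow_dvd_of_dvd_mul_left 2 _ h2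
    intro h4
    have h5 := (X_prime (R := k) (i := ((0 : Fin (m + 1)), (0 : Fin 2)))).dvd_of_dvd_pow h4
    rw [X_dvd_X] at h5
    simp at h5
  obtain ⟨c, hc⟩ := hdvd
  have hcg : ∀ i, aeval H (F i) = c * gq k m i := by
    intro i
    have h1 := hcomp i
    have h2 : gq k m (some (0, 0)) = X (0, 0) ^ 2 := rfl
    rw [h2, hc] at h1
    have h3 : (X (0, 0) ^ 2 : MvPolynomial (Fin (m + 1) × Fin 2) k) ≠ 0 :=
      pow_ne_zero _ (X_ne_zero _)
    apply mul_right_cancel₀ h3
    rw [h1]
    ring
  have hcu : IsUnit c := by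
    apply isUnit_of_no_zero c _ ((0 : Fin (m + 1)), (0 : Fin 2)) ((0 : Fin (m + 1)), (1 : Fin 2))
      (by simp)
    intro s hs
    by_contra hs0
    obtain ⟨j, hj⟩ := hHs s hs0
    obtain ⟨_, ⟨a, rfl⟩, ha⟩ := hFw (fun j => eval s (H j)) (by
      intro h
      exact hj (congrFun h j))
    apply ha
    rw [← eval_aeval_comp, hcg, map_mul, hs, zero_mul]
  have hc0 : c ≠ 0 := hcu.ne_zero
  -- the degrees
  have hdeg : e * d = 2 := by
    have h1 : (aeval H (F (some (0, 0)))).IsHomogeneous (e * d) := (hF _).aeval H hH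
    rw [hcg] at h1 hne
    obtain ⟨c', hc'⟩ := isUnit_iff_eq_C_of_isReduced.mp hcu
    have h2 : (c * gq k m (some (0, 0))).IsHomogeneous 2 := by
      rw [hc'.2]
      exact (gq_homog k m _).C_mul c'
    exact h1.inj_right h2 hne
  have hde : d = 1 ∨ e = 1 := by
    have h1 : d ∣ 2 := ⟨e, by rw [← hdeg, mul_comm]⟩
    rcases (Nat.dvd_prime Nat.prime_two).mp h1 with h | h
    · exact Or.inl h
    · right
      rw [h] at hdeg
      omega
  rcases hde with rfl | rfl
  · -- the forms `F` are linear
    apply no_linear_quadric hcard F hF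
    · intro w hw
      obtain ⟨_, ⟨a, rfl⟩, ha⟩ := hFw w hw
      exact ⟨a, ha⟩
    · -- the relation
      let u : Option (Fin (m + 1) × Fin 2) → (quadVar k m).functionField := fun i =>
        ⟨(quadVar k m).el (X i) / (quadVar k m).el (X (some (0, 0))),
          (quadVar k m).coord_ratio_mem _ _⟩
      have hqh : (quadric k m).IsHomogeneous 2 := by
        unfold quadric
        apply IsHomogeneous.add
        · simpa using (isHomogeneous_X k none).pow 2
        · exact IsHomogeneous.sum _ _ _ (fun i _ => (isHomogeneous_X k _).mul (isHomogeneous_X k _))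
      have h0 : (quadVar k m).el (X (some (0, 0))) ≠ 0 := xi_some_ne _
      have h1 : aeval u (quadric k m) = 0 := by
        have h2 := aeval_ratio (quadVar k m).functionField (fun i => (quadVar k m).el (X i)) u
          ((quadVar k m).el (X (some (0, 0)))) (fun j => by
            change _ = (quadVar k m).el (X (some (0, 0))) *
              ((quadVar k m).el (X j) / (quadVar k m).el (X (some (0, 0))))
            rw [mul_div_cancel₀ _ h0]) (quadric k m) hqh
        rw [← ProjVariety.el_eq_aeval, (quad_el_zero _).mpr quadric_aeval] at h2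
        exact Subtype.ext ((mul_eq_zero.mp h2.symm).resolve_left (pow_ne_zero _ h0))
      have h3 : aeval (fun i => θ (u i)) (quadric k m) = 0 := by
        have h4 := MvPolynomial.comp_aeval_apply u θ.toAlgHom (quadric k m)
        rw [h1, map_zero] at h4
        exact h4.symm
      have h5 := aeval_ratio (projectiveSpace k κ).functionField
        (fun i => (projectiveSpace k κ).el (F i)) (fun i => θ (u i))
        ((projectiveSpace k κ).el (F (some (0, 0)))) (fun j => by
          rw [hFu j, mul_div_cancel₀]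
          rw [Ne, projectiveSpace_el_zero]
          exact hF0) (quadric k m) hqh
      rw [h3] at h5
      have h6 : aeval (fun i => (projectiveSpace k κ).el (F i)) (quadric k m) = 0 := by
        rw [h5]
        exact mul_zero _
      have h7 : (projectiveSpace k κ).el (aeval F (quadric k m)) =
          aeval (fun i => (projectiveSpace k κ).el (F i)) (quadric k m) := by
        have h8 : ∀ P : MvPolynomial (Option (Fin (m + 1) × Fin 2)) k,
            (projectiveSpace k κ).el (aeval F P) =
            aeval (fun i => (projectiveSpace k κ).el (F i)) P := by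
          intro P
          rw [ProjVariety.el_eq_aeval, ← AlgHom.comp_apply, comp_aeval]
          congr 2
          funext i
          rw [ProjVariety.el_eq_aeval]
        exact h8 _
      rw [← h7, projectiveSpace_el_zero] at h6
      exact h6
  · exact no_linear_param hcard γ hγ H j0 hH0 hH hHs (fun j => ⟨_, Subtype.property _, hHv j⟩) hm

end quad

end Pool.Agent.H824
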