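import Pool.Agent.H824.Defs

/-!
# Local rings, the hyperplane bundle and the tangent sheaf of a projective variety

Everything is expressed inside the function field (or the one-dimensional space of rational sections
of the hyperplane bundle) of the variety, stalk by stalk at the points with coordinates in the
algebraically closed ground field.
-/

namespace Pool.Agent.H824

open MvPolynomial

/-- The projective space `ℙ(k^κ)`, of dimension `|κ| - 1`, as a projective variety. -/
noncomputable def projSpace (k : Type*) [Field k] (κ : Type*) [hκ : Nonempty κ] :
    ProjVariety k κ where
  ideal := ⊥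
  prime := Ideal.isPrime_bot
  homogeneous := by
    intro F hF d
    rw [Ideal.mem_bot] at hF ⊢
    rw [hF, map_zero]
  relevant := by
    obtain ⟨i⟩ := hκ
    exact ⟨i, fun h => X_ne_zero i ((Ideal.mem_bot).mp h)⟩

namespace ProjVariety

variable {k : Type*} [Field k] {ι : Type*} (V : ProjVariety k ι)

/-- The function field `k(V)`, as a type. -/
def FunField : Type _ := V.functionField

noncomputable instance instFF : Field V.FunField :=
  (inferInstance : Field V.functionField)

noncomputable instance instFA : Algebra k V.FunField :=
  (inferInstance : Algebra k V.functionField)

noncomputable instance instCM : Module V.FunField V.ConeField :=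
  (inferInstance : Module V.functionField V.ConeField)

/-- A rational function, as an element of the fraction field of the homogeneous coordinate ring. -/
def inCone (u : V.FunField) : V.ConeField := Subtype.val u

/-- The space of the rational sections of the hyperplane bundle `O_V(1)`: the vector space spanned
over the function field by the homogeneous coordinates. -/
noncomputable def ratSec : Submodule V.FunField V.ConeField :=
  Submodule.span V.FunField (Set.range fun i => V.el (X i))

/-- The rational sections of the hyperplane bundle `O_V(1)`, as a type. -/
def RatSec : Type _ := V.ratSec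

noncomputable instance instRG : AddCommMonoid V.RatSec :=
  (inferInstance : AddCommMonoid V.ratSec)

noncomputable instance instRM : Module V.FunField V.RatSec :=
  (inferInstance : Module V.FunField V.ratSec)

/-- A rational section of `O_V(1)`, as an element of the fraction field of the homogeneous
coordinate ring. -/
def secInCone (s : V.RatSec) : V.ConeField := Subtype.val s

/-- The rational vector fields on `V`: the derivations of the function field over `k`. -/
def RatVec : Type _ := Derivation k V.FunField V.FunField

noncomputable instance instVG : AddCommMonoid V.RatVec :=
  (inferInstance : AddCommMonoid (Derivation k V.FunField V.FunField))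

noncomputable instance instVM : Module V.FunField V.RatVec :=
  (inferInstance : Module V.FunField (Derivation k V.FunField V.FunField))

/-- The derivative of a rational function along a rational vector field. -/
noncomputable def derive (D : V.RatVec) (u : V.FunField) : V.FunField :=
  (show Derivation k V.FunField V.FunField from D) u

/-- A pair of forms of degrees `d + e` and `d`, of which the second one does not vanish at `z`. -/
def IsFraction (z : ι → k) (e : ℕ) (F G : MvPolynomial ι k) : Prop :=
  ∃ d : ℕ, F.IsHomogeneous (d + e) ∧ G.IsHomogeneous d ∧ eval z G ≠ 0

/-- The local ring of the variety `V` at the point `z`, as a subset of the function field: the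
fractions of forms of the same degree whose denominator does not vanish at `z`. -/
def localAt (z : ι → k) : Set V.FunField :=
  {u | ∃ F G, IsFraction z 0 F G ∧ V.inCone u = V.el F / V.el G}

/-- The stalk of the hyperplane bundle `O_V(1)` at the point `z`: the fractions `F / G` of forms
with `deg F = deg G + 1` and `G(z) ≠ 0`. -/
def hyperplaneAt (z : ι → k) : Set V.RatSec :=
  {s | ∃ F G, IsFraction z 1 F G ∧ V.secInCone s = V.el F / V.el G}

/-- The stalk of the tangent sheaf `T_V` at the point `z`: the `k`-derivations of the function
field that map the local ring at `z` to itself. -/
def tangentAt (z : ι → k) : Set V.RatVec :=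
  {D | ∀ u ∈ V.localAt z, V.derive D u ∈ V.localAt z}

/-- A morphism of sheaves of modules `O_V(1) → T_V`: a linear map over the function field from the
rational sections of `O_V(1)` to those of `T_V` that maps the stalk of `O_V(1)` at each point to the
stalk of `T_V` at this point. -/
def IsMorphism (Φ : V.RatSec →ₗ[V.FunField] V.RatVec) : Prop :=
  ∀ z ∈ V.points, ∀ s ∈ V.hyperplaneAt z, Φ s ∈ V.tangentAt z

/-- The morphism `O_V(1) → T_V` is nonzero on the fibres at the point `z`: it maps some germ of
section to a germ of vector field along which some germ of function has the derivative `1`. -/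
def NonzeroAt (Φ : V.RatSec →ₗ[V.FunField] V.RatVec) (z : ι → k) : Prop :=
  ∃ s ∈ V.hyperplaneAt z, ∃ u ∈ V.localAt z, V.derive (Φ s) u = 1

/-- Two projective varieties (over an algebraically closed field) are isomorphic: there is an
isomorphism of their function fields over `k` for which the local rings of the points of the first
are exactly the local rings of the points of the second. -/
def IsIsoTo {κ : Type*} (V : ProjVariety k ι) (W : ProjVariety k κ) : Prop :=
  ∃ θ : V.FunField ≃ₐ[k] W.FunField,
    (∀ z ∈ V.points, ∃ w ∈ W.points, θ '' V.localAt z = W.localAt w) ∧
    (∀ w ∈ W.points, ∃ z ∈ V.points, θ '' V.localAt z = W.localAt w)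

end ProjVariety

/-- The index set `{z, x_0, y_0, …, x_m, y_m}` of the `2m + 3` homogeneous coordinates of the
projective space containing the quadric: `z` is `none`, and `x_i`, `y_i` are the pairs `(i, 0)`
and `(i, 1)`. -/
def QVar (m : ℕ) : Type := Option (Fin (m + 1) × Fin 2)

instance (m : ℕ) : Fintype (QVar m) := (inferInstance : Fintype (Option (Fin (m + 1) × Fin 2)))

/-- The coordinate `z`. -/
noncomputable def zV (k : Type*) [Field k] (m : ℕ) : MvPolynomial (QVar m) k :=
  X (none : Option (Fin (m + 1) × Fin 2))

/-- The coordinate `x_i`. -/
noncomputable def xV (k : Type*) [Field k] (m : ℕ) (i : Fin (m + 1)) : MvPolynomial (QVar m) k :=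
  X (some (i, 0) : Option (Fin (m + 1) × Fin 2))

/-- The coordinate `y_i`. -/
noncomputable def yV (k : Type*) [Field k] (m : ℕ) (i : Fin (m + 1)) : MvPolynomial (QVar m) k :=
  X (some (i, 1) : Option (Fin (m + 1) × Fin 2))

/-- The quadratic form `z² + ∑ x_i y_i`. -/
noncomputable def quadForm (k : Type*) [Field k] (m : ℕ) : MvPolynomial (QVar m) k :=
  zV k m ^ 2 + ∑ i, xV k m i * yV k m i

end Pool.Agent.H824
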