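import Pool.Agent.H824.AmpJ
import Pool.Agent.H824.AmpStmt

namespace Pool.Agent.H824

open MvPolynomial

section bridge

variable {k : Type*} [Field k] {ι : Type*} (V : ProjVariety k ι)

theorem ProjVariety.localAt_eq (z : ι → k) :
    (show Set V.functionField from V.localAt z) = V.localRing z := by
  ext u
  constructor
  · rintro ⟨F, G, ⟨d, hF, hG, hG0⟩, h⟩
    exact ⟨d, F, G, hF, hG, hG0, h⟩
  · rintro ⟨d, F, G, hF, hG, hG0, h⟩
    exact ⟨F, G, ⟨d, hF, hG, hG0⟩, h⟩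

theorem ProjVariety.hyperplaneAt_eq (z : ι → k) :
    (show Set V.rationalSections from V.hyperplaneAt z) = V.hyperplaneStalk z := by
  ext u
  constructor
  · rintro ⟨F, G, ⟨d, hF, hG, hG0⟩, h⟩
    exact ⟨d, F, G, hF, hG, hG0, h⟩
  · rintro ⟨d, F, G, hF, hG, hG0, h⟩
    exact ⟨F, G, ⟨d, hF, hG, hG0⟩, h⟩

theorem ProjVariety.isIso_of {κ : Type*} (W : ProjVariety k κ) (h : V.IsIsoTo W) :
    V.IsIsomorphic W := by
  obtain ⟨θ, h1, h2⟩ := h
  refine ⟨θ, ?_, ?_⟩
  · intro z hz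
    obtain ⟨w, hw, hzw⟩ := h1 z hz
    refine ⟨w, hw, ?_⟩
    rw [← V.localAt_eq z, ← W.localAt_eq w]
    exact hzw
  · intro w hw
    obtain ⟨z, hz, hzw⟩ := h2 w hw
    refine ⟨z, hz, ?_⟩
    rw [← V.localAt_eq z, ← W.localAt_eq w]
    exact hzw

theorem ProjVariety.isMorphism_of
    (Φ : V.rationalSections →ₗ[V.functionField] Derivation k V.functionField V.functionField)
    (h : V.IsHyperplaneToTangent Φ) :
    V.IsMorphism (show V.RatSec →ₗ[V.FunField] V.RatVec from Φ) := by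
  intro z hz s hs u hu
  have hs' : s ∈ V.hyperplaneStalk z := by
    rw [← V.hyperplaneAt_eq z]
    exact hs
  have hu' : u ∈ V.localRing z := by
    rw [← V.localAt_eq z]
    exact hu
  have h1 := h z hz s hs' u hu'
  rw [← V.localAt_eq z] at h1
  exact h1

end bridge

theorem ample_main (k : Type*) [Field k] [IsAlgClosed k] [CharP k 2] (m : ℕ) (hm : 1 ≤ m) :
    ∃ V : ProjVariety k (QVar m),
      V.ideal = Ideal.span {quadForm k m} ∧ V.dim = 2 * m + 1 ∧ V.IsSmooth ∧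
      ¬ V.IsIsoTo (projSpace k (Fin (2 * m + 2))) ∧
      ∃ Φ : V.RatSec →ₗ[V.FunField] V.RatVec,
        V.IsMorphism Φ ∧ Φ ≠ 0 ∧ ∀ z ∈ V.points, V.NonzeroAt Φ z := by
  classical
  obtain ⟨Φ, hΦ, hnv⟩ := exists_morphism k m
  have hNZ : ∀ z ∈ (quadVar k m).points, (quadVar k m).NonzeroAt Φ z := by
    intro z hz
    obtain ⟨s, hs, u, hu, h⟩ := hnv z hz
    refine ⟨s, ?_, u, ?_, h⟩
    · rw [← (quadVar k m).hyperplaneAt_eq z] at hs
      exact hs
    · rw [← (quadVar k m).localAt_eq z] at hu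
      exact hu
  refine ⟨quadVar k m, quad_ideal, quad_dim, quad_smooth, ?_, Φ, ?_, ?_, hNZ⟩
  · intro h
    exact quad_not_iso hm (κ := Fin (2 * m + 2)) (by simp)
      (ProjVariety.isIso_of (quadVar k m) _ h)
  · exact (quadVar k m).isMorphism_of Φ hΦ
  · intro h0
    obtain ⟨s, _, u, _, h⟩ := hnv _ (gq_point (Pi.single (0, 0) 1) (by
      intro h
      have := congrFun h (0, 0)
      simp at this))
    have h2 : Φ = 0 := h0
    rw [h2] at h
    exact zero_ne_one h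

end Pool.Agent.H824
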