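import Pool.Agent.H824.Surface
import Pool.Agent.H824.Trdeg

namespace Pool.Agent.H824

open MvPolynomial

variable {k ι : Type*} [Field k]

section

variable (g : ι → MvPolynomial (Fin 2) k) (m : ℕ) (hm : 0 < m) (hg : ∀ i, (g i).IsHomogeneous m)
    (h0 : ∃ i, g i ≠ 0)

theorem exists_embedding :
    ∃ Θ : (paramVariety g m hm hg h0).ConeField →ₐ[k] FractionRing (MvPolynomial (Fin 2) k),
      ∀ F, Θ ((paramVariety g m hm hg h0).el F) = algebraMap _ _ (aeval g F) := by
  let V := paramVariety g m hm hg h0
  let θ : V.CoordRing →ₐ[k] MvPolynomial (Fin 2) k :=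
    Ideal.Quotient.liftₐ V.ideal (aeval g) (fun a ha => ha)
  have hθ : ∀ F, θ (V.toCoord F) = aeval g F := fun F => rfl
  have hsurj : Function.Surjective V.toCoord := Ideal.Quotient.mk_surjective
  have hzero : ∀ F, V.toCoord F = 0 ↔ F ∈ V.ideal := fun F => Ideal.Quotient.eq_zero_iff_mem
  have hθi : Function.Injective θ := by
    rw [injective_iff_map_eq_zero]
    intro a ha
    obtain ⟨F, rfl⟩ := hsurj a
    rw [hθ] at ha
    rw [hzero]
    exact ha
  let N := FractionRing (MvPolynomial (Fin 2) k)
  let η : V.CoordRing →ₐ[k] N := (IsScalarTower.toAlgHom k (MvPolynomial (Fin 2) k) N).comp θ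
  have hη : Function.Injective η := by
    intro a b hab
    exact hθi (IsFractionRing.injective (MvPolynomial (Fin 2) k) N hab)
  refine ⟨IsFractionRing.liftAlgHom (K := V.ConeField) hη, ?_⟩
  intro F
  change IsFractionRing.liftAlgHom hη (algebraMap V.CoordRing V.ConeField _) = _
  rw [IsFractionRing.liftAlgHom_apply, IsFractionRing.lift_algebraMap]
  rfl

theorem mem_range_of_isAlgebraic {k Ω : Type*} [Field k] [IsAlgClosed k] [Field Ω] [Algebra k Ω]
    (u : Ω) (hu : IsAlgebraic k u) : ∃ c : k, algebraMap k Ω c = u := by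
  have hi : IsIntegral k u := hu.isIntegral
  have h1 := IsAlgClosed.degree_eq_one_of_irreducible k (minpoly.irreducible hi)
  rw [minpoly.degree_eq_one_iff] at h1
  exact h1

include hg in
theorem param_curve_gen_aux [IsAlgClosed k] (N : Type*) [Field N] [Algebra k N]
    [Algebra (MvPolynomial (Fin 2) k) N] [IsScalarTower k (MvPolynomial (Fin 2) k) N]
    [IsFractionRing (MvPolynomial (Fin 2) k) N]
    (V : ProjVariety k ι) (Θ : V.ConeField →ₐ[k] N)
    (hΘ : ∀ F, Θ (V.el F) = algebraMap (MvPolynomial (Fin 2) k) N (aeval g F)) :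
    ∃ f ∈ V.functionField, V.functionField = IntermediateField.adjoin k {f} := by
  classical
  obtain ⟨t0, ht0'⟩ : ∃ t0 : N, t0 = algebraMap (MvPolynomial (Fin 2) k) N (X 0) := ⟨_, rfl⟩
  obtain ⟨t1, ht1'⟩ : ∃ t1 : N, t1 = algebraMap (MvPolynomial (Fin 2) k) N (X 1) := ⟨_, rfl⟩
  have ht0 : t0 ≠ 0 := by
    intro h
    rw [h] at ht0'
    have := IsFractionRing.injective (MvPolynomial (Fin 2) k) N
      (ht0'.symm.trans (map_zero _).symm)
    exact X_ne_zero _ this
  obtain ⟨u, hu'⟩ : ∃ u : N, u = t1 / t0 := ⟨_, rfl⟩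
  have hu : Transcendental k u := by
    intro hal
    obtain ⟨c, hc⟩ := mem_range_of_isAlgebraic u hal
    have h1 : algebraMap (MvPolynomial (Fin 2) k) N (C c * X 0 - X 1) = 0 := by
      rw [map_sub, map_mul]
      have h2 : algebraMap (MvPolynomial (Fin 2) k) N (C c) = u := by
        rw [← hc, IsScalarTower.algebraMap_apply k (MvPolynomial (Fin 2) k) N]
        rfl
      rw [h2, ← ht0', ← ht1', hu', div_mul_cancel₀ _ ht0, sub_self]
    have h3 := IsFractionRing.injective (MvPolynomial (Fin 2) k) N (h1.trans (map_zero _).symm)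
    have h4 := congrArg (eval ![(0 : k), 1]) h3
    simp at h4
  have hmem : ∀ P : MvPolynomial (Fin 2) k, P.IsHomogeneous m →
      ∃ w ∈ IntermediateField.adjoin k {u}, algebraMap _ N P = t0 ^ m * w := by
    intro P hP
    refine ⟨aeval ![1, u] P, ?_, ?_⟩
    · let r : Fin 2 → IntermediateField.adjoin k {u} :=
        ![1, ⟨u, IntermediateField.mem_adjoin_simple_self k u⟩]
      have : aeval ![1, u] P = algebraMap (IntermediateField.adjoin k {u}) N (aeval r P) := by
        rw [← MvPolynomial.aeval_algebraMap_apply]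
        congr 2
        funext i
        fin_cases i <;> rfl
      rw [this]
      exact (aeval r P).2
    · rw [← aeval_smul_of_homog P hP]
      have h1 : algebraMap (MvPolynomial (Fin 2) k) N P =
          aeval (fun i => algebraMap (MvPolynomial (Fin 2) k) N (X i)) P := by
        have := MvPolynomial.aeval_unique (IsScalarTower.toAlgHom k (MvPolynomial (Fin 2) k) N)
        have h2 := DFunLike.congr_fun this P
        exact h2
      rw [h1]
      congr 2
      funext i
      fin_cases i
      · simp [ht0']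
      · simp only [Fin.mk_one, Fin.isValue, Matrix.cons_val_one, Matrix.cons_val_fin_one]
        rw [← ht1', hu']
        field_simp
  have hle : V.functionField.map Θ ≤ IntermediateField.adjoin k {u} := by
    unfold ProjVariety.functionField ratioField
    rw [IntermediateField.adjoin_map, IntermediateField.adjoin_le_iff]
    rintro _ ⟨_, ⟨i, j, rfl⟩, rfl⟩
    rw [map_div₀, hΘ, hΘ, aeval_X, aeval_X]
    obtain ⟨w, hw, hw'⟩ := hmem (g i) (hg i)
    obtain ⟨v, hv, hv'⟩ := hmem (g j) (hg j)
    change algebraMap _ N (g i) / algebraMap _ N (g j) ∈ _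
    rw [hw', hv', mul_div_mul_left _ _ (pow_ne_zero _ ht0)]
    exact div_mem hw hv
  let e : RatFunc k ≃ₐ[k] IntermediateField.adjoin k {u} := RatFunc.algEquivOfTranscendental u hu
  let ε : RatFunc k →ₐ[k] N := (IntermediateField.val _).comp e.toAlgHom
  let E2 : IntermediateField k (RatFunc k) := (V.functionField.map Θ).comap ε
  have hE2 := RatFunc.Luroth.eq_adjoin_generator (E := E2)
  have hmap : E2.map ε = V.functionField.map Θ := by
    apply le_antisymm
    · rintro _ ⟨w, hw, rfl⟩
      exact hw
    · intro w hw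
      have h1 : w ∈ IntermediateField.adjoin k {u} := hle hw
      refine ⟨e.symm ⟨w, h1⟩, ?_, ?_⟩
      · change ε (e.symm ⟨w, h1⟩) ∈ V.functionField.map Θ
        have : ε (e.symm ⟨w, h1⟩) = w := by
          change ((e (e.symm ⟨w, h1⟩) : IntermediateField.adjoin k {u}) : N) = w
          rw [e.apply_symm_apply]
        rw [this]
        exact hw
      · change ((e (e.symm ⟨w, h1⟩) : IntermediateField.adjoin k {u}) : N) = w
        rw [e.apply_symm_apply]
  set γ := RatFunc.Luroth.generator E2 with hγ
  rw [hE2, IntermediateField.adjoin_map, Set.image_singleton] at hmap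
  have h1 : ε γ ∈ V.functionField.map Θ := by
    rw [← hmap]
    exact IntermediateField.mem_adjoin_simple_self k _
  obtain ⟨f, hf, hf'⟩ := h1
  refine ⟨f, hf, ?_⟩
  have h2 : (IntermediateField.adjoin k {f}).map Θ = V.functionField.map Θ := by
    rw [IntermediateField.adjoin_map, Set.image_singleton, ← hmap]
    congr 2
  exact (IntermediateField.map_injective Θ h2).symm

theorem param_curve_gen [IsAlgClosed k] :
    ∃ f ∈ (paramVariety g m hm hg h0).functionField,
      (paramVariety g m hm hg h0).functionField = IntermediateField.adjoin k {f} := by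
  obtain ⟨Θ, hΘ⟩ := exists_embedding g m hm hg h0
  exact param_curve_gen_aux g m hg _ _ Θ hΘ

end

end Pool.Agent.H824
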