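import Pool.Agent.H824.Curve

namespace Pool.Agent.H824

open MvPolynomial

variable {k ι : Type*} [Field k]

theorem curve_dim_gon (V : ProjVariety k ι) (f : V.ConeField) (hf : f ∈ V.functionField)
    (hV : V.functionField = IntermediateField.adjoin k {f}) (ht : Transcendental k f) :
    V.dim = 1 ∧ V.gonality = 1 := by
  constructor
  · unfold ProjVariety.dim fieldDim
    have key := trdeg_of_pow (k := k) V.functionField (fun _ : Fin 1 => f) (fun _ => hf)
      (by
        rw [algebraicIndependent_unique_type_iff]
        exact ht) 1 one_pos (by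
          intro u hu
          rw [pow_one]
          rw [hV] at hu
          rwa [Set.range_const])
    rw [key]
    simp
  · let f' : V.functionField := ⟨f, hf⟩
    have ht' : Transcendental k f' := by
      intro hal
      apply ht
      have := hal.algebraMap (A := V.ConeField)
      exact this
    have htop : IntermediateField.adjoin k {f'} = ⊤ := by
      apply IntermediateField.map_injective V.functionField.val
      rw [IntermediateField.adjoin_map, Set.image_singleton]
      change IntermediateField.adjoin k {f} = _
      rw [← hV]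
      ext u
      constructor
      · intro hu
        exact ⟨⟨u, hu⟩, trivial, rfl⟩
      · rintro ⟨w, -, rfl⟩
        exact w.2
    have h1 : (1 : ℕ) ∈ {d : ℕ | 0 < d ∧ ∃ f : V.functionField, Transcendental k f ∧
        Module.finrank (IntermediateField.adjoin k {f}) V.functionField = d} := by
      refine ⟨one_pos, f', ht', ?_⟩
      rw [htop]
      exact IntermediateField.finrank_top
    unfold ProjVariety.gonality fieldGonality
    exact le_antisymm (Nat.sInf_le h1) (Nat.sInf_mem ⟨1, h1⟩).1

theorem param_curve [IsAlgClosed k] (g : ι → MvPolynomial (Fin 2) k) (m : ℕ) (hm : 0 < m)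
    (hg : ∀ i, (g i).IsHomogeneous m) (h0 : ∃ i, g i ≠ 0)
    (hnc : ∃ w ∈ (paramVariety g m hm hg h0).functionField,
      ∀ c : k, algebraMap k _ c ≠ w) :
    (paramVariety g m hm hg h0).dim = 1 ∧ (paramVariety g m hm hg h0).gonality = 1 := by
  obtain ⟨f, hf, hV⟩ := param_curve_gen g m hm hg h0
  apply curve_dim_gon _ f hf hV
  intro hal
  obtain ⟨c, hc⟩ := mem_range_of_isAlgebraic f hal
  obtain ⟨w, hw, hw'⟩ := hnc
  rw [hV] at hw
  have h1 : IntermediateField.adjoin k {f} ≤ ⊥ := by
    rw [IntermediateField.adjoin_le_iff]
    rintro _ rfl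
    rw [← hc]
    exact (⊥ : IntermediateField k _).algebraMap_mem c
  obtain ⟨d, hd⟩ := IntermediateField.mem_bot.mp (h1 hw)
  exact hw' d hd

end Pool.Agent.H824
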