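import Mathlib

namespace Pool.Agent.H824

open Finset

/-- exponents of the monomials of degree zero in `ξ` and `ζ` -/
@[ext] structure Expo (σ : Type*) [Fintype σ] where
  /-- the exponents of the `ξ` -/
  v : σ → ℤ
  /-- the exponent of `ζ` -/
  e : Fin 2
  h : (∑ a, v a) + ((e : ℕ) : ℤ) = 0

section core

variable {k R σ : Type*} [Field k] [CommRing R] [Algebra k R] [Fintype σ]

/-- the negative exponents lie in `S` -/
def NegIn (S : Set σ) (i : Expo σ) : Prop := ∀ a, i.v a < 0 → a ∈ S

/-- the difference of the integral parts -/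
def fd (q : ℤ) (i j : Expo σ) : σ → ℤ := fun a => j.v a / q - i.v a / q

/-- shift of the exponents -/
def Expo.shift (w : σ → ℤ) (hw : ∑ a, w a = 0) (i : Expo σ) : Expo σ :=
  ⟨i.v + w, i.e, by
    have h := i.h
    simp only [Pi.add_apply, Finset.sum_add_distrib, hw, add_zero]
    exact h⟩

theorem fd_shift {q : ℤ} (hq : q ≠ 0) (w : σ → ℤ) (hw : ∑ a, (q * w a) = 0) (i j : Expo σ) :
    fd q (i.shift (fun a => q * w a) hw) (j.shift (fun a => q * w a) hw) = fd q i j := by
  funext a
  simp only [fd, Expo.shift, Pi.add_apply]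
  rw [Int.add_mul_ediv_left _ _ hq, Int.add_mul_ediv_left _ _ hq]
  ring

theorem fd_exists (hcard : 2 ≤ Fintype.card σ) {q : ℤ} (hq : 0 < q) (i j : Expo σ) :
    ∃ a, 0 ≤ fd q i j a := by
  by_contra h
  push Not at h
  have h1 : ∀ a, j.v a + 1 ≤ i.v a := by
    intro a
    have h2 := h a
    simp only [fd] at h2
    have h3 := Int.emod_nonneg (i.v a) hq.ne'
    have h4 := Int.emod_lt_of_pos (j.v a) hq
    have h5 := Int.mul_ediv_add_emod (i.v a) q
    have h6 := Int.mul_ediv_add_emod (j.v a) q
    have h7 : j.v a / q + 1 ≤ i.v a / q := by omega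
    have h8 := mul_le_mul_of_nonneg_left h7 hq.le
    rw [mul_add, mul_one] at h8
    linarith
  have h2 : ∑ a, (j.v a + 1) ≤ ∑ a, i.v a := Finset.sum_le_sum (fun a _ => h1 a)
  rw [Finset.sum_add_distrib] at h2
  simp only [Finset.sum_const, Finset.card_univ, nsmul_eq_mul, mul_one] at h2
  have h3 := i.h
  have h4 := j.h
  have h5 : (i.e : ℕ) ≤ 1 := by omega
  have h6 : (j.e : ℕ) ≤ 1 := by omega
  have h7 : (2 : ℤ) ≤ (Fintype.card σ : ℤ) := by exact_mod_cast hcard
  have h8 : ((i.e : ℕ) : ℤ) ≤ 1 := by exact_mod_cast h5
  have h9 : ((j.e : ℕ) : ℤ) ≤ 1 := by exact_mod_cast h6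
  have h10 : (0 : ℤ) ≤ ((i.e : ℕ) : ℤ) := Int.natCast_nonneg _
  linarith

open Classical in
/-- an index at which the function is nonnegative -/
noncomputable def pick [Nonempty σ] (w : σ → ℤ) : σ :=
  if h : ∃ a, 0 ≤ w a then h.choose else Classical.arbitrary σ

theorem pick_spec [Nonempty σ] (w : σ → ℤ) (h : ∃ a, 0 ≤ w a) : 0 ≤ w (pick w) := by
  unfold pick
  rw [dif_pos h]
  exact h.choose_spec

variable [Nonempty σ] (B : Module.Basis (Expo σ) k R) (q : ℤ)

open Classical in
/-- the projection to the exponents `j` with `pick (fd q i j) = a` -/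
noncomputable def gproj (a : σ) (i : Expo σ) : R →ₗ[k] R :=
  B.constr k (fun j => if pick (fd q i j) = a then B j else 0)

open Classical in
theorem gproj_basis (a : σ) (i j : Expo σ) :
    gproj B q a i (B j) = if pick (fd q i j) = a then B j else 0 := by
  unfold gproj
  rw [Module.Basis.constr_basis]

theorem sum_gproj (i : Expo σ) (x : R) : ∑ a, gproj B q a i x = x := by
  classical
  have : ∑ a, gproj B q a i = LinearMap.id := by
    apply B.ext
    intro j
    rw [LinearMap.sum_apply, LinearMap.id_apply]
    simp only [gproj_basis]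
    rw [Finset.sum_ite_eq]
    simp
  have h := LinearMap.congr_fun this x
  rwa [LinearMap.sum_apply, LinearMap.id_apply] at h

/-- the component of an operator -/
noncomputable def oproj (a : σ) (δ : R →+ R) : R →ₗ[k] R :=
  B.constr k (fun i => gproj B q a i (δ (B i)))

theorem oproj_basis (a : σ) (δ : R →+ R) (i : Expo σ) :
    oproj B q a δ (B i) = gproj B q a i (δ (B i)) := by
  unfold oproj
  rw [Module.Basis.constr_basis]

/-- the component of an operator, as an additive map -/
noncomputable def aproj (a : σ) : (R →+ R) →+ (R →+ R) :=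
  AddMonoidHom.mk' (fun δ => (oproj B q a δ).toAddMonoidHom) (by
    intro δ ε
    have : oproj B q a (δ + ε) = oproj B q a δ + oproj B q a ε := by
      apply B.ext
      intro i
      rw [LinearMap.add_apply, oproj_basis, oproj_basis, oproj_basis, AddMonoidHom.add_apply,
        map_add]
    rw [this]
    rfl)

theorem aproj_apply (a : σ) (δ : R →+ R) (u : R) : aproj B q a δ u = oproj B q a δ u := rfl

theorem sum_aproj (δ : R →+ R) (hδ : ∀ (c : k) u, δ (c • u) = c • δ u) :
    ∑ a, aproj B q a δ = δ := by
  classical
  let D : R →ₗ[k] R := { δ with map_smul' := hδ }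
  have h1 : ∑ a, oproj B q a δ = D := by
    apply B.ext
    intro i
    rw [LinearMap.sum_apply]
    simp only [oproj_basis]
    rw [sum_gproj]
    rfl
  ext u
  rw [AddMonoidHom.finsetSum_apply]
  simp only [aproj_apply]
  have h2 := LinearMap.congr_fun h1 u
  rw [LinearMap.sum_apply] at h2
  exact h2

/-- compatibility with the multiplication by monomials -/
theorem aproj_mul (hq : q ≠ 0) (a : σ) (δ : R →+ R) (w : σ → ℤ) (hw : ∑ b, (q * w b) = 0) (t : R)
    (ht : ∀ i, t * B i = B (i.shift (fun b => q * w b) hw))
    (hδ : ∀ u, δ (t * u) = t * δ u) (u : R) :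
    aproj B q a δ (t * u) = t * aproj B q a δ u := by
  classical
  have h1 : ∀ i x, gproj B q a (i.shift (fun b => q * w b) hw) (t * x) =
      t * gproj B q a i x := by
    intro i x
    have : (gproj B q a (i.shift (fun b => q * w b) hw)) ∘ₗ (LinearMap.mulLeft k t) =
        (LinearMap.mulLeft k t) ∘ₗ gproj B q a i := by
      apply B.ext
      intro j
      rw [LinearMap.comp_apply, LinearMap.comp_apply, LinearMap.mulLeft_apply,
        LinearMap.mulLeft_apply, ht, gproj_basis, gproj_basis, fd_shift hq]
      split_ifs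
      · rw [ht]
      · rw [mul_zero]
    exact LinearMap.congr_fun this x
  have h2 : (oproj B q a δ) ∘ₗ (LinearMap.mulLeft k t) =
      (LinearMap.mulLeft k t) ∘ₗ oproj B q a δ := by
    apply B.ext
    intro i
    rw [LinearMap.comp_apply, LinearMap.comp_apply, LinearMap.mulLeft_apply,
      LinearMap.mulLeft_apply, ht, oproj_basis, oproj_basis, ← ht, hδ, h1]
  exact LinearMap.congr_fun h2 u

/-- the functions with poles along `S` only -/
noncomputable def polesIn (S : Set σ) : Submodule k R := Submodule.span k (B '' {i | NegIn S i})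

theorem aproj_polesIn (hcard : 2 ≤ Fintype.card σ) (hq : 0 < q) (a : σ) (δ : R →+ R) (S : Set σ)
    (hδ : ∀ u ∈ polesIn B (insert a S), δ u ∈ polesIn B (insert a S)) :
    ∀ u ∈ polesIn B S, aproj B q a δ u ∈ polesIn B S := by
  classical
  have h1 : ∀ i, NegIn S i → ∀ x ∈ polesIn B (insert a S), gproj B q a i x ∈ polesIn B S := by
    intro i hi x hx
    unfold polesIn at hx
    induction hx using Submodule.span_induction with
    | mem x hx =>
      obtain ⟨j, hj, rfl⟩ := hx
      rw [gproj_basis]
      split_ifs with h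
      · apply Submodule.subset_span
        refine ⟨j, ?_, rfl⟩
        intro b hb
        rcases hj b hb with rfl | hbS
        · by_contra hbS
          have h2 : 0 ≤ i.v b := by
            by_contra h3
            exact hbS (hi b (not_le.mp h3))
          have h3 := pick_spec (fd q i j) (fd_exists hcard hq i j)
          rw [h] at h3
          simp only [fd] at h3
          have h4 : 0 ≤ i.v b / q := Int.ediv_nonneg h2 hq.le
          have h5 : 0 ≤ j.v b / q := by linarith
          have h6 := Int.mul_ediv_add_emod (j.v b) q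
          have h7 := Int.emod_nonneg (j.v b) hq.ne'
          have h8 := mul_nonneg hq.le h5
          linarith
        · exact hbS
      · exact zero_mem _
    | zero =>
      rw [map_zero]
      exact zero_mem _
    | add x y _ _ hx hy =>
      rw [map_add]
      exact add_mem hx hy
    | smul c x _ hx =>
      rw [map_smul]
      exact Submodule.smul_mem _ _ hx
  intro u hu
  rw [aproj_apply]
  unfold polesIn at hu
  induction hu using Submodule.span_induction with
  | mem x hx =>
    obtain ⟨i, hi, rfl⟩ := hx
    rw [oproj_basis]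
    apply h1 i hi
    apply hδ
    apply Submodule.subset_span
    exact ⟨i, fun b hb => Set.mem_insert_of_mem _ (hi b hb), rfl⟩
  | zero =>
    rw [map_zero]
    exact zero_mem _
  | add x y _ _ hx hy =>
    rw [map_add]
    exact add_mem hx hy
  | smul c x _ hx =>
    rw [map_smul]
    exact Submodule.smul_mem _ _ hx

end core

end Pool.Agent.H824
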