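import Pool.Agent.H824.AmpStmt

/-!
# Čech cohomology of the sheaf of differential operators in characteristic `p`

`V` is a projective variety over an algebraically closed field of characteristic `p`, and
`c : τ → ι` a finite family of homogeneous coordinates, such that the affine open sets
`U_a = {x_{c a} ≠ 0}` cover `V`.
-/

namespace Pool.Agent.H824

open MvPolynomial

namespace ProjVariety

variable {k : Type*} [Field k] {ι τ : Type*} (V : ProjVariety k ι)

/-- The ring `O(U_S)` of the regular functions on the affine open set `U_S` of `V` where the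
coordinates `x_{c a}`, `a ∈ S`, do not vanish (`S` nonempty): it is generated by the ratios
`x_i / x_{c a}`, for all `i` and all `a ∈ S`. -/
noncomputable def regularOn (c : τ → ι) (S : Set τ) : Subalgebra k V.ConeField :=
  Algebra.adjoin k {u | ∃ i, ∃ a ∈ S, u = V.el (X i) / V.el (X (c a))}

/-- The ring `O(U)` of the regular functions on the smallest open set `U = ⋂ U_a`. -/
def OpenRing (c : τ → ι) : Type _ := V.regularOn c Set.univ

noncomputable instance instOR (c : τ → ι) : CommRing (V.OpenRing c) :=
  (inferInstance : CommRing (V.regularOn c Set.univ))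

/-- A regular function on `U`, as an element of the fraction field of the homogeneous coordinate
ring. -/
def OpenRing.val {V : ProjVariety k ι} {c : τ → ι} (u : V.OpenRing c) : V.ConeField :=
  Subtype.val u

/-- The additive endomorphisms of `O(U)`. -/
def AddOp (c : τ → ι) : Type _ := V.OpenRing c →+ V.OpenRing c

noncomputable instance instAO (c : τ → ι) : AddCommGroup (V.AddOp c) :=
  (inferInstance : AddCommGroup (V.OpenRing c →+ V.OpenRing c))

/-- The value of an additive endomorphism. -/
noncomputable def AddOp.app {V : ProjVariety k ι} {c : τ → ι} (δ : V.AddOp c) (u : V.OpenRing c) :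
    V.OpenRing c :=
  (show V.OpenRing c →+ V.OpenRing c from δ) u

/-- The ring `D(U_S)` of the differential operators on the affine open set `U_S`: the additive
endomorphisms of `O(U)` that are linear over the `p ^ e`-th powers for some `e` and map `O(U_S)` to
itself. -/
def diffOn (c : τ → ι) (p : ℕ) (S : Set τ) : Set (V.AddOp c) :=
  {δ | (∃ e : ℕ, ∀ f g : V.OpenRing c, δ.app (f ^ p ^ e * g) = f ^ p ^ e * δ.app g) ∧
    ∀ u : V.OpenRing c, u.val ∈ V.regularOn c S → (δ.app u).val ∈ V.regularOn c S}

/-- A Čech cochain of degree `i` of the sheaf of differential operators, for the covering of `V`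
by the open sets `U_a`, `a ∈ τ`: a family of `δ_s ∈ D(U_{s_0} ∩ … ∩ U_{s_i})`. -/
def IsCochain (c : τ → ι) (p i : ℕ) (f : (Fin (i + 1) → τ) → V.AddOp c) : Prop :=
  ∀ s, f s ∈ V.diffOn c p (Set.range s)

/-- The Čech differential. -/
noncomputable def cechD (c : τ → ι) (i : ℕ) (f : (Fin (i + 1) → τ) → V.AddOp c)
    (s : Fin (i + 2) → τ) : V.AddOp c :=
  ∑ j : Fin (i + 2), (-1 : ℤ) ^ (j : ℕ) • f (s ∘ j.succAbove)

/-- The Čech cohomology of the sheaf of differential operators on `V` vanishes in degree
`i + 1`. -/
def DiffVanishing (c : τ → ι) (p i : ℕ) : Prop :=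
  ∀ f : (Fin (i + 2) → τ) → V.AddOp c, V.IsCochain c p (i + 1) f → V.cechD c (i + 1) f = 0 →
    ∃ g : (Fin (i + 1) → τ) → V.AddOp c, V.IsCochain c p i g ∧ V.cechD c i g = f

end ProjVariety

/-- The coordinates `x_0, y_0, …, x_m, y_m`. -/
def xyIdx (m : ℕ) (a : Fin (m + 1) × Fin 2) : QVar m :=
  (some a : Option (Fin (m + 1) × Fin 2))

end Pool.Agent.H824
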