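import Pool.Agent.H824.DaffA
import Pool.Agent.H824.AmpC
import Pool.Agent.H824.DaffStmt

namespace Pool.Agent.H824

open MvPolynomial

/-- The Čech homotopy. -/
theorem cech_homotopy {A σ : Type*} [AddCommGroup A] [Fintype σ] (P : σ → A →+ A) (i : ℕ)
    (f : (Fin (i + 2) → σ) → A) (hf : ∀ s, ∑ a, P a (f s) = f s)
    (hd : ∀ s : Fin (i + 3) → σ, ∑ j : Fin (i + 3), (-1 : ℤ) ^ (j : ℕ) • f (s ∘ j.succAbove) = 0)
    (s : Fin (i + 2) → σ) :
    ∑ j : Fin (i + 2), (-1 : ℤ) ^ (j : ℕ) •
      (∑ a, P a (f (Fin.cons a (s ∘ j.succAbove) : Fin (i + 2) → σ))) = f s := by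
  have h1 : ∀ a, ∑ j : Fin (i + 2), (-1 : ℤ) ^ (j : ℕ) •
      f (Fin.cons a (s ∘ j.succAbove) : Fin (i + 2) → σ) = f s := by
    intro a
    have h2 := hd (Fin.cons a s)
    rw [Fin.sum_univ_succ] at h2
    have h3 : (Fin.cons a s : Fin (i + 3) → σ) ∘ (0 : Fin (i + 3)).succAbove = s := by
      funext l
      simp
    have h4 : ∀ j : Fin (i + 2), (Fin.cons a s : Fin (i + 3) → σ) ∘ j.succ.succAbove =
        Fin.cons a (s ∘ j.succAbove) := by
      intro j
      funext l
      refine Fin.cases ?_ (fun l => ?_) l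
      · simp
      · simp
    rw [h3] at h2
    simp only [h4, Fin.val_zero, pow_zero, one_smul, Fin.val_succ, pow_succ, mul_neg, mul_one,
      neg_smul, Finset.sum_neg_distrib] at h2
    rw [add_neg_eq_zero] at h2
    exact h2.symm
  have h2 : ∀ j : Fin (i + 2), (-1 : ℤ) ^ (j : ℕ) •
      (∑ a, P a (f (Fin.cons a (s ∘ j.succAbove) : Fin (i + 2) → σ))) =
      ∑ a, P a ((-1 : ℤ) ^ (j : ℕ) • f (Fin.cons a (s ∘ j.succAbove) : Fin (i + 2) → σ)) := by
    intro j
    rw [Finset.smul_sum]
    apply Finset.sum_congr rfl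
    intro a _
    rw [map_zsmul]
  simp only [h2]
  rw [Finset.sum_comm]
  rw [← hf s]
  apply Finset.sum_congr rfl
  intro a _
  rw [← map_sum, h1]

theorem li_of {k M ι : Type*} [Field k] [Field M] [Algebra k M] (v : ι → M)
    (h : ∀ (s : Finset ι) (g : ι → k), ∑ i ∈ s, g i • v i = 0 → ∀ i ∈ s, g i = 0) :
    LinearIndependent k v :=
  linearIndependent_iff'.mpr h

theorem sum_split {k M I : Type*} [Field k] [Field M] [Algebra k M] (s : Finset I) (e : I → Fin 2)
    (g : I → k) (N : M) (x : I → M) (z : M) :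
    (∑ i ∈ s, if e i = 0 then g i • (N * x i) else 0) +
      (∑ i ∈ s, if e i = 1 then g i • (N * x i) else 0) * z =
    N * ∑ i ∈ s, g i • (x i * z ^ (e i : ℕ)) := by
  rw [Finset.sum_mul, ← Finset.sum_add_distrib, Finset.mul_sum]
  apply Finset.sum_congr rfl
  intro i _
  have h2 : e i = 0 ∨ e i = 1 := by
    have := (e i).isLt
    rcases Nat.lt_or_ge (e i : ℕ) 1 with h | h
    · left; ext; simp; omega
    · right; ext; simp; omega
  rcases h2 with h2 | h2
  · rw [h2]
    simp
  · rw [h2]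
    simp only [one_ne_zero, if_false, if_true, zero_add, Fin.val_one, pow_one,
      smul_mul_assoc, mul_smul_comm]
    rw [mul_assoc]

section quad

variable (k : Type*) [Field k] (m : ℕ)

/-- a monomial in the `ξ` -/
noncomputable def monZ (v : Fin (m + 1) × Fin 2 → ℤ) : (quadVar k m).ConeField :=
  ∏ a, xi k m (some a) ^ v a

/-- a monomial in the `ξ` and `ζ` -/
noncomputable def mon (i : Expo (Fin (m + 1) × Fin 2)) : (quadVar k m).ConeField :=
  monZ k m i.v * xi k m none ^ (i.e : ℕ)

variable {k m}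

theorem monZ_add (v w : Fin (m + 1) × Fin 2 → ℤ) :
    monZ k m (v + w) = monZ k m v * monZ k m w := by
  unfold monZ
  rw [← Finset.prod_mul_distrib]
  apply Finset.prod_congr rfl
  intro a _
  rw [Pi.add_apply, zpow_add₀ (xi_some_ne a)]

theorem monZ_single (a : Fin (m + 1) × Fin 2) (c : ℤ) :
    monZ k m (Pi.single a c) = xi k m (some a) ^ c := by
  classical
  unfold monZ
  rw [Finset.prod_eq_single a]
  · rw [Pi.single_eq_same]
  · intro b _ hb
    rw [Pi.single_eq_of_ne hb, zpow_zero]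
  · simp

theorem monZ_zero : monZ k m 0 = 1 := by
  unfold monZ
  simp

theorem monZ_ne (v : Fin (m + 1) × Fin 2 → ℤ) : monZ k m v ≠ 0 :=
  Finset.prod_ne_zero_iff.mpr (fun a _ => zpow_ne_zero _ (xi_some_ne a))

/-- the natural exponents -/
noncomputable def natExp (N : ℕ) (i : Expo (Fin (m + 1) × Fin 2)) : (Fin (m + 1) × Fin 2) →₀ ℕ :=
  Finsupp.equivFunOnFinite.symm (fun a => (i.v a + N).toNat)

theorem el_monomial (N : ℕ) (i : Expo (Fin (m + 1) × Fin 2)) (hi : ∀ a, 0 ≤ i.v a + N) (c : k) :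
    (quadVar k m).el (rename some (monomial (natExp N i) c)) =
      c • (monZ k m (fun _ => (N : ℤ)) * monZ k m i.v) := by
  classical
  rw [ProjVariety.el_eq_aeval, aeval_rename, aeval_monomial, ← monZ_add, Algebra.smul_def]
  congr 1
  rw [Finsupp.prod_fintype _ _ (by intro a; simp)]
  unfold monZ
  apply Finset.prod_congr rfl
  intro a _
  change xi k m (some a) ^ ((i.v a + N).toNat) = _
  rw [← zpow_natCast, Int.toNat_of_nonneg (hi a)]
  congr 1
  simp only [Pi.add_apply]
  ring

theorem mon_indep [CharP k 2] : LinearIndependent k (mon k m) := by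
  classical
  apply li_of
  intro s g hg
  obtain ⟨N, hN⟩ : ∃ N : ℕ, ∀ i ∈ s, ∀ a, 0 ≤ i.v a + (N : ℤ) := by
    refine ⟨∑ i ∈ s, ∑ a, (i.v a).natAbs, ?_⟩
    intro i hi a
    have h1 : (i.v a).natAbs ≤ ∑ a, (i.v a).natAbs :=
      Finset.single_le_sum (f := fun a => (i.v a).natAbs) (fun _ _ => Nat.zero_le _)
        (Finset.mem_univ a)
    have h2 : ∑ a, (i.v a).natAbs ≤ ∑ i ∈ s, ∑ a, (i.v a).natAbs :=
      Finset.single_le_sum (f := fun i : Expo (Fin (m + 1) × Fin 2) =>
        ∑ a, (i.v a).natAbs) (fun _ _ => Nat.zero_le _) hi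
    omega
  let A : Fin 2 → MvPolynomial (Fin (m + 1) × Fin 2) k := fun b =>
    ∑ i ∈ s, if i.e = b then monomial (natExp N i) (g i) else 0
  have h1 : (quadVar k m).el (rename some (A 0) + rename some (A 1) * X none) =
      monZ k m (fun _ => (N : ℤ)) * ∑ i ∈ s, g i • mon k m i := by
    have e0 : ∀ b, (quadVar k m).el (rename some (A b)) =
        ∑ i ∈ s, if i.e = b then g i • (monZ k m (fun _ => (N : ℤ)) * monZ k m i.v)
          else 0 := by
      intro b
      rw [ProjVariety.el_eq_aeval, map_sum, map_sum]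
      apply Finset.sum_congr rfl
      intro i hi
      split_ifs
      · rw [← ProjVariety.el_eq_aeval, el_monomial N i (hN i hi)]
      · simp
    rw [ProjVariety.el_add, ProjVariety.el_mul, e0, e0]
    exact sum_split s (fun i => i.e) g (monZ k m (fun _ => (N : ℤ))) (fun i => monZ k m i.v)
      (xi k m none)
  rw [hg, mul_zero, quad_el_zero, map_add, map_mul, aeval_rename, aeval_rename, aeval_X] at h1
  obtain ⟨hA0, hA1⟩ := expand_indep (A 0) (A 1) h1
  have hA : ∀ b, A b = 0 := by
    intro b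
    fin_cases b
    · exact hA0
    · exact hA1
  intro i0 hi0
  have h2 := congrArg (coeff (natExp N i0)) (hA i0.e)
  rw [coeff_zero, coeff_sum, Finset.sum_eq_single i0] at h2
  · rw [if_pos rfl, coeff_monomial, if_pos rfl] at h2
    exact h2
  · intro i hi hne
    split_ifs with hb
    · rw [coeff_monomial, if_neg]
      intro h3
      apply hne
      apply Expo.ext
      · funext a
        have h4 := DFunLike.congr_fun h3 a
        change (i.v a + N).toNat = (i0.v a + N).toNat at h4
        have h5 := hN i hi a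
        have h6 := hN i0 hi0 a
        omega
      · exact hb
    · rw [coeff_zero]
  · intro h
    exact absurd hi0 h

end quad

end Pool.Agent.H824
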