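import Pool.Agent.H824.DaffB

namespace Pool.Agent.H824

open MvPolynomial

theorem prod_zpow_eq {M σ : Type*} [Field M] (x : M) (hx : x ≠ 0) (s : Finset σ) (v : σ → ℤ) :
    ∏ a ∈ s, x ^ v a = x ^ (∑ a ∈ s, v a) := by
  classical
  induction s using Finset.induction_on with
  | empty => simp
  | insert a s ha ih => rw [Finset.prod_insert ha, Finset.sum_insert ha, ih, zpow_add₀ hx]

theorem mul_sum_field {M I : Type*} [Field M] (s : Finset I) (x : M) (f : I → M) :
    x * ∑ i ∈ s, f i = ∑ i ∈ s, x * f i := Finset.mul_sum _ _ _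

section quad

variable {k : Type*} [Field k] {m : ℕ}

/-- the span of the monomials with negative exponents in `S` -/
noncomputable def monSpan (k : Type*) [Field k] (m : ℕ) (S : Set (Fin (m + 1) × Fin 2)) :
    Submodule k (quadVar k m).ConeField :=
  Submodule.span k (mon k m '' {i | NegIn S i})

theorem mon_mem (S : Set (Fin (m + 1) × Fin 2)) (a0 : Fin (m + 1) × Fin 2) (ha0 : a0 ∈ S)
    (i : Expo (Fin (m + 1) × Fin 2)) (hi : NegIn S i) :
    mon k m i ∈ (quadVar k m).regularOn (xyIdx m) S := by
  classical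
  have hgen : ∀ (j : Option (Fin (m + 1) × Fin 2)) (a : Fin (m + 1) × Fin 2), a ∈ S →
      xi k m j / xi k m (some a) ∈ (quadVar k m).regularOn (xyIdx m) S := by
    intro j a ha
    exact Algebra.subset_adjoin ⟨j, a, ha, rfl⟩
  have hx0 : xi k m (some a0) ≠ 0 := xi_some_ne a0
  have h1 : mon k m i = (∏ a, (xi k m (some a) / xi k m (some a0)) ^ i.v a) *
      (xi k m none / xi k m (some a0)) ^ (i.e : ℕ) := by
    unfold mon monZ
    simp only [div_zpow, div_pow]
    rw [Finset.prod_div_distrib, prod_zpow_eq _ hx0, div_mul_div_comm, ← zpow_natCast (xi k m (some a0)),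
      ← zpow_add₀ hx0, i.h, zpow_zero, div_one]
  rw [h1]
  apply mul_mem
  · apply prod_mem
    intro a _
    rcases le_or_gt 0 (i.v a) with h | h
    · obtain ⟨n, hn⟩ := Int.eq_ofNat_of_zero_le h
      rw [hn, zpow_natCast]
      exact pow_mem (hgen _ _ ha0) n
    · obtain ⟨n, hn⟩ := Int.eq_ofNat_of_zero_le (a := - i.v a) (by omega)
      have h2 : i.v a = - (n : ℤ) := by omega
      rw [h2, zpow_neg, zpow_natCast, ← inv_pow, inv_div]
      exact pow_mem (hgen _ _ (hi a h)) n
  · exact pow_mem (hgen _ _ ha0) _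

/-- the exponent of `ξ_b / ξ_a` -/
def expXX (b a : Fin (m + 1) × Fin 2) : Expo (Fin (m + 1) × Fin 2) :=
  ⟨Pi.single b 1 - Pi.single a 1, 0, by
    simp [Finset.sum_sub_distrib]⟩

/-- the exponent of `ζ / ξ_a` -/
def expZX (a : Fin (m + 1) × Fin 2) : Expo (Fin (m + 1) × Fin 2) :=
  ⟨- Pi.single a 1, 1, by simp⟩

theorem mon_expXX (b a : Fin (m + 1) × Fin 2) :
    mon k m (expXX b a) = xi k m (some b) / xi k m (some a) := by
  unfold mon expXX
  simp only [Fin.val_zero, pow_zero, mul_one]
  rw [sub_eq_add_neg, monZ_add, ← Pi.single_neg, monZ_single, monZ_single, zpow_one, zpow_neg,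
    zpow_one, div_eq_mul_inv]

theorem mon_expZX (a : Fin (m + 1) × Fin 2) :
    mon k m (expZX a) = xi k m none / xi k m (some a) := by
  unfold mon expZX
  simp only [Fin.val_one, pow_one]
  rw [← Pi.single_neg, monZ_single, zpow_neg, zpow_one, div_eq_mul_inv, mul_comm]

theorem negIn_expXX (S : Set (Fin (m + 1) × Fin 2)) (b a : Fin (m + 1) × Fin 2) (ha : a ∈ S) :
    NegIn S (expXX b a) := by
  classical
  intro c hc
  by_cases h : c = a
  · rw [h]
    exact ha
  · exfalso
    simp only [expXX, Pi.sub_apply, Pi.single_apply, h, if_false, sub_zero] at hc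
    split_ifs at hc <;> omega

theorem negIn_expZX (S : Set (Fin (m + 1) × Fin 2)) (a : Fin (m + 1) × Fin 2) (ha : a ∈ S) :
    NegIn S (expZX a) := by
  classical
  intro c hc
  by_cases h : c = a
  · rw [h]
    exact ha
  · exfalso
    simp only [expZX, Pi.neg_apply, Pi.single_apply, h, if_false, neg_zero] at hc
    omega

theorem mon_mul_mem [CharP k 2] (S : Set (Fin (m + 1) × Fin 2)) (i j : Expo (Fin (m + 1) × Fin 2))
    (hi : NegIn S i) (hj : NegIn S j) : mon k m i * mon k m j ∈ monSpan k m S := by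
  classical
  have hfin : ∀ x : Fin 2, x = 0 ∨ x = 1 := by
    intro x
    fin_cases x
    · exact Or.inl rfl
    · exact Or.inr rfl
  have hneg : ∀ c, i.v c + j.v c < 0 → c ∈ S := by
    intro c hc
    rcases lt_or_ge (i.v c) 0 with h | h
    · exact hi c h
    · exact hj c (by omega)
  have hih := i.h
  have hjh := j.h
  have hmul : mon k m i * mon k m j = monZ k m (i.v + j.v) *
      xi k m none ^ ((i.e : ℕ) + (j.e : ℕ)) := by
    unfold mon
    rw [monZ_add, pow_add]
    ring
  by_cases hij : i.e = 1 ∧ j.e = 1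
  · rw [hmul, hij.1, hij.2]
    have h1 : xi k m none ^ (((1 : Fin 2) : ℕ) + ((1 : Fin 2) : ℕ)) =
        ∑ l : Fin (m + 1), monZ k m (Pi.single (l, 0) 1 + Pi.single (l, 1) 1) := by
      rw [Fin.val_one]
      change xi k m none ^ 2 = _
      rw [xi_none_sq]
      apply Finset.sum_congr rfl
      intro l _
      rw [monZ_add, monZ_single, monZ_single, zpow_one, zpow_one]
    rw [h1, mul_sum_field]
    apply sum_mem
    intro l _
    rw [← monZ_add]
    apply Submodule.subset_span
    refine ⟨⟨i.v + j.v + (Pi.single (l, 0) 1 + Pi.single (l, 1) 1), 0, ?_⟩, ?_, ?_⟩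
    · rw [hij.1] at hih
      rw [hij.2] at hjh
      simp only [Pi.add_apply, Finset.sum_add_distrib, Finset.sum_pi_single', Finset.mem_univ,
        if_true, Fin.val_zero, Fin.val_one, Nat.cast_zero, Nat.cast_one] at hih hjh ⊢
      omega
    · intro c hc
      apply hneg
      simp only [Pi.add_apply] at hc
      have e1 : (0 : ℤ) ≤ (Pi.single (l, 0) 1 : Fin (m + 1) × Fin 2 → ℤ) c := by
        rw [Pi.single_apply]
        split_ifs <;> omega
      have e2 : (0 : ℤ) ≤ (Pi.single (l, 1) 1 : Fin (m + 1) × Fin 2 → ℤ) c := by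
        rw [Pi.single_apply]
        split_ifs <;> omega
      omega
    · unfold mon
      simp
  · have h3 : ∃ x : Fin 2, (x : ℕ) = (i.e : ℕ) + (j.e : ℕ) := by
      rcases hfin i.e with h | h
      · exact ⟨j.e, by rw [h]; simp⟩
      · rcases hfin j.e with h' | h'
        · exact ⟨i.e, by rw [h']; simp⟩
        · exact absurd ⟨h, h'⟩ hij
    obtain ⟨x, hx⟩ := h3
    rw [hmul, ← hx]
    apply Submodule.subset_span
    refine ⟨⟨i.v + j.v, x, ?_⟩, ?_, rfl⟩
    · simp only [Pi.add_apply, Finset.sum_add_distrib]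
      rw [hx]
      push_cast
      omega
    · intro c hc
      exact hneg c hc

theorem monSpan_mul [CharP k 2] (S : Set (Fin (m + 1) × Fin 2)) (x : (quadVar k m).ConeField)
    (hx : x ∈ monSpan k m S) (y : (quadVar k m).ConeField) (hy : y ∈ monSpan k m S) :
    x * y ∈ monSpan k m S := by
  unfold monSpan at hx
  induction hx using Submodule.span_induction with
  | mem x hx =>
    obtain ⟨i, hi, rfl⟩ := hx
    unfold monSpan at hy
    induction hy using Submodule.span_induction with
    | mem y hy =>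
      obtain ⟨j, hj, rfl⟩ := hy
      exact mon_mul_mem S i j hi hj
    | zero =>
      rw [mul_zero]
      exact zero_mem _
    | add y y' _ _ hy hy' =>
      rw [mul_add]
      exact add_mem hy hy'
    | smul c y _ hy =>
      rw [mul_smul_comm]
      exact Submodule.smul_mem _ _ hy
  | zero =>
    rw [zero_mul]
    exact zero_mem _
  | add x x' _ _ hx hx' =>
    rw [add_mul]
    exact add_mem hx hx'
  | smul c x _ hx =>
    rw [smul_mul_assoc]
    exact Submodule.smul_mem _ _ hx

theorem regularOn_le [CharP k 2] (S : Set (Fin (m + 1) × Fin 2)) (x : (quadVar k m).ConeField)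
    (hx : x ∈ (quadVar k m).regularOn (xyIdx m) S) : x ∈ monSpan k m S := by
  classical
  unfold ProjVariety.regularOn at hx
  induction hx using Algebra.adjoin_induction with
  | mem x hx =>
    obtain ⟨j, a, ha, rfl⟩ := hx
    apply Submodule.subset_span
    cases j with
    | none => exact ⟨expZX a, negIn_expZX S a ha, mon_expZX a⟩
    | some b => exact ⟨expXX b a, negIn_expXX S b a ha, mon_expXX b a⟩
  | algebraMap c =>
    have h1 : algebraMap k (quadVar k m).ConeField c =
        c • mon k m ⟨0, 0, by simp⟩ := by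
      unfold mon
      rw [monZ_zero, Algebra.smul_def]
      simp
    rw [h1]
    apply Submodule.smul_mem
    apply Submodule.subset_span
    refine ⟨_, ?_, rfl⟩
    intro a ha
    simp at ha
  | add x y _ _ hx hy => exact add_mem hx hy
  | mul x y _ _ hx hy => exact monSpan_mul S x hx y hy

end quad

end Pool.Agent.H824
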