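import Pool.Agent.H824.DaffC

namespace Pool.Agent.H824

open MvPolynomial

section quad

variable {k : Type*} [Field k] {m : ℕ}

/-- the ring `O(U)` -/
noncomputable abbrev RU (k : Type*) [Field k] (m : ℕ) : Subalgebra k (quadVar k m).ConeField :=
  (quadVar k m).regularOn (xyIdx m) Set.univ

theorem mon_mem_RU (i : Expo (Fin (m + 1) × Fin 2)) : mon k m i ∈ RU k m :=
  mon_mem Set.univ (0, 0) (Set.mem_univ _) i (fun _ _ => Set.mem_univ _)

/-- the monomials as elements of `O(U)` -/
noncomputable def monR (k : Type*) [Field k] (m : ℕ) (i : Expo (Fin (m + 1) × Fin 2)) : RU k m :=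
  ⟨mon k m i, mon_mem_RU i⟩

theorem li_sub {k M ι : Type*} [Field k] [Field M] [Algebra k M] (A : Subalgebra k M) (v : ι → M)
    (hv : ∀ i, v i ∈ A) (h : LinearIndependent k v) :
    LinearIndependent k (fun i => (⟨v i, hv i⟩ : A)) :=
  LinearIndependent.of_comp A.val.toLinearMap h

theorem mem_span_sub {k M ι : Type*} [Field k] [Field M] [Algebra k M] (A : Subalgebra k M)
    (v : ι → M) (hv : ∀ i, v i ∈ A) (T : Set ι) (x : A) (hx : (x : M) ∈ Submodule.span k (v '' T)) :
    x ∈ Submodule.span k ((fun i => (⟨v i, hv i⟩ : A)) '' T) := by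
  rw [Finsupp.mem_span_image_iff_linearCombination] at hx ⊢
  obtain ⟨l, hl, hlx⟩ := hx
  refine ⟨l, hl, ?_⟩
  apply Subtype.ext
  rw [← hlx]
  change A.val.toLinearMap _ = _
  rw [Finsupp.apply_linearCombination]
  rfl

theorem span_sub_mem {k M ι : Type*} [Field k] [Field M] [Algebra k M] (A A' : Subalgebra k M)
    (v : ι → M) (hv : ∀ i, v i ∈ A) (T : Set ι) (hT : ∀ i ∈ T, v i ∈ A') (x : A)
    (hx : x ∈ Submodule.span k ((fun i => (⟨v i, hv i⟩ : A)) '' T)) : (x : M) ∈ A' := by
  induction hx using Submodule.span_induction with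
  | mem x hx =>
    obtain ⟨i, hi, rfl⟩ := hx
    exact hT i hi
  | zero => exact zero_mem A'
  | add x y _ _ hx hy => exact add_mem hx hy
  | smul c x _ hx => exact A'.smul_mem hx c

theorem monR_indep [CharP k 2] : LinearIndependent k (monR k m) :=
  li_sub (RU k m) (mon k m) mon_mem_RU mon_indep

theorem monR_span [CharP k 2] : ⊤ ≤ Submodule.span k (Set.range (monR k m)) := by
  intro x _
  have h1 : (x : (quadVar k m).ConeField) ∈ monSpan k m Set.univ := regularOn_le _ _ x.2
  have h2 := mem_span_sub (RU k m) (mon k m) mon_mem_RU {i | NegIn Set.univ i} x h1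
  exact Submodule.span_mono (Set.image_subset_range _ _) h2

/-- the basis of `O(U)` -/
noncomputable def BU (k : Type*) [Field k] [CharP k 2] (m : ℕ) :
    Module.Basis (Expo (Fin (m + 1) × Fin 2)) k (RU k m) :=
  Module.Basis.mk monR_indep monR_span

theorem BU_apply [CharP k 2] (i : Expo (Fin (m + 1) × Fin 2)) : BU k m i = monR k m i := by
  unfold BU
  rw [Module.Basis.mk_apply]

theorem polesIn_iff [CharP k 2] (S : Set (Fin (m + 1) × Fin 2)) (hS : S.Nonempty) (u : RU k m) :
    u ∈ polesIn (BU k m) S ↔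
      (u : (quadVar k m).ConeField) ∈ (quadVar k m).regularOn (xyIdx m) S := by
  obtain ⟨a0, ha0⟩ := hS
  have hB : (BU k m : Expo (Fin (m + 1) × Fin 2) → RU k m) = monR k m := by
    funext i
    exact BU_apply i
  unfold polesIn
  rw [hB]
  constructor
  · intro h
    exact span_sub_mem (RU k m) _ (mon k m) mon_mem_RU {i | NegIn S i}
      (fun i hi => mon_mem S a0 ha0 i hi) u h
  · intro h
    exact mem_span_sub (RU k m) (mon k m) mon_mem_RU {i | NegIn S i} u (regularOn_le S _ h)

theorem monR_mul_shift (w : Fin (m + 1) × Fin 2 → ℤ) (hw : ∑ b, w b = 0)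
    (i : Expo (Fin (m + 1) × Fin 2)) :
    monR k m ⟨w, 0, by rw [hw]; simp⟩ * monR k m i = monR k m (i.shift w hw) := by
  apply Subtype.ext
  change mon k m ⟨w, 0, by rw [hw]; simp⟩ * mon k m i = mon k m (i.shift w hw)
  unfold mon Expo.shift
  simp only [Fin.val_zero, pow_zero, mul_one]
  rw [monZ_add]
  ring

end quad

end Pool.Agent.H824
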