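import Pool.Agent.H824.DaffD

namespace Pool.Agent.H824

open MvPolynomial

section quad

variable {k : Type*} [Field k] {m : ℕ}

instance charRU [CharP k 2] : CharP (RU k m) 2 :=
  charP_of_injective_algebraMap (algebraMap k (RU k m)).injective 2

/-- linearity over the powers -/
theorem lin_mono {R : Type*} [CommRing R] (δ : R →+ R) (e e' : ℕ) (h : e ≤ e')
    (hδ : ∀ f g, δ (f ^ 2 ^ e * g) = f ^ 2 ^ e * δ g) (f g : R) :
    δ (f ^ 2 ^ e' * g) = f ^ 2 ^ e' * δ g := by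
  obtain ⟨d, rfl⟩ := Nat.exists_eq_add_of_le h
  have : f ^ 2 ^ (e + d) = (f ^ 2 ^ d) ^ 2 ^ e := by
    rw [← pow_mul, ← pow_add, add_comm]
  rw [this, hδ]

theorem lin_smul [IsAlgClosed k] {R : Type*} [CommRing R] [Algebra k R] (δ : R →+ R) (e : ℕ)
    (hδ : ∀ f g, δ (f ^ 2 ^ e * g) = f ^ 2 ^ e * δ g) (c : k) (u : R) :
    δ (c • u) = c • δ u := by
  obtain ⟨b, hb⟩ := IsAlgClosed.exists_pow_nat_eq c (n := 2 ^ e) (by positivity)
  rw [Algebra.smul_def, Algebra.smul_def, ← hb, map_pow, hδ]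

theorem monR_pow (w : Fin (m + 1) × Fin 2 → ℤ) (hw : ∑ b, w b = 0) (q : ℕ)
    (hqw : (∑ b, ((q : ℤ) * w b)) + (((0 : Fin 2) : ℕ) : ℤ) = 0) :
    monR k m ⟨fun b => (q : ℤ) * w b, 0, hqw⟩ = monR k m ⟨w, 0, by rw [hw]; simp⟩ ^ q := by
  apply Subtype.ext
  change mon k m _ = mon k m _ ^ q
  unfold mon
  simp only [Fin.val_zero, pow_zero, mul_one]
  unfold monZ
  rw [← Finset.prod_pow]
  apply Finset.prod_congr rfl
  intro a _
  rw [← zpow_natCast, ← zpow_mul, mul_comm]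

/-- operators linear over the `2 ^ e`-th powers commute with the monomials of exponents divisible
by `2 ^ e` -/
theorem comm_mon (δ : RU k m →+ RU k m) (e : ℕ)
    (hδ : ∀ f g, δ (f ^ 2 ^ e * g) = f ^ 2 ^ e * δ g) (w : Fin (m + 1) × Fin 2 → ℤ)
    (hw : ∑ b, w b = 0)
    (hqw : (∑ b, (((2 ^ e : ℕ) : ℤ) * w b)) + (((0 : Fin 2) : ℕ) : ℤ) = 0) (u : RU k m) :
    δ (monR k m ⟨fun b => ((2 ^ e : ℕ) : ℤ) * w b, 0, hqw⟩ * u) =
      monR k m ⟨fun b => ((2 ^ e : ℕ) : ℤ) * w b, 0, hqw⟩ * δ u := by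
  rw [monR_pow w hw, hδ]

theorem pow_char_sum {R I : Type*} [CommRing R] [CharP R 2] (s : Finset I) (f : I → R) (e : ℕ) :
    (∑ i ∈ s, f i) ^ 2 ^ e = ∑ i ∈ s, f i ^ 2 ^ e :=
  sum_pow_char_pow 2 e s f

/-- the `2q`-th power of a monomial -/
theorem mon_pow_two [CharP k 2] (i : Expo (Fin (m + 1) × Fin 2)) (e : ℕ) :
    ∃ (r : ℕ) (w : Fin r → Fin (m + 1) × Fin 2 → ℤ) (_ : ∀ l, ∑ b, w l b = 0)
      (hqw : ∀ l, (∑ b, (((2 ^ e : ℕ) : ℤ) * w l b)) + (((0 : Fin 2) : ℕ) : ℤ) = 0),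
      monR k m i ^ 2 ^ (e + 1) =
        ∑ l, monR k m ⟨fun b => ((2 ^ e : ℕ) : ℤ) * w l b, 0, hqw l⟩ := by
  classical
  have hq0 : ∀ (w : Fin (m + 1) × Fin 2 → ℤ), ∑ b, w b = 0 →
      (∑ b, (((2 ^ e : ℕ) : ℤ) * w b)) + (((0 : Fin 2) : ℕ) : ℤ) = 0 := by
    intro w hw
    rw [← Finset.mul_sum, hw]
    simp
  have hih := i.h
  have hcases : i.e = 0 ∨ i.e = 1 := by
    generalize i.e = x
    fin_cases x
    · exact Or.inl rfl
    · exact Or.inr rfl
  rcases hcases with h0 | h1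
  · rw [h0] at hih
    have hs : ∑ b, (2 * i.v b) = 0 := by
      rw [← Finset.mul_sum]
      simp only [Fin.val_zero, Nat.cast_zero, add_zero] at hih
      rw [hih, mul_zero]
    refine ⟨1, fun _ b => 2 * i.v b, fun _ => hs, fun _ => hq0 _ hs, ?_⟩
    rw [Fin.sum_univ_one, monR_pow _ hs, pow_succ, mul_comm, pow_mul]
    congr 1
    apply Subtype.ext
    change mon k m i ^ 2 = mon k m _
    unfold mon
    rw [h0]
    simp only [Fin.val_zero, pow_zero, mul_one]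
    unfold monZ
    rw [← Finset.prod_pow]
    apply Finset.prod_congr rfl
    intro a _
    rw [← zpow_natCast, ← zpow_mul, mul_comm]
    rfl
  · rw [h1] at hih
    have hs : ∀ l : Fin (m + 1), ∑ b, (2 * i.v b + (Pi.single (l, (0 : Fin 2)) 1 +
        Pi.single (l, (1 : Fin 2)) 1 : Fin (m + 1) × Fin 2 → ℤ) b) = 0 := by
      intro l
      simp only [Pi.add_apply, Finset.sum_add_distrib, Finset.sum_pi_single', Finset.mem_univ,
        if_true, ← Finset.mul_sum, Fin.val_one, Nat.cast_one] at hih ⊢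
      omega
    refine ⟨m + 1, fun l b => 2 * i.v b + (Pi.single (l, (0 : Fin 2)) 1 +
        Pi.single (l, (1 : Fin 2)) 1 : Fin (m + 1) × Fin 2 → ℤ) b, hs, fun l => hq0 _ (hs l), ?_⟩
    simp only [monR_pow _ (hs _)]
    rw [← pow_char_sum, pow_succ, mul_comm, pow_mul]
    congr 1
    apply Subtype.ext
    have hval : ∀ (g : Fin (m + 1) → RU k m),
        ((∑ l, g l : RU k m) : (quadVar k m).ConeField) =
          ∑ l, ((g l : RU k m) : (quadVar k m).ConeField) := by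
      intro g
      exact map_sum (RU k m).val g Finset.univ
    rw [hval]
    change mon k m i ^ 2 = ∑ l, mon k m _
    have h2 : mon k m i ^ 2 = monZ k m (i.v + i.v) * xi k m none ^ 2 := by
      unfold mon
      rw [h1, Fin.val_one, pow_one, mul_pow, monZ_add, pow_two]
    rw [h2, xi_none_sq, mul_sum_field]
    apply Finset.sum_congr rfl
    intro l _
    unfold mon
    simp only [Fin.val_zero, pow_zero, mul_one]
    have h3 : (fun b => 2 * i.v b + (Pi.single (l, (0 : Fin 2)) 1 +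
        Pi.single (l, (1 : Fin 2)) 1 : Fin (m + 1) × Fin 2 → ℤ) b) =
        (i.v + i.v) + (Pi.single (l, (0 : Fin 2)) 1 + Pi.single (l, (1 : Fin 2)) 1) := by
      funext b
      simp only [Pi.add_apply]
      ring
    rw [h3, monZ_add _ (Pi.single (l, (0 : Fin 2)) 1 + Pi.single (l, (1 : Fin 2)) 1),
      monZ_add (Pi.single (l, (0 : Fin 2)) 1), monZ_single, monZ_single, zpow_one, zpow_one]

/-- the components of an operator are linear over the `2q`-th powers -/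
theorem lin_of_comm [CharP k 2] (δ : RU k m →+ RU k m) (e : ℕ)
    (hk : ∀ (c : k) u, δ (c • u) = c • δ u)
    (hc : ∀ (w : Fin (m + 1) × Fin 2 → ℤ) (_ : ∑ b, w b = 0)
      (hqw : (∑ b, (((2 ^ e : ℕ) : ℤ) * w b)) + (((0 : Fin 2) : ℕ) : ℤ) = 0) (u : RU k m),
      δ (monR k m ⟨fun b => ((2 ^ e : ℕ) : ℤ) * w b, 0, hqw⟩ * u) =
        monR k m ⟨fun b => ((2 ^ e : ℕ) : ℤ) * w b, 0, hqw⟩ * δ u)
    (f g : RU k m) : δ (f ^ 2 ^ (e + 1) * g) = f ^ 2 ^ (e + 1) * δ g := by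
  classical
  have hf : f ∈ Submodule.span k (Set.range (monR k m)) := monR_span trivial
  induction hf using Submodule.span_induction with
  | mem x hx =>
    obtain ⟨i, rfl⟩ := hx
    obtain ⟨r, w, hw, hqw, h⟩ := mon_pow_two (k := k) i e
    rw [h, Finset.sum_mul, map_sum, Finset.sum_mul]
    apply Finset.sum_congr rfl
    intro l _
    exact hc (w l) (hw l) (hqw l) g
  | zero =>
    rw [zero_pow (by positivity), zero_mul, map_zero, zero_mul]
  | add x y _ _ hx hy =>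
    rw [add_pow_char_pow, add_mul, map_add, hx, hy, add_mul]
  | smul c x _ hx =>
    rw [smul_pow, smul_mul_assoc, hk, hx, smul_mul_assoc]

end quad

end Pool.Agent.H824
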