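import Pool.Agent.H824.DaffE
import Pool.Agent.H824.AmpD

namespace Pool.Agent.H824

open MvPolynomial

section quad

variable {k : Type*} [Field k] {m : ℕ}

theorem diff_vanishing [IsAlgClosed k] [CharP k 2] (i : ℕ) :
    (quadVar k m).DiffVanishing (xyIdx m) 2 i := by
  classical
  intro f hf hd
  let F : (Fin (i + 2) → Fin (m + 1) × Fin 2) → (RU k m →+ RU k m) := f
  have he : ∀ s, ∃ e : ℕ, ∀ x y : RU k m, F s (x ^ 2 ^ e * y) = x ^ 2 ^ e * F s y := fun s =>
    (hf s).1
  choose e he using he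
  set E := Finset.univ.sup e with hE
  have hlin : ∀ s (x y : RU k m), F s (x ^ 2 ^ E * y) = x ^ 2 ^ E * F s y := fun s =>
    lin_mono (F s) (e s) E (Finset.le_sup (Finset.mem_univ s)) (he s)
  have hpres : ∀ s, ∀ u ∈ polesIn (BU k m) (Set.range s), F s u ∈ polesIn (BU k m) (Set.range s) := by
    intro s u hu
    rw [polesIn_iff _ (Set.range_nonempty s)] at hu ⊢
    exact (hf s).2 u hu
  have hq : (0 : ℤ) < ((2 ^ E : ℕ) : ℤ) := by positivity
  have hk : ∀ s (c : k) (u : RU k m), F s (c • u) = c • F s u := fun s =>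
    lin_smul (F s) E (hlin s)
  have hcard : 2 ≤ Fintype.card (Fin (m + 1) × Fin 2) := by
    simp
  let P : Fin (m + 1) × Fin 2 → (RU k m →+ RU k m) →+ (RU k m →+ RU k m) := fun a =>
    aproj (BU k m) ((2 ^ E : ℕ) : ℤ) a
  have hsum : ∀ s, ∑ a, P a (F s) = F s := fun s => sum_aproj _ _ (F s) (hk s)
  have hd' : ∀ s : Fin (i + 3) → Fin (m + 1) × Fin 2,
      ∑ j : Fin (i + 3), (-1 : ℤ) ^ (j : ℕ) • F (s ∘ j.succAbove) = 0 := fun s => congrFun hd s
  let g : (Fin (i + 1) → Fin (m + 1) × Fin 2) → (RU k m →+ RU k m) := fun s =>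
    ∑ a, P a (F (Fin.cons a s : Fin (i + 2) → Fin (m + 1) × Fin 2))
  have hg : ∀ s u, g s u = ∑ a, P a (F (Fin.cons a s : Fin (i + 2) → Fin (m + 1) × Fin 2)) u := by
    intro s u
    exact AddMonoidHom.finsetSum_apply _ _ _
  have hglin : ∀ s (x y : RU k m), g s (x ^ 2 ^ (E + 1) * y) = x ^ 2 ^ (E + 1) * g s y := by
    intro s x y
    rw [hg, hg, Finset.mul_sum]
    apply Finset.sum_congr rfl
    intro a _
    apply lin_of_comm _ E
    · intro c u
      exact map_smul (oproj (BU k m) _ a _) c u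
    · intro w hw hqw u
      apply aproj_mul (BU k m) _ hq.ne' a _ w (by simpa using hqw)
      · intro j
        rw [BU_apply, BU_apply]
        exact monR_mul_shift _ (by simpa using hqw) j
      · intro v
        exact comm_mon (F _) E (hlin _) w hw hqw v
  have hgpres : ∀ s, ∀ u : RU k m, u ∈ polesIn (BU k m) (Set.range s) →
      g s u ∈ polesIn (BU k m) (Set.range s) := by
    intro s u hu'
    rw [hg]
    apply sum_mem
    intro a _
    apply aproj_polesIn (BU k m) _ hcard hq a _ _ _ u hu'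
    have h2 := hpres (Fin.cons a s : Fin (i + 2) → Fin (m + 1) × Fin 2)
    rw [Fin.range_cons] at h2
    exact h2
  refine ⟨g, ?_, ?_⟩
  · intro s
    constructor
    · exact ⟨E + 1, hglin s⟩
    · intro u hu
      have hu' := (polesIn_iff _ (Set.range_nonempty s) u).mpr hu
      exact (polesIn_iff _ (Set.range_nonempty s) _).mp (hgpres s u hu')
  · funext s
    exact cech_homotopy P i F hsum hd' s

theorem daff_main (k : Type*) [Field k] [IsAlgClosed k] [CharP k 2] (m : ℕ) :
    ∃ V : ProjVariety k (QVar m),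
      V.ideal = Ideal.span {quadForm k m} ∧ V.dim = 2 * m + 1 ∧ V.IsSmooth ∧
      (∀ z ∈ V.points, ∃ a, z (xyIdx m a) ≠ 0) ∧
      ∀ i, V.DiffVanishing (xyIdx m) 2 i :=
  ⟨quadVar k m, quad_ideal, quad_dim, quad_smooth, quad_point, diff_vanishing⟩

end quad

end Pool.Agent.H824
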