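import Mathlib

/-!
# Projective varieties over an algebraically closed field, in classical terms

The projective space is `ℙ(k^ι)`, with homogeneous coordinates indexed by the finite type `ι`, so
its dimension is `|ι| - 1`. The field `k` is meant to be algebraically closed.
-/

namespace Pool.Agent.H824

open MvPolynomial

/-- The field generated over `K` by the ratios of the members of a family of elements of an
extension field. -/
def ratioField (K : Type*) {Ω α : Type*} [Field K] [Field Ω] [Algebra K Ω] (f : α → Ω) :
    IntermediateField K Ω :=
  IntermediateField.adjoin K {u | ∃ i j, u = f i / f j}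

/-- The transcendence degree of a (finitely generated) field extension. -/
noncomputable def fieldDim (K F : Type*) [Field K] [Field F] [Algebra K F] : ℕ :=
  Cardinal.toNat (Algebra.trdeg K F)

/-- The gonality of a function field `F` of transcendence degree one over `K`: the least degree
`[F : K(f)]` for `f` in `F` transcendental over `K`. -/
noncomputable def fieldGonality (K F : Type*) [Field K] [Field F] [Algebra K F] : ℕ :=
  sInf {d : ℕ | 0 < d ∧ ∃ f : F, Transcendental K f ∧
    Module.finrank (IntermediateField.adjoin K {f}) F = d}

/-- An integral closed subvariety of the projective space `ℙ(k^ι)`, given by its homogeneous prime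
ideal, which does not contain all the coordinates. -/
structure ProjVariety (k : Type*) [Field k] (ι : Type*) where
  /-- the homogeneous ideal of the variety -/
  ideal : Ideal (MvPolynomial ι k)
  prime : ideal.IsPrime
  homogeneous : ∀ F ∈ ideal, ∀ d, homogeneousComponent d F ∈ ideal
  relevant : ∃ i, (X i : MvPolynomial ι k) ∉ ideal

namespace ProjVariety

variable {k : Type*} [Field k] {ι : Type*} (V : ProjVariety k ι)

instance : V.ideal.IsPrime := V.prime

/-- The homogeneous coordinate ring of the variety. -/
def CoordRing : Type _ := MvPolynomial ι k ⧸ V.ideal

noncomputable instance : CommRing V.CoordRing := Ideal.Quotient.commRing V.ideal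

instance : IsDomain V.CoordRing := Ideal.Quotient.isDomain V.ideal

noncomputable instance : Algebra k V.CoordRing :=
  (inferInstance : Algebra k (MvPolynomial ι k ⧸ V.ideal))

/-- The element of the homogeneous coordinate ring defined by a polynomial. -/
noncomputable def toCoord : MvPolynomial ι k →ₐ[k] V.CoordRing :=
  Ideal.Quotient.mkₐ k V.ideal

/-- The fraction field of the homogeneous coordinate ring. -/
def ConeField : Type _ := FractionRing V.CoordRing

noncomputable instance : Field V.ConeField := FractionRing.field V.CoordRing

noncomputable instance : Algebra V.CoordRing V.ConeField :=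
  (inferInstance : Algebra V.CoordRing (FractionRing V.CoordRing))

instance : IsFractionRing V.CoordRing V.ConeField :=
  (inferInstance : IsFractionRing V.CoordRing (FractionRing V.CoordRing))

noncomputable instance : Algebra k V.ConeField :=
  (inferInstance : Algebra k (FractionRing V.CoordRing))

instance : IsScalarTower k V.CoordRing V.ConeField :=
  (inferInstance : IsScalarTower k V.CoordRing (FractionRing V.CoordRing))

/-- The element of the fraction field of the homogeneous coordinate ring defined by a
polynomial. -/
noncomputable def el (F : MvPolynomial ι k) : V.ConeField :=
  algebraMap V.CoordRing V.ConeField (V.toCoord F)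

/-- The function field `k(V)`, generated over `k` by the ratios of the homogeneous coordinates. -/
noncomputable def functionField : IntermediateField k V.ConeField :=
  ratioField k (fun i : ι => V.el (X i))

/-- The dimension of the variety: the transcendence degree of its function field. -/
noncomputable def dim : ℕ := fieldDim k V.functionField

/-- The points of the variety: nonzero vectors of homogeneous coordinates at which the ideal
vanishes. -/
def points : Set (ι → k) := {z | z ≠ 0 ∧ ∀ F ∈ V.ideal, eval z F = 0}

/-- The Zariski tangent space, at the point `z`, of the affine cone over the variety. -/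
def coneTangent [Fintype ι] (z : ι → k) : Submodule k (ι → k) where
  carrier := {v | ∀ F ∈ V.ideal, ∑ i, v i * eval z (pderiv i F) = 0}
  zero_mem' := by
    intro F _
    simp
  add_mem' := by
    intro v w hv hw F hF
    have h1 := hv F hF
    have h2 := hw F hF
    simp only [Pi.add_apply, add_mul, Finset.sum_add_distrib, h1, h2, add_zero]
  smul_mem' := by
    intro c v hv F hF
    have h1 := hv F hF
    simp only [Pi.smul_apply, smul_eq_mul, mul_assoc, ← Finset.mul_sum, h1, mul_zero]

/-- Smoothness (Jacobian criterion): at every point the tangent space of the affine cone has
dimension at most `dim V + 1` (the opposite inequality always holds). -/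
def IsSmooth [Fintype ι] : Prop :=
  ∀ z ∈ V.points, Module.finrank k (V.coneTangent z) ≤ V.dim + 1

/-- The gonality of an integral projective curve `V`: the least degree of a nonconstant morphism
from the normalization of `V` to `ℙ¹`, that is, the least degree `[k(V) : k(f)]` for `f` in `k(V)`
transcendental over `k`. -/
noncomputable def gonality : ℕ := fieldGonality k V.functionField

/-- A dominant rational map `V ⇢ ℙⁿ`, given by `n + 1` forms of the same degree that satisfy no
polynomial relation on (the affine cone over) `V`. -/
structure DominantMap (n : ℕ) where
  /-- the common degree of the forms -/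
  formDegree : ℕ
  /-- the forms -/
  form : Fin (n + 1) → MvPolynomial ι k
  isHomogeneous : ∀ i, (form i).IsHomogeneous formDegree
  dominant : AlgebraicIndependent k (fun i => V.el (form i))

namespace DominantMap

variable {V} {n : ℕ} (ψ : V.DominantMap n)

/-- The subfield `ψ^* k(ℙⁿ)` of the function field of `V`. -/
noncomputable def pullbackField : IntermediateField k V.ConeField :=
  ratioField k (fun i => V.el (ψ.form i))

/-- The degree `[k(V) : ψ^* k(ℙⁿ)]` of the rational map, as a cardinal. -/
noncomputable def degree : Cardinal :=
  IntermediateField.relrank ψ.pullbackField V.functionField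

/-- The preimage `ψ⁻¹(L)` of the projectivization of a subset `L` of `k^(n+1)`: the points `z` of
`V` at which `ψ` is defined, i.e. at which `ψ` has a representative `(G_0 : … : G_n)` by forms of
the same degree, not all vanishing at `z`, and for which `(G_0(z), …, G_n(z))` belongs to `L`. -/
def preimage (L : Set (Fin (n + 1) → k)) : Set (ι → k) :=
  {z | z ∈ V.points ∧ ∃ (e : ℕ) (G : Fin (n + 1) → MvPolynomial ι k),
    (∀ i, (G i).IsHomogeneous e) ∧ (∀ i j, G i * ψ.form j - G j * ψ.form i ∈ V.ideal) ∧
    (fun i => eval z (G i)) ≠ 0 ∧ (fun i => eval z (G i)) ∈ L}

end DominantMap

end ProjVariety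

/-- A property holds for the general line of `ℙⁿ`: there is a nonzero polynomial `Φ` in
`2(n+1)` variables such that the property holds for each line spanned by two points `p`, `q`
with `Φ(p, q) ≠ 0`. (Lines are given as two-dimensional subspaces of `k^(n+1)`. This is the same as
saying that the property holds for all the lines of some nonempty Zariski-open subset of the
Grassmannian, the map `(p, q) ↦ pq` being open and surjective.) -/
def ForGeneralLine (k : Type*) [Field k] (n : ℕ)
    (P : Submodule k (Fin (n + 1) → k) → Prop) : Prop :=
  ∃ Φ : MvPolynomial (Fin 2 × Fin (n + 1)) k, Φ ≠ 0 ∧
    ∀ v : Fin 2 → Fin (n + 1) → k, LinearIndependent k v →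
      eval (fun i => v i.1 i.2) Φ ≠ 0 → P (Submodule.span k (Set.range v))

end Pool.Agent.H824
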