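import Pool.Agent.H824.NonRat

namespace Pool.Agent.H824

open MvPolynomial

variable {k : Type*} [Field k]

theorem exists_poly_cross {σ : Type*} [CharP k 2] (x y : Fin 3 → MvPolynomial σ k)
    (hy : ∀ p, Prime p → ¬ ∀ i, p ∣ y i) (hy0 : y ≠ 0)
    (h1 : ∑ i, y i ^ 2 * x i = 0) (j : σ) :
    ∃ l : MvPolynomial σ k, ∀ c, cr x (fun i => pderiv j (x i)) c = l * y c ^ 2 := by
  classical
  have h2 : ∑ i, y i ^ 2 * pderiv j (x i) = 0 := by
    have h := congrArg (pderiv j) h1
    rw [map_sum, map_zero] at h
    rw [← h]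
    apply Finset.sum_congr rfl
    intro i _
    have h2 : ((2 : ℕ) : MvPolynomial σ k) = 0 := CharP.cast_eq_zero _ _
    rw [Derivation.leibniz, pderiv_pow, h2]
    simp
  let M := FractionRing (MvPolynomial σ k)
  let ι := algebraMap (MvPolynomial σ k) M
  have hι : Function.Injective ι := IsFractionRing.injective _ _
  obtain ⟨l, hl⟩ := exists_cross (M := M) (fun i => ι (x i)) (fun i => ι (pderiv j (x i)))
    (fun i => ι (y i) ^ 2)
    (by
      intro h
      apply hy0
      funext i
      have h3 := congrFun h i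
      simp only [Pi.zero_apply] at h3
      have h4 := pow_eq_zero_iff (two_ne_zero) |>.mp h3
      exact hι (by rw [h4]; simp))
    (by
      have h := congrArg ι h1
      simpa [map_sum] using h)
    (by
      have h := congrArg ι h2
      simpa [map_sum] using h)
  obtain ⟨q, hq⟩ := mem_of_primitive y hy l (by
    intro i
    refine ⟨cr x (fun i => pderiv j (x i)) i, ?_⟩
    rw [← hl i]
    simp [cr, ι, M])
  refine ⟨q, fun c => ?_⟩
  apply hι
  have := hl c
  rw [← hq] at this
  simp only [cr, map_sub, map_mul, map_pow] at this ⊢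
  exact this

theorem deg_sub {σ : Type*} (a b : MvPolynomial σ k) (N : ℕ) (h : a - b ≠ 0)
    (ha : a = 0 ∨ a.totalDegree + 1 ≤ N) (hb : b = 0 ∨ b.totalDegree + 1 ≤ N) :
    (a - b).totalDegree + 1 ≤ N := by
  rcases ha with rfl | ha
  · rcases hb with rfl | hb
    · simp at h
    · simpa using hb
  · rcases hb with rfl | hb
    · simpa using ha
    · have := totalDegree_sub a b
      have h2 : max a.totalDegree b.totalDegree + 1 ≤ N := by
        rcases le_total a.totalDegree b.totalDegree with h3 | h3
        · rw [max_eq_right h3]; exact hb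
        · rw [max_eq_left h3]; exact ha
      omega

theorem exists_max {σ : Type*} (y : Fin 3 → MvPolynomial σ k) (hy : y ≠ 0) :
    ∃ c, y c ≠ 0 ∧ ∀ i, (y i).totalDegree ≤ (y c).totalDegree := by
  classical
  obtain ⟨c, -, hc⟩ := Finset.exists_max_image Finset.univ (fun i => (y i).totalDegree)
    ⟨0, Finset.mem_univ _⟩
  by_cases h : y c = 0
  · obtain ⟨d, hd⟩ : ∃ d, y d ≠ 0 := by
      by_contra h2
      push Not at h2
      exact hy (funext h2)
    refine ⟨d, hd, fun i => ?_⟩
    have := hc i (Finset.mem_univ _)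
    rw [h] at this
    simp at this
    omega
  · exact ⟨c, h, fun i => hc i (Finset.mem_univ _)⟩

theorem deg_lt {σ : Type*} (x y : Fin 3 → MvPolynomial σ k) (j : σ) (l : MvPolynomial σ k)
    (hl : ∀ c, cr x (fun i => pderiv j (x i)) c = l * y c ^ 2) (hl0 : l ≠ 0)
    (m n : ℕ) (hm : ∀ i, (x i).totalDegree ≤ m) (c : Fin 3) (hc : y c ≠ 0)
    (hn : (y c).totalDegree = n) : n < m := by
  have h1 := hl c
  have h2 : l * y c ^ 2 ≠ 0 := mul_ne_zero hl0 (pow_ne_zero _ hc)
  have h3 : (l * y c ^ 2).totalDegree = l.totalDegree + 2 * n := by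
    rw [totalDegree_mul_of_isDomain hl0 (pow_ne_zero _ hc), sq, totalDegree_mul_of_isDomain hc hc,
      hn]
    ring
  have h4 : (cr x (fun i => pderiv j (x i)) c).totalDegree + 1 ≤ 2 * m := by
    change (x (c + 1) * pderiv j (x (c + 2)) - x (c + 2) * pderiv j (x (c + 1))).totalDegree + 1
      ≤ 2 * m
    apply deg_sub
    · rw [← h1] at h2
      exact h2
    · rcases totalDegree_mul_pderiv (x (c + 1)) (x (c + 2)) j with h | h
      · exact Or.inl h
      · right
        have := hm (c + 1)
        have := hm (c + 2)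
        omega
    · rcases totalDegree_mul_pderiv (x (c + 2)) (x (c + 1)) j with h | h
      · exact Or.inl h
      · right
        have := hm (c + 1)
        have := hm (c + 2)
        omega
  rw [h1, h3] at h4
  omega

/-- If a derivation of a field kills all the ratios of the entries of two vectors and those
generate the field, then it is zero. -/
theorem deriv_zero {M : Type*} [Field M] [Algebra k M] (x y : Fin 3 → M)
    (D : Derivation k M M)
    (hD1 : ∀ a b, x a * D (x b) = x b * D (x a))
    (hD2 : ∀ a b, y a * D (y b) = y b * D (y a))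
    (hgen : ∀ E : IntermediateField k M, (∀ a b, x a / x b ∈ E) → (∀ a b, y a / y b ∈ E) → E = ⊤)
    (u : M) : D u = 0 := by
  have key : ∀ (v w : M), v * D w = w * D v → D (v / w) = 0 := by
    intro v w h
    by_cases hw : w = 0
    · simp [hw]
    · rw [Derivation.leibniz_div]
      rw [smul_eq_mul, smul_eq_mul, smul_eq_mul, h, sub_self, mul_zero]
  let E : IntermediateField k M :=
    { carrier := {u | D u = 0}
      mul_mem' := by
        intro a b ha hb
        simp only [Set.mem_ofPred_eq] at ha hb ⊢
        simp [ha, hb]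
      add_mem' := by
        intro a b ha hb
        simp only [Set.mem_ofPred_eq] at ha hb ⊢
        simp [ha, hb]
      algebraMap_mem' := by
        intro r
        simp
      inv_mem' := by
        intro a ha
        simp only [Set.mem_ofPred_eq] at ha ⊢
        simp [Derivation.leibniz_inv, ha] }
  have hE := hgen E (fun a b => key _ _ (hD1 a b)) (fun a b => key _ _ (hD2 a b))
  have : u ∈ E := by rw [hE]; trivial
  exact this

theorem cr_zero {R : Type*} [CommRing R] (v w : Fin 3 → R) (h : ∀ c, cr v w c = 0) (a b : Fin 3) :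
    v a * w b = v b * w a := by
  have h0 := h 0
  have h1 := h 1
  have h2 := h 2
  simp [cr] at h0 h1 h2
  fin_cases a <;> fin_cases b <;> simp <;>
  first
  | linear_combination h0
  | linear_combination -h0
  | linear_combination h1
  | linear_combination -h1
  | linear_combination h2
  | linear_combination -h2

theorem nonrational_aux [CharP k 2] (M : Type*) [Field M] [Algebra k M]
    [Algebra (MvPolynomial (Fin 2) k) M] [IsScalarTower k (MvPolynomial (Fin 2) k) M]
    [IsFractionRing (MvPolynomial (Fin 2) k) M]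
    (x y : Fin 3 → MvPolynomial (Fin 2) k) (hx0 : x ≠ 0)
    (hx : ∀ p, Prime p → ¬ ∀ i, p ∣ x i)
    (h2 : ∑ i, x i ^ 2 * y i = 0)
    (hgen : ∀ E : IntermediateField k M,
      (∀ a b, algebraMap _ M (x a) / algebraMap _ M (x b) ∈ E) →
      (∀ a b, algebraMap _ M (y a) / algebraMap _ M (y b) ∈ E) → E = ⊤)
    (hx1 : ∀ j c, cr x (fun i => pderiv j (x i)) c = 0) : False := by
  classical
  set ι := algebraMap (MvPolynomial (Fin 2) k) M with hι
  choose μ hμ using fun j => exists_poly_cross y x hx hx0 h2 j
  have main : ∀ d : Fin 2 → M, d 0 * ι (μ 0) + d 1 * ι (μ 1) = 0 → d = 0 := by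
    intro d hd
    obtain ⟨D, hD⟩ := exists_derivation (k := k) (σ := Fin 2) M d
    have hDp : ∀ p, D (ι p) = ι (pderiv 0 p) * d 0 + ι (pderiv 1 p) * d 1 := by
      intro p
      rw [derivation_poly M D p, Fin.sum_univ_two, hD, hD]
    have hz := deriv_zero (k := k) (fun i => ι (x i)) (fun i => ι (y i)) D ?_ ?_ hgen
    · funext j
      rw [← hD j, hz]
      rfl
    · apply cr_zero (fun i => ι (x i)) (fun i => D (ι (x i)))
      intro c
      have e0 := congrArg ι (hx1 0 c)
      have e1 := congrArg ι (hx1 1 c)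
      simp only [cr, map_sub, map_mul, map_zero] at e0 e1
      simp only [cr, hDp]
      linear_combination (d 0) * e0 + (d 1) * e1
    · apply cr_zero (fun i => ι (y i)) (fun i => D (ι (y i)))
      intro c
      have e0 := congrArg ι (hμ 0 c)
      have e1 := congrArg ι (hμ 1 c)
      simp only [cr, map_sub, map_mul, map_pow] at e0 e1
      simp only [cr, hDp]
      linear_combination (d 0) * e0 + (d 1) * e1 + ι (x c) ^ 2 * hd
  by_cases h : μ 0 = 0 ∧ μ 1 = 0
  · have := main (fun _ => 1) (by simp [h.1, h.2])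
    have := congrFun this 0
    simp at this
  · have := main ![ι (μ 1), - ι (μ 0)] (by simp; ring)
    have e0 := congrFun this 0
    have e1 := congrFun this 1
    simp [hι] at e0 e1
    exact h ⟨e1, e0⟩

theorem nonrational [CharP k 2] (M : Type*) [Field M] [Algebra k M]
    [Algebra (MvPolynomial (Fin 2) k) M] [IsScalarTower k (MvPolynomial (Fin 2) k) M]
    [IsFractionRing (MvPolynomial (Fin 2) k) M]
    (x y : Fin 3 → M) (hx : x ≠ 0) (hy : y ≠ 0)
    (h1 : ∑ i, y i ^ 2 * x i = 0) (h2 : ∑ i, x i ^ 2 * y i = 0)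
    (hgen : ∀ E : IntermediateField k M, (∀ a b, x a / x b ∈ E) → (∀ a b, y a / y b ∈ E) → E = ⊤) :
    False := by
  classical
  obtain ⟨g, x', hg, hxx, hxp⟩ := exists_primitive (P := MvPolynomial (Fin 2) k) x hx
  obtain ⟨g', y', hg', hyy, hyp⟩ := exists_primitive (P := MvPolynomial (Fin 2) k) y hy
  set ι := algebraMap (MvPolynomial (Fin 2) k) M with hι
  have hinj : Function.Injective ι := IsFractionRing.injective _ _
  have hx' : x' ≠ 0 := by
    rintro rfl
    apply hx
    funext i
    rw [hxx i]
    simp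
  have hy' : y' ≠ 0 := by
    rintro rfl
    apply hy
    funext i
    rw [hyy i]
    simp
  have h1' : ∑ i, y' i ^ 2 * x' i = 0 := by
    apply hinj
    have : (g' ^ 2 * g) * ι (∑ i, y' i ^ 2 * x' i) = 0 := by
      rw [← h1, map_sum, Finset.mul_sum]
      apply Finset.sum_congr rfl
      intro i _
      rw [hxx, hyy, map_mul, map_pow]
      ring
    rw [map_zero]
    exact (mul_eq_zero.mp this).resolve_left (mul_ne_zero (pow_ne_zero _ hg') hg)
  have h2' : ∑ i, x' i ^ 2 * y' i = 0 := by
    apply hinj
    have : (g ^ 2 * g') * ι (∑ i, x' i ^ 2 * y' i) = 0 := by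
      rw [← h2, map_sum, Finset.mul_sum]
      apply Finset.sum_congr rfl
      intro i _
      rw [hxx, hyy, map_mul, map_pow]
      ring
    rw [map_zero]
    exact (mul_eq_zero.mp this).resolve_left (mul_ne_zero (pow_ne_zero _ hg) hg')
  have hgen' : ∀ E : IntermediateField k M,
      (∀ a b, ι (x' a) / ι (x' b) ∈ E) → (∀ a b, ι (y' a) / ι (y' b) ∈ E) → E = ⊤ := by
    intro E e1 e2
    apply hgen E
    · intro a b
      rw [hxx, hxx, mul_div_mul_left _ _ hg]
      exact e1 a b
    · intro a b
      rw [hyy, hyy, mul_div_mul_left _ _ hg']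
      exact e2 a b
  choose l hl using fun j => exists_poly_cross x' y' hyp hy' h1' j
  choose μ hμ using fun j => exists_poly_cross y' x' hxp hx' h2' j
  obtain ⟨cx, hcx, hcx'⟩ := exists_max x' hx'
  obtain ⟨cy, hcy, hcy'⟩ := exists_max y' hy'
  by_cases hl0 : ∀ j, l j = 0
  · apply nonrational_aux M x' y' hx' hxp h2' hgen'
    intro j c
    rw [hl, hl0, zero_mul]
  · push Not at hl0
    obtain ⟨j, hj⟩ := hl0
    have hlt := deg_lt x' y' j (l j) (hl j) hj _ _ hcx' cy hcy rfl
    apply nonrational_aux M y' x' hy' hyp h1' (fun E e1 e2 => hgen' E e2 e1)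
    intro i c
    by_cases hi : μ i = 0
    · rw [hμ, hi, zero_mul]
    · exfalso
      have := deg_lt y' x' i (μ i) (hμ i) hi _ _ hcy' cx hcx rfl
      omega

end Pool.Agent.H824
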