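import Pool.Agent.H824.Homog
import Pool.Agent.H824.NonRat2

namespace Pool.Agent.H824

open MvPolynomial

namespace ProjVariety

variable {k : Type*} [Field k] {ι : Type*} (V : ProjVariety k ι)

theorem el_eq_aeval (G : MvPolynomial ι k) : V.el G = aeval (fun i => V.el (X i)) G := by
  have : (IsScalarTower.toAlgHom k V.CoordRing V.ConeField).comp V.toCoord =
      aeval (fun i => V.el (X i)) := by
    apply MvPolynomial.algHom_ext
    intro i
    simp [el]
  rw [← this]
  rfl

theorem el_mul (F G : MvPolynomial ι k) : V.el (F * G) = V.el F * V.el G := by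
  simp [el]

theorem el_eq_zero_iff (F : MvPolynomial ι k) : V.el F = 0 ↔ F ∈ V.ideal := by
  unfold el
  rw [map_eq_zero_iff _ (IsFractionRing.injective V.CoordRing V.ConeField)]
  exact Ideal.Quotient.eq_zero_iff_mem

theorem ratio_mem (G H : MvPolynomial ι k) (e : ℕ) (hG : G.IsHomogeneous e)
    (hH : H.IsHomogeneous e) : V.el G / V.el H ∈ V.functionField := by
  obtain ⟨i0, hi0⟩ := V.relevant
  have hc : V.el (X i0) ≠ 0 := by
    rw [Ne, el_eq_zero_iff]
    exact hi0
  have key : ∀ (P : MvPolynomial ι k), P.IsHomogeneous e →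
      ∃ w ∈ V.functionField, V.el P = V.el (X i0) ^ e * w := by
    intro P hP
    have hr : ∀ i, V.el (X i) / V.el (X i0) ∈ V.functionField := fun i =>
      IntermediateField.subset_adjoin _ _ ⟨i, i0, rfl⟩
    refine ⟨aeval (fun i => V.el (X i) / V.el (X i0)) P, ?_, ?_⟩
    · let r : ι → V.functionField := fun i => ⟨_, hr i⟩
      have : aeval (fun i => V.el (X i) / V.el (X i0)) P =
          algebraMap V.functionField V.ConeField (aeval r P) := by
        rw [← MvPolynomial.aeval_algebraMap_apply]
        rfl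
      rw [this]
      exact (aeval r P).2
    · rw [el_eq_aeval, ← aeval_smul_of_homog P hP]
      congr 2
      funext i
      field_simp
  obtain ⟨w, hw, hw'⟩ := key G hG
  obtain ⟨v, hv, hv'⟩ := key H hH
  rw [hw', hv', mul_div_mul_left _ _ (pow_ne_zero _ hc)]
  exact div_mem hw hv

theorem pullbackField_le {n : ℕ} (ψ : V.DominantMap n) : ψ.pullbackField ≤ V.functionField := by
  unfold DominantMap.pullbackField ratioField
  rw [IntermediateField.adjoin_le_iff]
  rintro u ⟨i, j, rfl⟩
  exact V.ratio_mem _ _ _ (ψ.isHomogeneous i) (ψ.isHomogeneous j)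

end ProjVariety

theorem nonrational_field {k Ω : Type*} [Field k] [Field Ω] [Algebra k Ω] [CharP k 2]
    (E : IntermediateField k Ω) (s : Fin 2 → Ω) (hs : AlgebraicIndependent k s)
    (hE : E = IntermediateField.adjoin k (Set.range s))
    (x y : Fin 3 → Ω) (a0 b0 : Fin 3) (hx : x a0 ≠ 0) (hy : y b0 ≠ 0)
    (h1 : ∑ i, y i ^ 2 * x i = 0) (h2 : ∑ i, x i ^ 2 * y i = 0)
    (hxE : ∀ a b, x a / x b ∈ E) (hyE : ∀ a b, y a / y b ∈ E)
    (hgen : ∀ E' : IntermediateField k Ω, (∀ a b, x a / x b ∈ E') → (∀ a b, y a / y b ∈ E') →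
      E ≤ E') : False := by
  subst hE
  let M := FractionRing (MvPolynomial (Fin 2) k)
  let e : M ≃ₐ[k] IntermediateField.adjoin k (Set.range s) := hs.aevalEquivField
  let x' : Fin 3 → M := fun a => e.symm ⟨_, hxE a a0⟩
  let y' : Fin 3 → M := fun a => e.symm ⟨_, hyE a b0⟩
  have hex : ∀ a, (e (x' a) : Ω) = x a / x a0 := by
    intro a
    simp [x']
  have hey : ∀ a, (e (y' a) : Ω) = y a / y b0 := by
    intro a
    simp [y']
  have hinj : ∀ u v : M, (e u : Ω) = e v → u = v := by
    intro u v h
    exact e.injective (Subtype.ext h)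
  apply nonrational (k := k) M x' y'
  · intro h
    have h3 := hex a0
    rw [h, div_self hx] at h3
    simp at h3
  · intro h
    have h3 := hey b0
    rw [h, div_self hy] at h3
    simp at h3
  · apply hinj
    have : (y b0 ^ 2 * x a0) * (e (∑ i, y' i ^ 2 * x' i) : Ω) = 0 := by
      rw [map_sum, ← h1]
      push_cast
      rw [Finset.mul_sum]
      apply Finset.sum_congr rfl
      intro i _
      rw [map_mul, map_pow]
      push_cast
      rw [hex, hey]
      field_simp
    rw [map_zero]
    exact (mul_eq_zero.mp this).resolve_left (mul_ne_zero (pow_ne_zero _ hy) hx)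
  · apply hinj
    have : (x a0 ^ 2 * y b0) * (e (∑ i, x' i ^ 2 * y' i) : Ω) = 0 := by
      rw [map_sum, ← h2]
      push_cast
      rw [Finset.mul_sum]
      apply Finset.sum_congr rfl
      intro i _
      rw [map_mul, map_pow]
      push_cast
      rw [hex, hey]
      field_simp
    rw [map_zero]
    exact (mul_eq_zero.mp this).resolve_left (mul_ne_zero (pow_ne_zero _ hx) hy)
  · intro E' e1 e2
    let f : M →ₐ[k] Ω := (IntermediateField.val _).comp e.toAlgHom
    have hf : ∀ u, f u = e u := fun u => rfl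
    have hle := hgen (E'.map f) ?_ ?_
    · rw [eq_top_iff]
      intro u _
      obtain ⟨w, hw, hw'⟩ := hle (e u).2
      have : w = u := hinj _ _ hw'
      rw [← this]
      exact hw
    · intro a b
      refine ⟨x' a / x' b, e1 a b, ?_⟩
      change f (x' a / x' b) = _
      rw [map_div₀, hf, hf, hex, hex]
      field_simp
    · intro a b
      refine ⟨y' a / y' b, e2 a b, ?_⟩
      change f (y' a / y' b) = _
      rw [map_div₀, hf, hf, hey, hey]
      field_simp

theorem two_le_degree {k : Type*} [Field k] {ι : Type*} (V : ProjVariety k ι) [CharP k 2]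
    (x y : Fin 3 → V.ConeField) (a0 b0 : Fin 3) (hx : x a0 ≠ 0) (hy : y b0 ≠ 0)
    (h1 : ∑ i, y i ^ 2 * x i = 0) (h2 : ∑ i, x i ^ 2 * y i = 0)
    (hxE : ∀ a b, x a / x b ∈ V.functionField) (hyE : ∀ a b, y a / y b ∈ V.functionField)
    (hgen : ∀ E' : IntermediateField k V.ConeField, (∀ a b, x a / x b ∈ E') →
      (∀ a b, y a / y b ∈ E') → V.functionField ≤ E') (ψ : V.DominantMap 2) :
    2 ≤ ψ.degree := by
  by_contra hlt
  rw [not_le] at hlt
  have h3 : ψ.degree ≠ 0 := by
    unfold ProjVariety.DominantMap.degree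
    rw [IntermediateField.relrank_eq_rank_of_le (V.pullbackField_le ψ)]
    exact (rank_pos).ne'
  have h4 : ψ.degree = 1 := by
    have h5 : ψ.degree < Cardinal.aleph0 := hlt.trans ((Cardinal.natCast_lt_aleph0 (n := 2)))
    obtain ⟨n, hn⟩ := Cardinal.lt_aleph0.mp h5
    rw [hn] at h3 hlt ⊢
    have h6 : n < 2 := by exact_mod_cast hlt
    have h7 : n ≠ 0 := by exact_mod_cast h3
    have : n = 1 := by omega
    rw [this]
    simp
  unfold ProjVariety.DominantMap.degree at h4
  rw [IntermediateField.relrank_eq_one_iff] at h4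
  have hE : V.functionField = ψ.pullbackField := le_antisymm h4 (V.pullbackField_le ψ)
  have hF := ψ.dominant
  set F : Fin 3 → V.ConeField := fun i => V.el (ψ.form i) with hFdef
  have hF0 : ∀ i, F i ≠ 0 := fun i => hF.ne_zero i
  have hs := ratio_indep F hF
  apply nonrational_field V.functionField _ hs ?_ x y a0 b0 hx hy h1 h2 hxE hyE hgen
  rw [hE]
  unfold ProjVariety.DominantMap.pullbackField ratioField
  apply le_antisymm
  · rw [IntermediateField.adjoin_le_iff]
    rintro u ⟨i, j, rfl⟩
    have key : ∀ i, F i / F 0 ∈ IntermediateField.adjoin k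
        (Set.range (fun i : Fin 2 => F i.succ / F 0)) := by
      intro i
      refine Fin.cases ?_ (fun j => ?_) i
      · rw [div_self (hF0 0)]
        exact one_mem _
      · exact IntermediateField.subset_adjoin _ _ ⟨j, rfl⟩
    have : F i / F j = (F i / F 0) / (F j / F 0) := by
      have := hF0 0
      have := hF0 j
      field_simp
    change F i / F j ∈ _
    rw [this]
    exact div_mem (key i) (key j)
  · rw [IntermediateField.adjoin_le_iff]
    rintro u ⟨i, rfl⟩
    exact IntermediateField.subset_adjoin _ _ ⟨i.succ, 0, rfl⟩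

end Pool.Agent.H824
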