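import Mathlib

namespace Pool.Agent.H824

open MvPolynomial

variable {k : Type*} [Field k] {σ : Type*}

/-- A derivation of the fraction field of a polynomial ring with prescribed values at the
variables. -/
theorem exists_derivation (M : Type*) [Field M] [Algebra k M] [Algebra (MvPolynomial σ k) M]
    [IsScalarTower k (MvPolynomial σ k) M] [IsFractionRing (MvPolynomial σ k) M] (c : σ → M) :
    ∃ D : Derivation k M M, ∀ i, D (algebraMap (MvPolynomial σ k) M (X i)) = c i := by
  classical
  let g : MvPolynomial σ k →ₐ[k] TrivSqZeroExt M M :=
    aeval (fun i => TrivSqZeroExt.inl (algebraMap (MvPolynomial σ k) M (X i)) +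
      TrivSqZeroExt.inr (c i))
  have hfst : ∀ q, (g q).fst = algebraMap (MvPolynomial σ k) M q := by
    intro q
    have : ((TrivSqZeroExt.fstHom k M M).comp g) = IsScalarTower.toAlgHom k _ M := by
      apply MvPolynomial.algHom_ext
      intro i
      simp [g]
    exact DFunLike.congr_fun this q
  have hu : ∀ y : nonZeroDivisors (MvPolynomial σ k), IsUnit (g.toRingHom y) := by
    intro y
    rw [TrivSqZeroExt.isUnit_iff_isUnit_fst]
    change IsUnit (g y.1).fst
    rw [hfst]
    exact IsLocalization.map_units M y
  let φ : M →+* TrivSqZeroExt M M := IsLocalization.lift (M := nonZeroDivisors (MvPolynomial σ k)) hu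
  have hφ : ∀ q, φ (algebraMap (MvPolynomial σ k) M q) = g q := by
    intro q
    exact IsLocalization.lift_eq hu q
  have hφfst : ∀ u, (φ u).fst = u := by
    intro u
    have : ((TrivSqZeroExt.fstHom k M M).toRingHom.comp φ) = RingHom.id M := by
      apply IsLocalization.ringHom_ext (nonZeroDivisors (MvPolynomial σ k))
      apply RingHom.ext
      intro q
      simp only [RingHom.comp_apply]
      rw [hφ]
      change (g _).fst = _
      rw [hfst]
      rfl
    exact DFunLike.congr_fun this u
  have hφk : ∀ a : k, φ (algebraMap k M a) = TrivSqZeroExt.inl (algebraMap k M a) := by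
    intro a
    rw [IsScalarTower.algebraMap_apply k (MvPolynomial σ k) M, hφ]
    have : g (algebraMap k _ a) = algebraMap k _ a := g.commutes a
    rw [this]
    rw [← IsScalarTower.algebraMap_apply]
    rfl
  refine ⟨Derivation.mk' 
    { toFun := fun u => (φ u).snd
      map_add' := fun u v => by simp
      map_smul' := fun a u => by
        simp only [Algebra.smul_def, map_mul, hφk, RingHom.id_apply, TrivSqZeroExt.snd_mul,
          TrivSqZeroExt.fst_inl, TrivSqZeroExt.snd_inl, smul_zero, add_zero]
        simp } ?_, ?_⟩
  · intro u v
    simp only [LinearMap.coe_mk, AddHom.coe_mk, map_mul, TrivSqZeroExt.snd_mul, hφfst]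
    simp [mul_comm]
  · intro i
    change (φ _).snd = c i
    rw [hφ]
    simp [g]

/-- The value of a derivation on a polynomial. -/
theorem derivation_poly [Fintype σ] (M : Type*) [Field M] [Algebra k M] [Algebra (MvPolynomial σ k) M]
    [IsScalarTower k (MvPolynomial σ k) M] (D : Derivation k M M) (p : MvPolynomial σ k) :
    D (algebraMap (MvPolynomial σ k) M p) =
      ∑ i, algebraMap (MvPolynomial σ k) M (pderiv i p) * D (algebraMap (MvPolynomial σ k) M (X i)) := by
  classical
  induction p using MvPolynomial.induction_on with
  | C a =>
    have : algebraMap (MvPolynomial σ k) M (C a) = algebraMap k M a := by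
      rw [IsScalarTower.algebraMap_apply k (MvPolynomial σ k) M]
      rfl
    rw [this]
    simp
  | add p q hp hq =>
    simp only [map_add, hp, hq, add_mul, Finset.sum_add_distrib]
  | mul_X p j hp =>
    simp only [map_mul, Derivation.leibniz, smul_eq_mul, hp, pderiv_X, map_add]
    simp only [add_mul, Finset.sum_add_distrib]
    congr 1
    · rw [Finset.sum_eq_single j]
      · simp
      · intro b _ hb
        simp [hb.symm]
      · simp
    · rw [Finset.mul_sum]
      apply Finset.sum_congr rfl
      intro i _
      ring

end Pool.Agent.H824
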