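import Pool.Agent.H824.Lines2

namespace Pool.Agent.H824

open MvPolynomial

variable {k : Type*} [Field k]

theorem general_line [CharP k 2] [IsAlgClosed k] (v : Fin 2 → Fin 3 → k)
    (hv : ∀ c : Fin 3 → k, (∀ i, c i ^ 4 = c i) → c ≠ 0 → ∑ i, c i * cr (v 0) (v 1) i ≠ 0) :
    ∃ C : ProjVariety k (Fin 3 × Fin 3),
      C.ideal = vanishingIdeal k
        ((psi k).preimage (Submodule.span k (Set.range v) : Set (Fin 3 → k))) ∧
      C.dim = 1 ∧ C.gonality = 1 := by
  classical
  have hcr0 : v 0 1 * v 1 2 - v 0 2 * v 1 1 ≠ 0 := by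
    have := hv (Pi.single 0 1) (by
      intro i
      by_cases hi : i = 0
      · subst hi; simp
      · simp [hi]) (by
        intro h
        have := congrFun h 0
        simp at this)
    simpa [cr, Fin.sum_univ_three] using this
  choose P hP using fun i => IsAlgClosed.exists_pow_nat_eq (v 0 i) (n := 2) two_pos
  choose Q hQ using fun i => IsAlgClosed.exists_pow_nat_eq (v 1 i) (n := 2) two_pos
  -- some coordinate is not identically zero on the curve
  obtain ⟨⟨i0, j0⟩, h0⟩ : ∃ ij, zv (fun i => 1 * P i + 0 * Q i) ij ≠ 0 := by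
    have ht : (fun i => 1 * P i + 0 * Q i) ≠ 0 := by
      intro h
      apply hcr0
      have h1 : ∀ i, P i = 0 := by
        intro i
        have := congrFun h i
        simpa using this
      rw [← hP, ← hP, h1, h1]
      ring
    obtain ⟨j, hj⟩ := no_special v hv P Q hP hQ 1 0 ht
    obtain ⟨i, hi⟩ : ∃ i, (fun i => 1 * P i + 0 * Q i) i ≠ 0 := by
      by_contra h
      push Not at h
      exact ht (funext h)
    exact ⟨(i, j), mul_ne_zero (pow_ne_zero _ hi) hj⟩
  have hz0 : zv (ell P Q) (i0, j0) ≠ 0 := by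
    intro h
    have h1 := congrArg (eval ![(1 : k), 0]) h
    rw [eval_zv_ell, map_zero] at h1
    exact h0 h1
  let Cv : ProjVariety k (Fin 3 × Fin 3) := paramVariety (zv (ell P Q)) 7 (by norm_num)
    (zv_homog _ (ell_homog P Q)) ⟨_, hz0⟩
  have hmemC : ∀ F, F ∈ Cv.ideal ↔ aeval (zv (ell P Q)) F = 0 := by
    intro F
    change _ ∈ RingHom.ker _ ↔ _
    rw [RingHom.mem_ker]
  refine ⟨Cv, ?_, ?_⟩
  · ext F
    rw [hmemC, mem_vanishingIdeal_iff]
    constructor
    · intro hF z hz
      obtain ⟨a, b, rfl⟩ := preimage_sub v hv P Q hP hQ z hz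
      have h1 := congrArg (eval ![a, b]) hF
      rw [eval_aeval, map_zero] at h1
      have h2 : (fun ij => eval ![a, b] (zv (ell P Q) ij)) = zv (fun i => a * P i + b * Q i) := by
        funext ij
        rw [eval_zv_ell]
        simp
      rw [h2] at h1
      exact h1
    · intro hF
      have : aeval (zv (ell P Q)) F * zv (ell P Q) (i0, j0) = 0 := by
        apply MvPolynomial.funext
        intro w
        rw [map_mul, map_zero, eval_aeval]
        have h2 : (fun ij => eval w (zv (ell P Q) ij)) = zv (fun i => w 0 * P i + w 1 * Q i) := by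
          funext ij
          rw [eval_zv_ell]
        rw [h2, eval_zv_ell]
        by_cases hz : zv (fun i => w 0 * P i + w 1 * Q i) (i0, j0) = 0
        · rw [hz, mul_zero]
        · have h3 := hF _ (zv_mem_preimage v P Q hP hQ (w 0) (w 1) (by
            intro h
            exact hz (congrFun h _)))
          have h4 : eval (zv (fun i => w 0 * P i + w 1 * Q i)) F = 0 := h3
          rw [h4, zero_mul]
      exact (mul_eq_zero.mp this).resolve_right hz0
  · apply param_curve
    refine ⟨_, IntermediateField.subset_adjoin _ _ ⟨(1, j0), (2, j0), rfl⟩, ?_⟩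
    intro c hc
    have hyj : yv (ell P Q) j0 ≠ 0 := right_ne_zero_of_mul hz0
    have hx2 : xv (ell P Q) 2 ≠ 0 := by
      intro h
      have h1 : ell P Q 2 = 0 := (pow_eq_zero_iff two_ne_zero).mp h
      have e1 := congrArg (eval ![(1 : k), 0]) h1
      have e2 := congrArg (eval ![(0 : k), 1]) h1
      rw [eval_ell, map_zero] at e1 e2
      simp at e1 e2
      apply hcr0
      rw [← hP 2, ← hQ 2, e1, e2]
      ring
    have hden : Cv.el (X (2, j0)) ≠ 0 := by
      intro h
      rw [ProjVariety.el_eq_zero_iff, hmemC, aeval_X] at h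
      exact (mul_ne_zero hx2 hyj) h
    have h1 : Cv.el (X (1, j0)) = Cv.el (C c * X (2, j0)) := by
      rw [ProjVariety.el_mul]
      have : Cv.el (C c) = algebraMap k Cv.ConeField c := by
        rw [ProjVariety.el_eq_aeval, aeval_C]
      rw [this]
      change algebraMap k Cv.ConeField c = Cv.el (X (1, j0)) / Cv.el (X (2, j0)) at hc
      rw [hc, div_mul_cancel₀ _ hden]
    rw [ProjVariety.el_eq_iff, hmemC, map_sub, map_mul, aeval_X, aeval_X, aeval_C,
      sub_eq_zero] at h1
    have h2 : ell P Q 1 ^ 2 = C c * ell P Q 2 ^ 2 := by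
      apply mul_right_cancel₀ hyj
      simp only [zv, xv] at h1
      rw [h1]
      change C c * _ = _
      ring
    have e1 := congrArg (eval ![(1 : k), 0]) h2
    have e2 := congrArg (eval ![(0 : k), 1]) h2
    simp only [map_mul, map_pow, eval_ell, eval_C] at e1 e2
    simp [hP, hQ] at e1 e2
    apply hcr0
    rw [e1, e2]
    ring

theorem main_theorem (k : Type*) [Field k] [IsAlgClosed k] [CharP k 2] :
    ∃ (V : ProjVariety k (Fin 3 × Fin 3)) (ψ : V.DominantMap 2),
      V.dim = 2 ∧ V.IsSmooth ∧ ψ.degree = 2 ∧ (∀ φ : V.DominantMap 2, ψ.degree ≤ φ.degree) ∧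
      ForGeneralLine k 2 (fun L => ∃ C : ProjVariety k (Fin 3 × Fin 3),
        C.ideal = vanishingIdeal k (ψ.preimage L) ∧ C.dim = 1 ∧ C.gonality = 1) := by
  classical
  refine ⟨surf k, psi k, surf_dim, surf_smooth, psi_degree, ?_, ?_⟩
  · intro φ
    rw [psi_degree]
    exact surf_two_le φ
  · refine ⟨∏ c ∈ specialVecs k, detPoly c, ?_, ?_⟩
    · rw [Finset.prod_ne_zero_iff]
      intro c hc
      rw [mem_specialVecs] at hc
      exact detPoly_ne c hc.2
    · intro v _ hv
      apply general_line v
      intro c hc4 hc0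
      rw [map_prod, Finset.prod_ne_zero_iff] at hv
      have := hv c ((mem_specialVecs c).mpr ⟨hc4, hc0⟩)
      rwa [eval_detPoly] at this

end Pool.Agent.H824
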