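import Pool.Agent.H824.Defs

namespace Pool.Agent.H824

open MvPolynomial

theorem aeval_smul_of_homog {k A σ : Type*} [Field k] [CommRing A] [Algebra k A]
    (P : MvPolynomial σ k) {e : ℕ} (hP : P.IsHomogeneous e) (c : A) (x : σ → A) :
    aeval (fun i => c * x i) P = c ^ e * aeval x P := by
  classical
  rw [aeval_def, aeval_def, eval₂_eq, eval₂_eq, Finset.mul_sum]
  apply Finset.sum_congr rfl
  intro m hm
  have h1 : ∑ i ∈ m.support, m i = e := by
    have := hP.degree_eq_sum_deg_support hm
    exact this.symm
  simp only [mul_pow, Finset.prod_mul_distrib, Finset.prod_pow_eq_pow_sum, h1]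
  ring

/-- the ratios of three algebraically independent elements are algebraically independent -/
theorem ratio_indep {k Ω : Type*} [Field k] [Field Ω] [Algebra k Ω] (F : Fin 3 → Ω)
    (hF : AlgebraicIndependent k F) :
    AlgebraicIndependent k (fun i : Fin 2 => F i.succ / F 0) := by
  classical
  rw [algebraicIndependent_iff]
  intro P hP
  have h0 : F 0 ≠ 0 := hF.ne_zero 0
  set d := P.totalDegree with hd
  set H : MvPolynomial (Fin 3) k := ∑ e ∈ Finset.range (d + 1),
    X 0 ^ (d - e) * rename Fin.succ (homogeneousComponent e P) with hH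
  have h1 : aeval F H = 0 := by
    have h2 : aeval F H = F 0 ^ d * aeval (fun i : Fin 2 => F i.succ / F 0) P := by
      conv_rhs => rw [← sum_homogeneousComponent P]
      rw [hH, map_sum, map_sum, Finset.mul_sum]
      apply Finset.sum_congr rfl
      intro e he
      have he' : e ≤ d := by
        rw [Finset.mem_range] at he
        omega
      rw [map_mul, map_pow, aeval_X, aeval_rename]
      have h3 : (F ∘ Fin.succ : Fin 2 → Ω) = fun i => F 0 * (F i.succ / F 0) := by
        funext i
        simp only [Function.comp]
        field_simp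
      rw [h3, aeval_smul_of_homog _ (homogeneousComponent_isHomogeneous e P)]
      rw [← mul_assoc, ← pow_add, Nat.sub_add_cancel he']
    rw [h2, hP, mul_zero]
  have h2 : H = 0 := (algebraicIndependent_iff.mp hF) H h1
  have h3 : aeval (Fin.cons 1 X : Fin 3 → MvPolynomial (Fin 2) k) H = P := by
    rw [hH, map_sum]
    conv_rhs => rw [← sum_homogeneousComponent P]
    apply Finset.sum_congr rfl
    intro e he
    rw [map_mul, map_pow, aeval_X, aeval_rename]
    have h4 : ((Fin.cons 1 X : Fin 3 → MvPolynomial (Fin 2) k) ∘ Fin.succ) = X := by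
      funext i
      simp
    rw [h4]
    simp
  rw [← h3, h2, map_zero]

theorem aeval_component {k ι κ : Type*} [Field k]
    (g : ι → MvPolynomial κ k) (m : ℕ) (hm : 0 < m) (hg : ∀ i, (g i).IsHomogeneous m)
    (F : MvPolynomial ι k) (hF : aeval g F = 0) (d : ℕ) :
    aeval g (homogeneousComponent d F) = 0 := by
  classical
  have h1 : ∀ e, (aeval g (homogeneousComponent e F)).IsHomogeneous (m * e) :=
    fun e => (homogeneousComponent_isHomogeneous e F).aeval g hg
  by_cases hd : d < F.totalDegree + 1
  · have h2 : homogeneousComponent (m * d) (aeval g F) = aeval g (homogeneousComponent d F) := by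
      conv_lhs => rw [← sum_homogeneousComponent F]
      rw [map_sum, map_sum, Finset.sum_eq_single d]
      · rw [homogeneousComponent_of_mem (h1 d), if_pos rfl]
      · intro e _ hed
        rw [homogeneousComponent_of_mem (h1 e), if_neg]
        intro h
        exact hed (Nat.eq_of_mul_eq_mul_left hm h.symm)
      · intro h
        exact absurd (Finset.mem_range.mpr hd) h
    rw [← h2, hF, map_zero]
  · rw [homogeneousComponent_eq_zero _ _ (by omega), map_zero]

/-- The variety parametrized by forms of the same positive degree. -/
noncomputable def paramVariety {k ι κ : Type*} [Field k]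
    (g : ι → MvPolynomial κ k) (m : ℕ) (hm : 0 < m) (hg : ∀ i, (g i).IsHomogeneous m)
    (h0 : ∃ i, g i ≠ 0) : ProjVariety k ι where
  ideal := RingHom.ker (aeval g : MvPolynomial ι k →ₐ[k] MvPolynomial κ k)
  prime := RingHom.ker_isPrime _
  homogeneous := by
    intro F hF d
    rw [RingHom.mem_ker] at hF ⊢
    exact aeval_component g m hm hg F hF d
  relevant := by
    obtain ⟨i, hi⟩ := h0
    refine ⟨i, ?_⟩
    rw [RingHom.mem_ker, aeval_X]
    exact hi

end Pool.Agent.H824
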