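import Pool.Agent.H824.Smooth
import Pool.Agent.H824.Curve2

namespace Pool.Agent.H824

open MvPolynomial

variable {k : Type*} [Field k]

theorem yv_smul {R : Type*} [CommRing R] (c : R) (t : Fin 3 → R) (j : Fin 3) :
    yv (fun i => c * t i) j = c ^ 5 * yv t j := by
  simp only [yv]
  ring

/-- the determinant of `p`, `q`, `c` as a polynomial in `p`, `q` -/
noncomputable def detPoly (c : Fin 3 → k) : MvPolynomial (Fin 2 × Fin 3) k :=
  ∑ i, C (c i) * cr (fun j => X (0, j)) (fun j => X (1, j)) i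

theorem eval_detPoly (c : Fin 3 → k) (v : Fin 2 → Fin 3 → k) :
    eval (fun i => v i.1 i.2) (detPoly c) = ∑ i, c i * cr (v 0) (v 1) i := by
  simp [detPoly, cr]

theorem detPoly_ne (c : Fin 3 → k) (hc : c ≠ 0) : detPoly c ≠ 0 := by
  intro h
  apply hc
  funext i
  have h1 := eval_detPoly c ![Pi.single (i + 1) 1, Pi.single (i + 2) 1]
  rw [h, map_zero] at h1
  rw [Fin.sum_univ_three] at h1
  fin_cases i <;> simp [cr] at h1 <;> exact h1.symm

/-- the nonzero vectors with coordinates fixed by the fourth power map -/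
noncomputable def specialVecs (k : Type*) [Field k] [DecidableEq k] : Finset (Fin 3 → k) :=
  (Fintype.piFinset (fun _ : Fin 3 =>
    ((Polynomial.X ^ 4 - Polynomial.X : Polynomial k).roots.toFinset))).filter (fun c => c ≠ 0)

theorem mem_specialVecs [DecidableEq k] (c : Fin 3 → k) :
    c ∈ specialVecs k ↔ (∀ i, c i ^ 4 = c i) ∧ c ≠ 0 := by
  have hne : (Polynomial.X ^ 4 - Polynomial.X : Polynomial k) ≠ 0 := by
    intro h
    have := congrArg (fun P => Polynomial.coeff P 4) h
    simp [Polynomial.coeff_X] at this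
  unfold specialVecs
  rw [Finset.mem_filter, Fintype.mem_piFinset]
  simp [hne, sub_eq_zero]

/-- lines whose preimage is computed -/
theorem no_special [CharP k 2] (v : Fin 2 → Fin 3 → k)
    (hv : ∀ c : Fin 3 → k, (∀ i, c i ^ 4 = c i) → c ≠ 0 → ∑ i, c i * cr (v 0) (v 1) i ≠ 0)
    (P Q : Fin 3 → k) (hP : ∀ i, P i ^ 2 = v 0 i) (hQ : ∀ i, Q i ^ 2 = v 1 i)
    (a b : k) (h0 : (fun i => a * P i + b * Q i) ≠ 0) :
    ∃ j, yv (fun i => a * P i + b * Q i) j ≠ 0 := by
  have htwo : (2 : k) = 0 := by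
    have : ((2 : ℕ) : k) = 0 := CharP.cast_eq_zero _ _
    exact_mod_cast this
  by_contra hcon
  push Not at hcon
  set t : Fin 3 → k := fun i => a * P i + b * Q i with ht
  obtain ⟨i0, hi0⟩ : ∃ i, t i ≠ 0 := by
    by_contra h
    push Not at h
    exact h0 (funext h)
  have ht4 : ∀ i j, t i * t j ^ 4 = t j * t i ^ 4 := by
    have e0 := hcon 0
    have e1 := hcon 1
    have e2 := hcon 2
    simp [yv] at e0 e1 e2
    intro i j
    fin_cases i <;> fin_cases j <;> simp <;>
    first
    | linear_combination e0 - (t 2 * t 1 ^ 4) * htwo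
    | linear_combination e0 - (t 1 * t 2 ^ 4) * htwo
    | linear_combination e1 - (t 0 * t 2 ^ 4) * htwo
    | linear_combination e1 - (t 2 * t 0 ^ 4) * htwo
    | linear_combination e2 - (t 1 * t 0 ^ 4) * htwo
    | linear_combination e2 - (t 0 * t 1 ^ 4) * htwo
  let c : Fin 3 → k := fun i => (t i / t i0) ^ 2
  have hc4 : ∀ i, c i ^ 4 = c i := by
    intro i
    have h1 : (t i / t i0) ^ 4 = t i / t i0 := by
      rw [div_pow, div_eq_div_iff (pow_ne_zero _ hi0) hi0]
      have := ht4 i i0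
      linear_combination -this
    simp only [c]
    rw [← pow_mul, mul_comm 2 4, pow_mul, h1]
  have hc0 : c ≠ 0 := by
    intro h
    have := congrFun h i0
    simp [c, hi0] at this
  apply hv c hc4 hc0
  have h2 : ∀ i, t i ^ 2 = a ^ 2 * v 0 i + b ^ 2 * v 1 i := by
    intro i
    rw [← hP, ← hQ]
    simp only [t]
    linear_combination (a * P i * b * Q i) * htwo
  have h3 : ∀ i, c i = (a ^ 2 / t i0 ^ 2) * v 0 i + (b ^ 2 / t i0 ^ 2) * v 1 i := by
    intro i
    simp only [c]
    rw [div_pow, h2]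
    field_simp
  simp only [h3, Fin.sum_univ_three, cr]
  simp only [Fin.isValue, zero_add, Fin.reduceAdd]
  ring

end Pool.Agent.H824
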