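import Pool.Agent.H824.Lines

namespace Pool.Agent.H824

open MvPolynomial

variable {k : Type*} [Field k]

/-- the linear forms parametrizing a line -/
noncomputable def ell (P Q : Fin 3 → k) (i : Fin 3) : MvPolynomial (Fin 2) k :=
  C (P i) * X 0 + C (Q i) * X 1

theorem ell_homog (P Q : Fin 3 → k) (i : Fin 3) : (ell P Q i).IsHomogeneous 1 :=
  (isHomogeneous_C_mul_X _ _).add (isHomogeneous_C_mul_X _ _)

theorem eval_ell (P Q : Fin 3 → k) (w : Fin 2 → k) (i : Fin 3) :
    eval w (ell P Q i) = w 0 * P i + w 1 * Q i := by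
  simp [ell]
  ring

theorem eval_zv_ell (P Q : Fin 3 → k) (w : Fin 2 → k) (ij : Fin 3 × Fin 3) :
    eval w (zv (ell P Q) ij) = zv (fun i => w 0 * P i + w 1 * Q i) ij := by
  rw [zv_map]
  congr 1
  funext i
  exact eval_ell P Q w i

theorem eval_aeval {ι κ : Type*} (g : ι → MvPolynomial κ k) (w : κ → k) (F : MvPolynomial ι k) :
    eval w (aeval g F) = eval (fun i => eval w (g i)) F := by
  have : (eval w).comp (aeval g : MvPolynomial ι k →ₐ[k] MvPolynomial κ k).toRingHom =
      eval (fun i => eval w (g i)) := by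
    apply MvPolynomial.ringHom_ext
    · intro r
      simp
    · intro i
      simp
  exact DFunLike.congr_fun this F

theorem zv_mem_points (t : Fin 3 → k) (h : zv t ≠ 0) : zv t ∈ (surf k).points := by
  refine ⟨h, fun F hF => ?_⟩
  rw [surf_mem_iff] at hF
  have h1 := congrArg (eval t) hF
  rw [eval_aeval, map_zero] at h1
  have h2 : (fun ij => eval t (zv (X : Fin 3 → MvPolynomial (Fin 3) k) ij)) = zv t := by
    funext ij
    rw [zv_map]
    congr 1
    funext i
    exact eval_X i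
  rw [h2] at h1
  exact h1

theorem mem_span_iff (v : Fin 2 → Fin 3 → k) (x : Fin 3 → k) :
    x ∈ Submodule.span k (Set.range v) ↔ ∃ a b : k, ∀ i, x i = a * v 0 i + b * v 1 i := by
  have : Set.range v = {v 0, v 1} := by
    ext w
    constructor
    · rintro ⟨i, rfl⟩
      fin_cases i
      · exact Or.inl rfl
      · exact Or.inr rfl
    · rintro (rfl | rfl)
      · exact ⟨0, rfl⟩
      · exact ⟨1, rfl⟩
  rw [this, Submodule.mem_span_pair]
  constructor
  · rintro ⟨a, b, rfl⟩
    exact ⟨a, b, fun i => rfl⟩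
  · rintro ⟨a, b, h⟩
    exact ⟨a, b, funext fun i => (h i).symm⟩

theorem zv_mem_preimage [CharP k 2] (v : Fin 2 → Fin 3 → k) (P Q : Fin 3 → k)
    (hP : ∀ i, P i ^ 2 = v 0 i) (hQ : ∀ i, Q i ^ 2 = v 1 i) (a b : k)
    (h : zv (fun i => a * P i + b * Q i) ≠ 0) :
    zv (fun i => a * P i + b * Q i) ∈
      (psi k).preimage (Submodule.span k (Set.range v) : Set (Fin 3 → k)) := by
  have htwo : (2 : k) = 0 := by
    have : ((2 : ℕ) : k) = 0 := CharP.cast_eq_zero _ _
    exact_mod_cast this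
  refine ⟨zv_mem_points _ h, ?_⟩
  obtain ⟨⟨i0, j0⟩, h0⟩ : ∃ ij, zv (fun i => a * P i + b * Q i) ij ≠ 0 := by
    by_contra h'
    push Not at h'
    exact h (funext h')
  refine ⟨1, fun i => X (i, j0), fun i => isHomogeneous_X k _, ?_, ?_, ?_⟩
  · intro i j
    have h1 := minor_mem (k := k) i j0 j 2
    rw [mul_comm (X (i, 2)) (X (j, j0))] at h1
    exact h1
  · intro h'
    have := congrFun h' i0
    simp only [eval_X] at this
    exact h0 this
  · rw [SetLike.mem_coe, mem_span_iff]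
    refine ⟨yv (fun i => a * P i + b * Q i) j0 * a ^ 2, yv (fun i => a * P i + b * Q i) j0 * b ^ 2,
      fun i => ?_⟩
    rw [eval_X, ← hP, ← hQ]
    simp only [zv, xv]
    linear_combination (a * P i * b * Q i) * yv (fun i => a * P i + b * Q i) j0 * htwo

theorem preimage_sub [CharP k 2] [IsAlgClosed k] (v : Fin 2 → Fin 3 → k)
    (hv : ∀ c : Fin 3 → k, (∀ i, c i ^ 4 = c i) → c ≠ 0 → ∑ i, c i * cr (v 0) (v 1) i ≠ 0)
    (P Q : Fin 3 → k) (hP : ∀ i, P i ^ 2 = v 0 i) (hQ : ∀ i, Q i ^ 2 = v 1 i)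
    (z : Fin 3 × Fin 3 → k)
    (hz : z ∈ (psi k).preimage (Submodule.span k (Set.range v) : Set (Fin 3 → k))) :
    ∃ a b : k, z = zv (fun i => a * P i + b * Q i) := by
  have htwo : (2 : k) = 0 := by
    have : ((2 : ℕ) : k) = 0 := CharP.cast_eq_zero _ _
    exact_mod_cast this
  obtain ⟨hz1, e, G, hG, hrel, hG0, hGL⟩ := hz
  obtain ⟨x, y, hx, hy, hxy, h1, h2⟩ := point_structure z hz1
  -- all columns are proportional to `G`
  have hcol : ∀ i j c, G i * X (j, c) - G j * X (i, c) ∈ (surf k).ideal := by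
    intro i j c
    rw [← ProjVariety.el_eq_iff, ProjVariety.el_mul, ProjVariety.el_mul]
    have e1 := (ProjVariety.el_eq_iff (surf k) _ _).mpr (hrel i j)
    have e2 := (ProjVariety.el_eq_iff (surf k) _ _).mpr (minor_mem (k := k) i c j 2)
    change (surf k).el (G i * X (j, 2)) = (surf k).el (G j * X (i, 2)) at e1
    rw [ProjVariety.el_mul, ProjVariety.el_mul] at e1 e2
    have h3 := elX_ne (k := k) (i, 2)
    apply mul_right_cancel₀ h3
    linear_combination (surf k).el (X (i, c)) * e1 - (surf k).el (G i) * e2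
  have hcol' : ∀ i j c, eval z (G i) * (x j * y c) = eval z (G j) * (x i * y c) := by
    intro i j c
    have := hz1.2 _ (hcol i j c)
    simp only [map_sub, map_mul, eval_X, hxy] at this
    linear_combination this
  obtain ⟨c0, hc0⟩ : ∃ c, y c ≠ 0 := by
    by_contra h
    push Not at h
    exact hy (funext h)
  obtain ⟨i1, hi1⟩ : ∃ i, eval z (G i) ≠ 0 := by
    by_contra h
    push Not at h
    exact hG0 (funext h)
  have hxG : ∀ i, x i = (x i1 / eval z (G i1)) * eval z (G i) := by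
    intro i
    have := hcol' i i1 c0
    have h3 : eval z (G i) * x i1 = eval z (G i1) * x i := by
      apply mul_right_cancel₀ hc0
      linear_combination this
    field_simp
    linear_combination -h3
  obtain ⟨α, β, hαβ⟩ := (mem_span_iff v _).mp hGL
  have hxL : ∃ a b : k, ∀ i, x i = a ^ 2 * v 0 i + b ^ 2 * v 1 i := by
    obtain ⟨a, ha⟩ := IsAlgClosed.exists_pow_nat_eq (x i1 / eval z (G i1) * α) (n := 2) two_pos
    obtain ⟨b, hb⟩ := IsAlgClosed.exists_pow_nat_eq (x i1 / eval z (G i1) * β) (n := 2) two_pos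
    refine ⟨a, b, fun i => ?_⟩
    rw [ha, hb, hxG i, hαβ i]
    ring
  obtain ⟨a, b, hab⟩ := hxL
  set t : Fin 3 → k := fun i => a * P i + b * Q i with ht
  have ht2 : ∀ i, t i ^ 2 = x i := by
    intro i
    rw [hab, ← hP, ← hQ]
    simp only [ht]
    linear_combination (a * P i * b * Q i) * htwo
  have ht0 : t ≠ 0 := by
    intro h
    apply hx
    funext i
    rw [← ht2 i, h]
    simp
  obtain ⟨j1, hj1⟩ := no_special v hv P Q hP hQ a b ht0
  have o1 : ∑ i, y i * t i = 0 := by
    have : (∑ i, y i * t i) ^ 2 = 0 := by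
      rw [← h1]
      simp only [Fin.sum_univ_three, ← ht2]
      linear_combination (y 0 * t 0 * (y 1 * t 1) + y 0 * t 0 * (y 2 * t 2) +
        y 1 * t 1 * (y 2 * t 2)) * htwo
    exact (pow_eq_zero_iff two_ne_zero).mp this
  have o2 : ∑ i, y i * (t i ^ 4) = 0 := by
    rw [← h2]
    apply Finset.sum_congr rfl
    intro i _
    rw [← ht2]
    ring
  obtain ⟨l, hl⟩ := exists_cross t (fun i => t i ^ 4) y hy o1 o2
  have hl' : ∀ c, yv t c = l * y c := by
    intro c
    rw [← hl c]
    simp only [yv, cr]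
    linear_combination (t (c + 2) * t (c + 1) ^ 4) * htwo
  have hl0 : l ≠ 0 := by
    intro h
    apply hj1
    rw [hl', h, zero_mul]
  obtain ⟨γ, hγ⟩ := IsAlgClosed.exists_pow_nat_eq l⁻¹ (n := 7) (by norm_num)
  refine ⟨γ * a, γ * b, ?_⟩
  have h4 : (fun i => γ * a * P i + γ * b * Q i) = fun i => γ * t i := by
    funext i
    simp only [ht]
    ring
  rw [h4]
  funext ij
  rw [zv_smul, hγ]
  obtain ⟨i, j⟩ := ij
  rw [hxy]
  simp only [zv, xv, hl', ht2]
  field_simp

end Pool.Agent.H824
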