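import Pool.Agent.H824.Deriv

namespace Pool.Agent.H824

open MvPolynomial

/-- the cross product -/
def cr {R : Type*} [CommRing R] (x y : Fin 3 → R) (c : Fin 3) : R :=
  x (c + 1) * y (c + 2) - x (c + 2) * y (c + 1)

theorem exists_cross {M : Type*} [Field M] (x x' z : Fin 3 → M) (hz : z ≠ 0)
    (h1 : ∑ i, z i * x i = 0) (h2 : ∑ i, z i * x' i = 0) :
    ∃ l : M, ∀ c, cr x x' c = l * z c := by
  obtain ⟨i, hi⟩ : ∃ i, z i ≠ 0 := by
    by_contra h
    push Not at h
    exact hz (funext h)
  refine ⟨cr x x' i / z i, fun c => ?_⟩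
  rw [div_mul_eq_mul_div, eq_div_iff hi]
  simp only [Fin.sum_univ_three] at h1 h2
  fin_cases i <;> fin_cases c <;> simp [cr] <;>
  first
  | linear_combination (x' 0) * h1 - (x 0) * h2
  | linear_combination (x' 1) * h1 - (x 1) * h2
  | linear_combination (x' 2) * h1 - (x 2) * h2
  | linear_combination -(x' 0) * h1 + (x 0) * h2
  | linear_combination -(x' 1) * h1 + (x 1) * h2
  | linear_combination -(x' 2) * h1 + (x 2) * h2

theorem exists_primitive {P M : Type*} [CommRing P] [IsDomain P] [UniqueFactorizationMonoid P]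
    [Field M] [Algebra P M] [IsFractionRing P M] (x : Fin 3 → M) (hx : x ≠ 0) :
    ∃ (g : M) (f : Fin 3 → P), g ≠ 0 ∧ (∀ i, x i = g * algebraMap P M (f i)) ∧
      ∀ p, Prime p → ¬ ∀ i, p ∣ f i := by
  classical
  let _ := (UniqueFactorizationMonoid.strongNormalizationMonoid (α := P)).toNormalizationMonoid
  let _ := UniqueFactorizationMonoid.toNormalizedGCDMonoid P
  obtain ⟨b, hb⟩ := IsLocalization.exist_integer_multiples_of_finset (nonZeroDivisors P)
    (Finset.univ.image x)
  have hb' : ∀ i, ∃ a, algebraMap P M a = algebraMap P M b * x i := by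
    intro i
    obtain ⟨a, ha⟩ := hb (x i) (by simp)
    exact ⟨a, by rw [ha, Algebra.smul_def]⟩
  choose a ha using hb'
  have hb0 : algebraMap P M b ≠ 0 := by
    simp
  obtain ⟨g, hg, hg1⟩ := Finset.extract_gcd a (s := Finset.univ) ⟨0, Finset.mem_univ _⟩
  have hgcd : Finset.univ.gcd a ≠ 0 := by
    intro h
    rw [Finset.gcd_eq_zero_iff] at h
    apply hx
    funext i
    have h1 := ha i
    rw [h i (Finset.mem_univ _), map_zero] at h1
    have := mul_eq_zero.mp h1.symm
    rcases this with h2 | h2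
    · exact absurd h2 hb0
    · exact h2
  refine ⟨algebraMap P M (Finset.univ.gcd a) / algebraMap P M b, g, ?_, ?_, ?_⟩
  · apply div_ne_zero _ hb0
    simpa using hgcd
  · intro i
    have h1 := ha i
    rw [hg i (Finset.mem_univ _), map_mul] at h1
    field_simp
    rw [mul_comm, ← h1]
  · intro p hp h
    have : p ∣ Finset.univ.gcd g := Finset.dvd_gcd (fun i _ => h i)
    rw [hg1] at this
    exact hp.not_isUnit (isUnit_of_dvd_one this)

theorem mem_of_primitive {P M : Type*} [CommRing P] [IsDomain P] [UniqueFactorizationMonoid P]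
    [Field M] [Algebra P M] [IsFractionRing P M] (f : Fin 3 → P)
    (hf : ∀ p, Prime p → ¬ ∀ i, p ∣ f i) (l : M)
    (hl : ∀ i, ∃ q : P, algebraMap P M q = l * algebraMap P M (f i) ^ 2) :
    ∃ q : P, algebraMap P M q = l := by
  classical
  obtain ⟨a, b, hab, h⟩ := IsFractionRing.exists_reduced_fraction (A := P) l
  have hb0 : (b : P) ≠ 0 := nonZeroDivisors.coe_ne_zero b
  have hbM : algebraMap P M b ≠ 0 := by simp
  have hl' : l = algebraMap P M a / algebraMap P M b := by
    rw [← h, IsFractionRing.mk'_eq_div]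
  have hdvd : ∀ i, (b : P) ∣ f i ^ 2 := by
    intro i
    obtain ⟨q, hq⟩ := hl i
    rw [hl', div_mul_eq_mul_div, eq_div_iff hbM, ← map_pow, ← map_mul, ← map_mul] at hq
    have hq' := IsFractionRing.injective P M hq
    have h1 : (b : P) ∣ a * f i ^ 2 := ⟨q, by rw [← hq']; ring⟩
    exact hab.symm.dvd_of_dvd_mul_left h1
  by_cases hu : IsUnit (b : P)
  · obtain ⟨u, hu⟩ := hu
    refine ⟨a * ↑u⁻¹, ?_⟩
    rw [hl', eq_div_iff hbM, ← map_mul, ← hu]
    congr 1
    rw [mul_assoc, Units.inv_mul, mul_one]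
  · exfalso
    obtain ⟨p, hp, hpb⟩ := WfDvdMonoid.exists_irreducible_factor hu hb0
    have hp' : Prime p := UniqueFactorizationMonoid.irreducible_iff_prime.mp hp
    exact hf p hp' (fun i => hp'.dvd_of_dvd_pow (hpb.trans (hdvd i)))

theorem totalDegree_pderiv {k σ : Type*} [Field k] (q : MvPolynomial σ k) (i : σ)
    (h : pderiv i q ≠ 0) : (pderiv i q).totalDegree + 1 ≤ q.totalDegree := by
  classical
  obtain ⟨d, hd, hdeg⟩ : ∃ d ∈ (pderiv i q).support, (d.sum fun _ e => e) =
      (pderiv i q).totalDegree := by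
    obtain ⟨d, hd, hd2⟩ := Finset.exists_mem_eq_sup (pderiv i q).support
      (by rwa [Finset.nonempty_iff_ne_empty, Ne, support_eq_empty]) (fun s => s.sum fun _ e => e)
    exact ⟨d, hd, hd2.symm⟩
  rw [mem_support_iff, coeff_pderiv] at hd
  have h1 : d + Finsupp.single i 1 ∈ q.support := by
    rw [mem_support_iff]
    intro h0
    rw [h0] at hd
    simp at hd
  have h2 := le_totalDegree h1
  rw [Finsupp.sum_add_index' (fun _ => rfl) (fun _ _ _ => rfl), Finsupp.sum_single_index rfl,
    hdeg] at h2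
  exact h2

theorem totalDegree_mul_pderiv {k σ : Type*} [Field k] (p q : MvPolynomial σ k) (i : σ) :
    p * pderiv i q = 0 ∨ (p * pderiv i q).totalDegree + 1 ≤ p.totalDegree + q.totalDegree := by
  by_cases h : p * pderiv i q = 0
  · exact Or.inl h
  · right
    have h1 : (p * pderiv i q).totalDegree ≤ p.totalDegree + (pderiv i q).totalDegree :=
      totalDegree_mul _ _
    have h2 := totalDegree_pderiv q i (right_ne_zero_of_mul h)
    omega

end Pool.Agent.H824
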