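import Pool.Agent.H824.Degree

namespace Pool.Agent.H824

open MvPolynomial

/-- the first factor -/
def xv {R : Type*} [CommRing R] (t : Fin 3 → R) (i : Fin 3) : R := t i ^ 2

/-- the second factor -/
def yv {R : Type*} [CommRing R] (t : Fin 3 → R) (j : Fin 3) : R :=
  t (j + 1) * t (j + 2) ^ 4 + t (j + 2) * t (j + 1) ^ 4

/-- the Segre product of the two factors -/
def zv {R : Type*} [CommRing R] (t : Fin 3 → R) (ij : Fin 3 × Fin 3) : R :=
  xv t ij.1 * yv t ij.2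

theorem rel1 {R : Type*} [CommRing R] (h2 : (2 : R) = 0) (t : Fin 3 → R) :
    ∑ i, yv t i ^ 2 * xv t i = 0 := by
  simp only [Fin.sum_univ_three, xv, yv]
  simp only [Fin.isValue, zero_add, Fin.reduceAdd]
  linear_combination (t 0 ^ 2 * t 1 ^ 2 * t 2 ^ 8 + t 0 ^ 2 * t 1 ^ 8 * t 2 ^ 2 +
    t 0 ^ 8 * t 1 ^ 2 * t 2 ^ 2 + t 0 ^ 2 * t 1 ^ 5 * t 2 ^ 5 + t 1 ^ 2 * t 0 ^ 5 * t 2 ^ 5 +
    t 2 ^ 2 * t 1 ^ 5 * t 0 ^ 5) * h2

theorem rel2 {R : Type*} [CommRing R] (h2 : (2 : R) = 0) (t : Fin 3 → R) :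
    ∑ i, xv t i ^ 2 * yv t i = 0 := by
  simp only [Fin.sum_univ_three, xv, yv]
  simp only [Fin.isValue, zero_add, Fin.reduceAdd]
  linear_combination (t 0 ^ 4 * t 1 ^ 4 * t 2 + t 0 ^ 4 * t 1 * t 2 ^ 4 +
    t 0 * t 1 ^ 4 * t 2 ^ 4) * h2

theorem yv_homog {k κ : Type*} [Field k] (l : Fin 3 → MvPolynomial κ k)
    (hl : ∀ i, (l i).IsHomogeneous 1) (j : Fin 3) : (yv l j).IsHomogeneous 5 := by
  unfold yv
  have h1 : ∀ a b, (l a * l b ^ 4).IsHomogeneous 5 := by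
    intro a b
    have := (hl a).mul ((hl b).pow 4)
    simpa using this
  exact (h1 _ _).add (h1 _ _)

theorem zv_homog {k κ : Type*} [Field k] (l : Fin 3 → MvPolynomial κ k)
    (hl : ∀ i, (l i).IsHomogeneous 1) (ij : Fin 3 × Fin 3) : (zv l ij).IsHomogeneous 7 := by
  unfold zv xv
  have := ((hl ij.1).pow 2).mul (yv_homog l hl ij.2)
  simpa using this

theorem zv_map {R S : Type*} [CommRing R] [CommRing S] (f : R →+* S) (t : Fin 3 → R)
    (ij : Fin 3 × Fin 3) : f (zv t ij) = zv (fun i => f (t i)) ij := by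
  simp [zv, xv, yv]

theorem zv_smul {R : Type*} [CommRing R] (c : R) (t : Fin 3 → R)
    (ij : Fin 3 × Fin 3) : zv (fun i => c * t i) ij = c ^ 7 * zv t ij := by
  simp only [zv, xv, yv]
  ring

/-- `zv` of the coordinates generates; the variables `(ξ_0 : ξ_1 : ξ_2)` -/
theorem yv_X_ne {k : Type*} [Field k] (j : Fin 3) :
    yv (X : Fin 3 → MvPolynomial (Fin 3) k) j ≠ 0 := by
  classical
  intro h
  -- evaluate after taking a coefficient
  have h1 := congrArg (coeff (Finsupp.single (j + 1) 1 + Finsupp.single (j + 2) 4)) h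
  have hne : (j + 1 : Fin 3) ≠ j + 2 := by fin_cases j <;> decide
  unfold yv at h1
  rw [coeff_add, coeff_zero] at h1
  have e1 : (X (j + 1) * X (j + 2) ^ 4 : MvPolynomial (Fin 3) k) =
      monomial (Finsupp.single (j + 1) 1 + Finsupp.single (j + 2) 4) 1 := by
    rw [X_pow_eq_monomial, X, monomial_mul, one_mul]
  have e2 : (X (j + 2) * X (j + 1) ^ 4 : MvPolynomial (Fin 3) k) =
      monomial (Finsupp.single (j + 2) 1 + Finsupp.single (j + 1) 4) 1 := by
    rw [X_pow_eq_monomial, X, monomial_mul, one_mul]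
  rw [e1, e2, coeff_monomial, coeff_monomial, if_pos rfl, if_neg] at h1
  · simp at h1
  · intro h2
    have h3 := DFunLike.congr_fun h2 (j + 1)
    simp [hne] at h3

theorem zv_X_ne {k : Type*} [Field k] (ij : Fin 3 × Fin 3) :
    zv (X : Fin 3 → MvPolynomial (Fin 3) k) ij ≠ 0 :=
  mul_ne_zero (pow_ne_zero _ (X_ne_zero _)) (yv_X_ne _)

end Pool.Agent.H824
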