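import Pool.Agent.H824.SaStmt

/-!
# The map `(z₀² - z₁⁴z₂², z₁², z₂², …)`: critical set, leading term, no conjugation
-/

namespace Pool.Agent.H824.Sa

open Filter Topology

/-- The map. -/
noncomputable def F (m : ℕ) (z : Fin (m + 3) → ℂ) : Fin (m + 3) → ℂ :=
  fun i => z i ^ 2 - if i = 0 then z 1 ^ 4 * z 2 ^ 2 else 0

/-- Its leading term. -/
noncomputable def Q (m : ℕ) : Fin (m + 3) → MvPolynomial (Fin (m + 3)) ℂ :=
  fun i => MvPolynomial.X i ^ 2

theorem polyMap_Q (m : ℕ) (z : Fin (m + 3) → ℂ) (i : Fin (m + 3)) :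
    polyMap (Q m) z i = z i ^ 2 := by
  simp [polyMap, Q]

theorem one_ne (m : ℕ) : (1 : Fin (m + 3)) ≠ 0 := by
  intro h
  have := congrArg Fin.val h
  simp at this

theorem two_ne (m : ℕ) : (2 : Fin (m + 3)) ≠ 0 := by
  intro h
  have := congrArg Fin.val h
  rw [show ((2 : Fin (m + 3)) : ℕ) = 2 from by
    show 2 % (m + 3) = 2
    exact Nat.mod_eq_of_lt (by omega)] at this
  simp at this

theorem two_ne_one (m : ℕ) : (2 : Fin (m + 3)) ≠ 1 := by
  intro h
  have := congrArg Fin.val h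
  rw [show ((2 : Fin (m + 3)) : ℕ) = 2 from by
    show 2 % (m + 3) = 2
    exact Nat.mod_eq_of_lt (by omega)] at this
  rw [show ((1 : Fin (m + 3)) : ℕ) = 1 from by
    show 1 % (m + 3) = 1
    exact Nat.mod_eq_of_lt (by omega)] at this
  omega

theorem F_zero (m : ℕ) (z : Fin (m + 3) → ℂ) : F m z 0 = z 0 ^ 2 - z 1 ^ 4 * z 2 ^ 2 := by
  simp [F]

theorem F_ne (m : ℕ) (z : Fin (m + 3) → ℂ) {i : Fin (m + 3)} (hi : i ≠ 0) :
    F m z i = z i ^ 2 := by
  simp [F, hi]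

theorem F_eq_iff (m : ℕ) (a b : Fin (m + 3) → ℂ) :
    F m a = F m b ↔ ∀ i, a i ^ 2 = b i ^ 2 := by
  constructor
  · intro h
    have h1 : ∀ i, i ≠ 0 → a i ^ 2 = b i ^ 2 := by
      intro i hi
      have := congrFun h i
      rwa [F_ne m a hi, F_ne m b hi] at this
    intro i
    by_cases hi : i = 0
    · subst hi
      have h0 := congrFun h 0
      rw [F_zero, F_zero] at h0
      have e1 : a 1 ^ 4 = b 1 ^ 4 := by
        have := h1 1 (one_ne m)
        calc a 1 ^ 4 = (a 1 ^ 2) ^ 2 := by ring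
          _ = (b 1 ^ 2) ^ 2 := by rw [this]
          _ = b 1 ^ 4 := by ring
      rw [e1, h1 2 (two_ne m)] at h0
      linear_combination h0
    · exact h1 i hi
  · intro h
    funext i
    by_cases hi : i = 0
    · subst hi
      rw [F_zero, F_zero]
      have e1 : a 1 ^ 4 = b 1 ^ 4 := by
        have := h 1
        calc a 1 ^ 4 = (a 1 ^ 2) ^ 2 := by ring
          _ = (b 1 ^ 2) ^ 2 := by rw [this]
          _ = b 1 ^ 4 := by ring
      rw [e1, h 2, h 0]
    · rw [F_ne m a hi, F_ne m b hi, h i]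

theorem Q_eq_iff (m : ℕ) (a b : Fin (m + 3) → ℂ) :
    polyMap (Q m) a = polyMap (Q m) b ↔ ∀ i, a i ^ 2 = b i ^ 2 := by
  constructor
  · intro h i
    have := congrFun h i
    rwa [polyMap_Q, polyMap_Q] at this
  · intro h
    funext i
    rw [polyMap_Q, polyMap_Q, h i]

/-- Where no coordinate vanishes, the squares determine the point locally. -/
theorem loc_inj {n : ℕ} (z : Fin n → ℂ) (hz : ∀ i, z i ≠ 0) :
    ∃ N ∈ 𝓝 z, ∀ a ∈ N, ∀ b ∈ N, (∀ i, a i ^ 2 = b i ^ 2) → a = b := by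
  refine ⟨{a | ∀ i, ‖a i - z i‖ < ‖z i‖}, ?_, ?_⟩
  · have : ∀ i : Fin n, ∀ᶠ a : Fin n → ℂ in 𝓝 z, ‖a i - z i‖ < ‖z i‖ := by
      intro i
      have hc : ContinuousAt (fun a : Fin n → ℂ => ‖a i - z i‖) z :=
        ((continuous_apply i).sub continuous_const).norm.continuousAt
      have h0 : (fun a : Fin n → ℂ => ‖a i - z i‖) z < ‖z i‖ := by
        simpa using hz i
      exact hc.eventually (gt_mem_nhds h0)
    exact (eventually_all.2 this)
  · intro a ha b hb hab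
    funext i
    rcases sq_eq_sq_iff_eq_or_eq_neg.1 (hab i) with h | h
    · exact h
    · exfalso
      have h1 := ha i
      have h2 := hb i
      have h3 : ‖(2 : ℂ) * z i‖ ≤ ‖a i - z i‖ + ‖b i - z i‖ := by
        have e : (2 : ℂ) * z i = -((a i - z i) + (b i - z i)) := by rw [h]; ring
        rw [e, norm_neg]
        exact norm_add_le _ _
      rw [norm_mul] at h3
      norm_num at h3
      linarith

/-- Where a coordinate vanishes, they do not. -/
theorem not_loc_inj {n : ℕ} (z : Fin n → ℂ) (i : Fin n) (hi : z i = 0) (V : Set (Fin n → ℂ))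
    (hV : V ∈ 𝓝 z) : ∃ a ∈ V, ∃ b ∈ V, (∀ j, a j ^ 2 = b j ^ 2) ∧ a ≠ b := by
  have h1 : Tendsto (fun ε : ℂ => Function.update z i ε) (𝓝 0) (𝓝 z) := by
    have hc : Continuous (fun ε : ℂ => Function.update z i ε) := by
      exact continuous_const.update i continuous_id
    have := hc.tendsto (z i)
    rw [Function.update_eq_self, hi] at this
    exact this
  have h2 : Tendsto (fun ε : ℂ => Function.update z i (-ε)) (𝓝 0) (𝓝 z) := by
    have : Tendsto (fun ε : ℂ => -ε) (𝓝 (0 : ℂ)) (𝓝 0) := by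
      have := (continuous_neg (G := ℂ)).tendsto 0
      simpa using this
    exact h1.comp this
  have h3 : ∀ᶠ ε : ℂ in 𝓝 0, Function.update z i ε ∈ V ∧ Function.update z i (-ε) ∈ V :=
    (h1.eventually hV).and (h2.eventually hV)
  obtain ⟨ε, hε, hne⟩ := ((h3.filter_mono nhdsWithin_le_nhds).and
    (eventually_mem_nhdsWithin (a := (0 : ℂ)) (s := {0}ᶜ))).exists
  refine ⟨_, hε.1, _, hε.2, ?_, ?_⟩
  · intro j
    by_cases hj : j = i
    · subst hj
      simp
    · simp [Function.update_of_ne hj]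
  · intro h
    have := congrFun h i
    simp only [Function.update_self] at this
    apply hne
    have h5 : (2 : ℂ) * ε = 0 := by linear_combination this
    simpa using h5

theorem not_conj_aux {n : ℕ} (f g : (Fin n → ℂ) → (Fin n → ℂ))
    (hf : ∀ a b, f a = f b ↔ ∀ i, a i ^ 2 = b i ^ 2)
    (hg : ∀ a b, g a = g b ↔ ∀ i, a i ^ 2 = b i ^ 2)
    (φ : OpenPartialHomeomorph (Fin n → ℂ) (Fin n → ℂ)) (S : Set (Fin n → ℂ)) (hS : IsOpen S)
    (hSs : ∀ z ∈ S, z ∈ φ.source) (hSf : ∀ z ∈ S, f z ∈ φ.source)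
    (hc : ∀ z ∈ S, φ (f z) = g (φ z)) (u : Fin n → ℂ) (hu : u ∈ S) :
    (∃ i, u i = 0) ↔ ∃ i, φ u i = 0 := by
  constructor
  · rintro ⟨i, hi⟩
    by_contra hcon
    push Not at hcon
    obtain ⟨N, hN, hNi⟩ := loc_inj (φ u) hcon
    have hV : S ∩ φ ⁻¹' N ∈ 𝓝 u :=
      inter_mem (hS.mem_nhds hu) ((φ.continuousAt (hSs u hu)) hN)
    obtain ⟨a, ha, b, hb, hab, hne⟩ := not_loc_inj u i hi _ hV
    have h1 : f a = f b := (hf a b).2 hab
    have h2 : g (φ a) = g (φ b) := by rw [← hc a ha.1, ← hc b hb.1, h1]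
    have h3 := hNi _ ha.2 _ hb.2 ((hg _ _).1 h2)
    exact hne (φ.injOn (hSs a ha.1) (hSs b hb.1) h3)
  · rintro ⟨i, hi⟩
    by_contra hcon
    push Not at hcon
    obtain ⟨N, hN, hNi⟩ := loc_inj u hcon
    have hV : φ '' (S ∩ N) ∈ 𝓝 (φ u) :=
      φ.image_mem_nhds (hSs u hu) (inter_mem (hS.mem_nhds hu) hN)
    obtain ⟨a, ⟨a', ha', rfl⟩, b, ⟨b', hb', rfl⟩, hab, hne⟩ := not_loc_inj (φ u) i hi _ hV
    have h1 : g (φ a') = g (φ b') := (hg _ _).2 hab
    rw [← hc a' ha'.1, ← hc b' hb'.1] at h1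
    have h2 := φ.injOn (hSf a' ha'.1) (hSf b' hb'.1) h1
    have h3 := hNi _ ha'.2 _ hb'.2 ((hf _ _).1 h2)
    exact hne (by rw [h3])

theorem continuous_F (m : ℕ) : Continuous (F m) := by
  refine continuous_pi fun i => ?_
  by_cases hi : i = 0
  · subst hi
    have : (fun z : Fin (m + 3) → ℂ => F m z 0) = fun z => z 0 ^ 2 - z 1 ^ 4 * z 2 ^ 2 := by
      funext z; exact F_zero m z
    rw [this]
    fun_prop
  · have : (fun z : Fin (m + 3) → ℂ => F m z i) = fun z => z i ^ 2 := by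
      funext z; exact F_ne m z hi
    rw [this]
    fun_prop

theorem F_at_zero (m : ℕ) : F m 0 = 0 := by
  funext i
  by_cases hi : i = 0
  · subst hi
    rw [F_zero]; simp
  · rw [F_ne m _ hi]; simp

theorem not_conj (m : ℕ) : ¬ IsTopConj (F m) (polyMap (Q m)) := by
  rintro ⟨φ, h0, hφ0, hc⟩
  have hF : Tendsto (F m) (𝓝 0) (𝓝 0) := by
    have := (continuous_F m).tendsto 0
    rwa [F_at_zero] at this
  have hsrc : φ.source ∈ 𝓝 (0 : Fin (m + 3) → ℂ) := φ.open_source.mem_nhds h0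
  have hall : ∀ᶠ z in 𝓝 (0 : Fin (m + 3) → ℂ),
      z ∈ φ.source ∧ F m z ∈ φ.source ∧ φ (F m z) = polyMap (Q m) (φ z) := by
    filter_upwards [hsrc, hF.eventually hsrc, hc] with z h1 h2 h3 using ⟨h1, h2, h3⟩
  obtain ⟨S, hS, hSo, hS0⟩ := eventually_nhds_iff.1 hall
  have key := not_conj_aux (F m) (polyMap (Q m)) (F_eq_iff m) (Q_eq_iff m) φ S hSo
    (fun z hz => (hS z hz).1) (fun z hz => (hS z hz).2.1) (fun z hz => (hS z hz).2.2)
  -- the points `(0, t, t, …)`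
  have hw : Tendsto (fun t : ℂ => fun i : Fin (m + 3) => if i = 0 then (0 : ℂ) else t) (𝓝 0)
      (𝓝 0) := by
    rw [tendsto_pi_nhds]
    intro i
    by_cases hi : i = 0
    · simp [hi]
    · simp only [hi, if_false]
      exact tendsto_id
  have hSn : S ∈ 𝓝 (0 : Fin (m + 3) → ℂ) := hSo.mem_nhds hS0
  obtain ⟨t, ht, htne⟩ := (((hw.eventually hSn).and ((hF.comp hw).eventually hSn)).filter_mono
    nhdsWithin_le_nhds |>.and (eventually_mem_nhdsWithin (a := (0 : ℂ)) (s := {0}ᶜ))).exists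
  set w : Fin (m + 3) → ℂ := fun i => if i = 0 then (0 : ℂ) else t with hwdef
  have hw1 : w ∈ S := ht.1
  have hw2 : F m w ∈ S := ht.2
  have ht0 : t ≠ 0 := htne
  obtain ⟨i, hi⟩ := (key w hw1).1 ⟨0, by simp [hwdef]⟩
  have h2 : φ (F m w) i = 0 := by
    rw [(hS w hw1).2.2, polyMap_Q, hi]
    simp
  obtain ⟨j, hj⟩ := (key (F m w) hw2).2 ⟨i, h2⟩
  by_cases hj0 : j = 0
  · subst hj0
    rw [F_zero] at hj
    simp [hwdef, one_ne m, two_ne m, ht0] at hj
  · rw [F_ne m w hj0] at hj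
    simp [hwdef, hj0, ht0] at hj

end Pool.Agent.H824.Sa
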