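import Pool.Agent.H824.SaA

/-!
# The derivative and the critical set; the leading term
-/

namespace Pool.Agent.H824.Sa

open Filter Topology

/-- The derivative of the component `i` of `F`. -/
noncomputable def dF (m : ℕ) (z : Fin (m + 3) → ℂ) (i : Fin (m + 3)) :
    (Fin (m + 3) → ℂ) →L[ℂ] ℂ :=
  if i = 0 then (2 * z 0) • ContinuousLinearMap.proj (0 : Fin (m + 3)) -
      ((z 1 ^ 4 * (2 * z 2)) • ContinuousLinearMap.proj (2 : Fin (m + 3)) +
        (z 2 ^ 2 * (4 * z 1 ^ 3)) • ContinuousLinearMap.proj (1 : Fin (m + 3)))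
  else (2 * z i) • ContinuousLinearMap.proj i

theorem hasFDerivAt_F (m : ℕ) (z : Fin (m + 3) → ℂ) :
    HasFDerivAt (F m) (ContinuousLinearMap.pi (dF m z)) z := by
  rw [hasFDerivAt_pi]
  intro i
  by_cases hi : i = 0
  · subst hi
    have e : (fun z : Fin (m + 3) → ℂ => F m z 0) = fun z => z 0 ^ 2 - z 1 ^ 4 * z 2 ^ 2 := by
      funext z; exact F_zero m z
    rw [e]
    have h0 : HasFDerivAt (fun z : Fin (m + 3) → ℂ => z 0)
        (ContinuousLinearMap.proj (R := ℂ) (φ := fun _ => ℂ) (0 : Fin (m + 3))) z :=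
      hasFDerivAt_apply 0 z
    have h1 : HasFDerivAt (fun z : Fin (m + 3) → ℂ => z 1)
        (ContinuousLinearMap.proj (R := ℂ) (φ := fun _ => ℂ) (1 : Fin (m + 3))) z :=
      hasFDerivAt_apply 1 z
    have h2 : HasFDerivAt (fun z : Fin (m + 3) → ℂ => z 2)
        (ContinuousLinearMap.proj (R := ℂ) (φ := fun _ => ℂ) (2 : Fin (m + 3))) z :=
      hasFDerivAt_apply 2 z
    have h := (h0.pow 2).sub ((h1.pow 4).mul (h2.pow 2))
    refine h.congr_fderiv ?_
    ext v
    simp [dF]
    ring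
  · have e : (fun z : Fin (m + 3) → ℂ => F m z i) = fun z => z i ^ 2 := by
      funext z; exact F_ne m z hi
    rw [e]
    have h0 : HasFDerivAt (fun z : Fin (m + 3) → ℂ => z i)
        (ContinuousLinearMap.proj (R := ℂ) (φ := fun _ => ℂ) i) z :=
      hasFDerivAt_apply i z
    refine (h0.pow 2).congr_fderiv ?_
    ext v
    simp [dF, hi]

theorem det_F (m : ℕ) (z : Fin (m + 3) → ℂ) :
    (fderiv ℂ (F m) z).det = ∏ i, 2 * z i := by
  rw [(hasFDerivAt_F m z).fderiv]
  rw [ContinuousLinearMap.det, ← LinearMap.det_toMatrix', Matrix.det_of_isUpperTriangular]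
  · refine Finset.prod_congr rfl fun i _ => ?_
    rw [LinearMap.toMatrix'_apply]
    by_cases hi : i = 0
    · subst hi
      simp [dF, two_ne]
    · simp [dF, hi]
  · intro i j hij
    have hij' : j < i := hij
    have hi : i ≠ 0 := by
      rintro rfl
      exact absurd hij' (Fin.not_lt_zero j)
    rw [LinearMap.toMatrix'_apply]
    simp [dF, hi, hij'.ne']

theorem mem_crit (m : ℕ) (z : Fin (m + 3) → ℂ) : z ∈ crit (F m) ↔ ∃ i, z i = 0 := by
  show (fderiv ℂ (F m) z).det = 0 ↔ _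
  rw [det_F, Finset.prod_eq_zero_iff]
  simp

theorem analyticAt_F (m : ℕ) : AnalyticAt ℂ (F m) 0 := by
  rw [analyticAt_pi_iff]
  intro i
  by_cases hi : i = 0
  · subst hi
    have e : (fun z : Fin (m + 3) → ℂ => F m z 0) = fun z => z 0 ^ 2 - z 1 ^ 4 * z 2 ^ 2 := by
      funext z; exact F_zero m z
    rw [e]
    have h : ∀ j : Fin (m + 3), AnalyticAt ℂ (fun z : Fin (m + 3) → ℂ => z j) 0 := fun j =>
      (ContinuousLinearMap.proj (R := ℂ) (φ := fun _ => ℂ) j).analyticAt 0
    exact ((h 0).pow 2).sub (((h 1).pow 4).mul ((h 2).pow 2))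
  · have e : (fun z : Fin (m + 3) → ℂ => F m z i) = fun z => z i ^ 2 := by
      funext z; exact F_ne m z hi
    rw [e]
    exact ((ContinuousLinearMap.proj (R := ℂ) (φ := fun _ => ℂ) i).analyticAt 0).pow 2

theorem isSuperattracting_F (m : ℕ) : IsSuperattracting (F m) := by
  refine ⟨analyticAt_F m, F_at_zero m, ?_⟩
  rw [(hasFDerivAt_F m 0).fderiv]
  ext v i
  by_cases hi : i = 0
  · simp [dF, hi]
  · simp [dF, hi]

theorem isNonDegenerate_Q (m : ℕ) : IsNonDegenerate (Q m) := by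
  intro z
  constructor
  · intro h
    funext i
    have := congrFun h i
    rw [polyMap_Q] at this
    simpa using this
  · rintro rfl
    funext i
    rw [polyMap_Q]
    simp

theorem isLeadingTerm_F (m : ℕ) : IsLeadingTerm (F m) 2 (Q m) := by
  refine ⟨fun i => ?_, ?_, ?_⟩
  · have := (MvPolynomial.isHomogeneous_X ℂ i).pow 2
    simpa [Q] using this
  · intro h
    have := congrFun h 0
    simp [Q] at this
  · refine Asymptotics.IsBigO.of_bound 1 ?_
    have h1 : ∀ᶠ z : Fin (m + 3) → ℂ in 𝓝 0, ‖z‖ < 1 := by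
      have hc : Continuous (fun z : Fin (m + 3) → ℂ => ‖z‖) := continuous_norm
      have h0 : (fun z : Fin (m + 3) → ℂ => ‖z‖) 0 < 1 := by simp
      exact hc.continuousAt.eventually (gt_mem_nhds h0)
    filter_upwards [h1] with z hz
    rw [one_mul, norm_pow, norm_norm]
    rw [pi_norm_le_iff_of_nonneg (by positivity)]
    intro i
    have h6 : ‖z‖ ^ 6 ≤ ‖z‖ ^ (2 + 1) :=
      pow_le_pow_of_le_one (norm_nonneg _) hz.le (by norm_num)
    by_cases hi : i = 0
    · subst hi
      have e : (F m z - polyMap (Q m) z) 0 = -(z 1 ^ 4 * z 2 ^ 2) := by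
        rw [Pi.sub_apply, F_zero, polyMap_Q]
        ring
      rw [e, norm_neg, norm_mul, norm_pow, norm_pow]
      refine le_trans ?_ h6
      calc ‖z 1‖ ^ 4 * ‖z 2‖ ^ 2 ≤ ‖z‖ ^ 4 * ‖z‖ ^ 2 := by
            gcongr
            · exact norm_le_pi_norm z 1
            · exact norm_le_pi_norm z 2
        _ = ‖z‖ ^ 6 := by ring
    · have e : (F m z - polyMap (Q m) z) i = 0 := by
        rw [Pi.sub_apply, F_ne m z hi, polyMap_Q]
        ring
      rw [e, norm_zero]
      positivity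

end Pool.Agent.H824.Sa
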