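import Pool.Agent.H824.SaB

/-!
# The postcritical set is a topological cone
-/

namespace Pool.Agent.H824.Sa

open Filter Topology ComplexConjugate

theorem norm_inv_cube (x : ℂ) : ‖(‖x‖ ^ (-(2 / 3) : ℝ)) • x‖ = ‖x‖ ^ ((1 / 3 : ℝ)) := by
  by_cases hx : x = 0
  · subst hx
    simp [Real.zero_rpow]
  · have hr : 0 < ‖x‖ := norm_pos_iff.2 hx
    rw [norm_smul, Real.norm_of_nonneg (Real.rpow_nonneg hr.le _)]
    nth_rewrite 2 [← Real.rpow_one ‖x‖]
    rw [← Real.rpow_add hr]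
    norm_num

/-- The homeomorphism `x ↦ |x|² x` of `ℂ`. -/
noncomputable def cubeHomeo : ℂ ≃ₜ ℂ where
  toFun x := (‖x‖ ^ 2) • x
  invFun x := (‖x‖ ^ (-(2 / 3) : ℝ)) • x
  left_inv x := by
    by_cases hx : x = 0
    · subst hx
      simp
    · have hr : 0 < ‖x‖ := norm_pos_iff.2 hx
      have e1 : ‖(‖x‖ ^ 2) • x‖ = ‖x‖ ^ ((3 : ℝ)) := by
        rw [norm_smul, Real.norm_of_nonneg (by positivity)]
        rw [show ((3 : ℝ)) = ((3 : ℕ) : ℝ) by norm_num, Real.rpow_natCast]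
        ring
      show (‖(‖x‖ ^ 2) • x‖ ^ (-(2 / 3) : ℝ)) • ((‖x‖ ^ 2) • x) = x
      rw [e1, ← Real.rpow_mul hr.le, smul_smul]
      have e2 : ‖x‖ ^ ((3 : ℝ) * -(2 / 3)) * ‖x‖ ^ 2 = 1 := by
        rw [show ((3 : ℝ) * -(2 / 3)) = -((2 : ℕ) : ℝ) by norm_num, Real.rpow_neg hr.le,
          Real.rpow_natCast]
        exact inv_mul_cancel₀ (by positivity)
      rw [e2, one_smul]
  right_inv x := by
    by_cases hx : x = 0
    · subst hx
      simp
    · have hr : 0 < ‖x‖ := norm_pos_iff.2 hx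
      show (‖(‖x‖ ^ (-(2 / 3) : ℝ)) • x‖ ^ 2) • ((‖x‖ ^ (-(2 / 3) : ℝ)) • x) = x
      rw [norm_inv_cube, smul_smul, ← Real.rpow_natCast, ← Real.rpow_mul hr.le,
        ← Real.rpow_add hr]
      norm_num
  continuous_toFun := by fun_prop
  continuous_invFun := by
    rw [continuous_iff_continuousAt]
    intro x
    by_cases hx : x = 0
    · subst hx
      have h0 : Tendsto (fun y : ℂ => ‖(‖y‖ ^ (-(2 / 3) : ℝ)) • y‖) (𝓝 0) (𝓝 0) := by
        have e : (fun y : ℂ => ‖(‖y‖ ^ (-(2 / 3) : ℝ)) • y‖) = fun y => ‖y‖ ^ ((1 / 3 : ℝ)) := by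
          funext y; exact norm_inv_cube y
        rw [e]
        have hc : Continuous (fun y : ℂ => ‖y‖ ^ ((1 / 3 : ℝ))) :=
          continuous_norm.rpow_const (fun _ => Or.inr (by norm_num))
        have := hc.tendsto 0
        simpa [Real.zero_rpow] using this
      have h1 := tendsto_zero_iff_norm_tendsto_zero.2 h0
      show Tendsto _ _ _
      simpa using h1
    · have hr : ‖x‖ ≠ 0 := norm_ne_zero_iff.2 hx
      exact (continuous_norm.continuousAt.rpow_const (Or.inl hr)).smul continuousAt_id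

/-- Complex conjugation. -/
noncomputable def conjHomeo : ℂ ≃ₜ ℂ where
  toFun x := conj x
  invFun x := conj x
  left_inv x := Complex.conj_conj x
  right_inv x := Complex.conj_conj x
  continuous_toFun := Complex.continuous_conj
  continuous_invFun := Complex.continuous_conj

/-- The homeomorphism in the coordinate `i`. -/
noncomputable def coordHomeo (m : ℕ) (i : Fin (m + 3)) : ℂ ≃ₜ ℂ :=
  if i = 0 then cubeHomeo else if i = 2 then conjHomeo else Homeomorph.refl ℂ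

theorem coordHomeo_zero (m : ℕ) (x : ℂ) : coordHomeo m 0 x = (‖x‖ ^ 2) • x := by
  simp only [coordHomeo, if_true]
  rfl

theorem coordHomeo_one (m : ℕ) (x : ℂ) : coordHomeo m 1 x = x := by
  simp [coordHomeo, one_ne m, (two_ne_one m).symm]

theorem coordHomeo_two (m : ℕ) (x : ℂ) : coordHomeo m 2 x = conj x := by
  simp only [coordHomeo, two_ne m, if_false, if_true]
  rfl

theorem coordHomeo_eq_zero (m : ℕ) (i : Fin (m + 3)) (x : ℂ) :
    coordHomeo m i x = 0 ↔ x = 0 := by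
  by_cases h0 : i = 0
  · subst h0
    rw [coordHomeo_zero]
    simp
  · by_cases h2 : i = 2
    · subst h2
      rw [coordHomeo_two]
      simp
    · simp [coordHomeo, h0, h2]

/-- The homeomorphism `(z₀, z₁, z₂, …) ↦ (|z₀|² z₀, z₁, conj z₂, …)`. -/
noncomputable def psi (m : ℕ) : (Fin (m + 3) → ℂ) ≃ₜ (Fin (m + 3) → ℂ) :=
  Homeomorph.piCongrRight (coordHomeo m)

theorem psi_apply (m : ℕ) (z : Fin (m + 3) → ℂ) (i : Fin (m + 3)) :
    psi m z i = coordHomeo m i (z i) := rfl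

theorem psi_zero (m : ℕ) : psi m 0 = 0 := by
  funext i
  rw [psi_apply]
  exact (coordHomeo_eq_zero m i _).2 rfl

/-- The postcritical set. -/
def PC (m : ℕ) : Set (Fin (m + 3) → ℂ) :=
  {y | (∃ i, y i = 0) ∨ y 0 = -(y 1 ^ 2 * y 2)}

/-- The standard cone. -/
def cone (m : ℕ) : Set (Fin (m + 3) → ℂ) :=
  {z | (∃ i, z i = 0) ∨ (‖z 0‖ ^ 2) • z 0 = -(z 1 ^ 2 * conj (z 2))}

theorem mem_cone (m : ℕ) (z : Fin (m + 3) → ℂ) : z ∈ cone m ↔ psi m z ∈ PC m := by
  show ((∃ i, z i = 0) ∨ (‖z 0‖ ^ 2) • z 0 = -(z 1 ^ 2 * conj (z 2))) ↔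
    ((∃ i, psi m z i = 0) ∨ psi m z 0 = -(psi m z 1 ^ 2 * psi m z 2))
  simp only [psi_apply, coordHomeo_eq_zero, coordHomeo_zero, coordHomeo_one, coordHomeo_two]

theorem isStandardCone_cone (m : ℕ) : IsStandardCone (cone m) := by
  rintro a z (⟨i, hi⟩ | h)
  · exact Or.inl ⟨i, by simp [hi]⟩
  · refine Or.inr ?_
    simp only [Pi.smul_apply, smul_eq_mul, map_mul, norm_mul]
    have e : (‖z 0‖ ^ 2 : ℂ) * z 0 = -(z 1 ^ 2 * conj (z 2)) := by
      rw [← h, Complex.real_smul]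
      push_cast
      ring
    rw [Complex.real_smul]
    push_cast
    have ha : (‖a‖ : ℂ) ^ 2 = a * conj a := by
      rw [Complex.mul_conj, Complex.normSq_eq_norm_sq]
      push_cast
      ring
    calc ((‖a‖ : ℂ) * ‖z 0‖) ^ 2 * (a * z 0) = (‖a‖ : ℂ) ^ 2 * a * ((‖z 0‖ ^ 2 : ℂ) * z 0) := by
          ring
      _ = -((a * z 1) ^ 2 * (conj a * conj (z 2))) := by
          rw [e, ha]
          ring

theorem F_mem_PC (m : ℕ) (y : Fin (m + 3) → ℂ) (hy : y ∈ PC m) : F m y ∈ PC m := by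
  rcases hy with ⟨i, hi⟩ | h
  · by_cases h0 : i = 0
    · subst h0
      refine Or.inr ?_
      rw [F_zero, F_ne m y (one_ne m), F_ne m y (two_ne m), hi]
      ring
    · refine Or.inl ⟨i, ?_⟩
      rw [F_ne m y h0, hi]
      simp
  · refine Or.inl ⟨0, ?_⟩
    rw [F_zero, h]
    ring

theorem postcrit_subset (m : ℕ) (U : Set (Fin (m + 3) → ℂ)) (y : Fin (m + 3) → ℂ)
    (hy : y ∈ postcrit (F m) U) : y ∈ PC m := by
  obtain ⟨k, w, hw, -, rfl⟩ := hy
  have h0 : w ∈ PC m := Or.inl ((mem_crit m w).1 hw)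
  clear hw
  induction k with
  | zero => exact h0
  | succ k ih =>
    rw [Function.iterate_succ_apply']
    exact F_mem_PC m _ ih

theorem exists_small (m : ℕ) (U : Set (Fin (m + 3) → ℂ)) (hU : U ∈ 𝓝 0) :
    ∀ᶠ y in 𝓝 (0 : Fin (m + 3) → ℂ), y ∈ PC m → y ∈ postcrit (F m) U := by
  obtain ⟨r, hr, hrU⟩ := Metric.mem_nhds_iff.1 hU
  have h1 : Metric.ball (0 : Fin (m + 3) → ℂ) (r ^ 2) ∈ 𝓝 (0 : Fin (m + 3) → ℂ) :=
    Metric.ball_mem_nhds _ (by positivity)
  filter_upwards [h1, hU] with y hy1 hyU hyP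
  rcases hyP with hi | h
  · refine ⟨0, y, (mem_crit m y).2 hi, ?_, rfl⟩
    intro j hj
    obtain rfl : j = 0 := by omega
    exact hyU
  · choose s hs using fun x : ℂ => IsAlgClosed.exists_pow_nat_eq x (n := 2) (by norm_num)
    set w : Fin (m + 3) → ℂ := fun i => if i = 0 then 0 else s (y i) with hwdef
    have hw0 : w 0 = 0 := by simp [hwdef]
    have hwi : ∀ i, i ≠ 0 → w i ^ 2 = y i := by
      intro i hi
      simp only [hwdef, hi, if_false]
      exact hs (y i)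
    have hFw : F m w = y := by
      funext i
      by_cases hi : i = 0
      · subst hi
        rw [F_zero, hw0, h]
        have := hwi 1 (one_ne m)
        have := hwi 2 (two_ne m)
        rw [← hwi 1 (one_ne m), ← hwi 2 (two_ne m)]
        ring
      · rw [F_ne m w hi, hwi i hi]
    have hwU : w ∈ U := by
      apply hrU
      rw [mem_ball_zero_iff] at hy1 ⊢
      rw [pi_norm_lt_iff hr]
      intro i
      by_cases hi : i = 0
      · subst hi
        rw [hw0, norm_zero]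
        exact hr
      · have h2 : ‖w i‖ ^ 2 < r ^ 2 := by
          rw [← norm_pow, hwi i hi]
          exact lt_of_le_of_lt (norm_le_pi_norm y i) hy1
        exact lt_of_pow_lt_pow_left₀ 2 hr.le h2
    refine ⟨1, w, (mem_crit m w).2 ⟨0, hw0⟩, ?_, by simpa using hFw⟩
    intro j hj
    interval_cases j
    · exact hwU
    · simpa [hFw] using hyU

theorem isTopologicalCone_F (m : ℕ) : IsTopologicalCone (F m) := by
  refine ⟨cone m, isStandardCone_cone m, (psi m).toOpenPartialHomeomorph, Set.mem_univ _,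
    psi_zero m, ?_⟩
  intro U hU
  have ht : Tendsto (psi m) (𝓝 0) (𝓝 0) := by
    have := (psi m).continuous.tendsto 0
    rwa [psi_zero] at this
  filter_upwards [ht.eventually (exists_small m U hU)] with z hz
  rw [mem_cone]
  exact ⟨hz, postcrit_subset m U _⟩

end Pool.Agent.H824.Sa
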