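import Mathlib

/-!
# Superattracting germs of `(ℂⁿ, O)` and their leading homogeneous terms
-/

namespace Pool.Agent.H824.Sa

open Filter Topology

variable {n : ℕ}

/-- The polynomial map `ℂⁿ → ℂⁿ` with the components `H i`. -/
noncomputable def polyMap (H : Fin n → MvPolynomial (Fin n) ℂ) (z : Fin n → ℂ) : Fin n → ℂ :=
  fun i => MvPolynomial.eval z (H i)

/-- `f` represents a holomorphic germ `(ℂⁿ, O) → (ℂⁿ, O)` with `df_O = 0`. -/
def IsSuperattracting (f : (Fin n → ℂ) → (Fin n → ℂ)) : Prop :=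
  AnalyticAt ℂ f 0 ∧ f 0 = 0 ∧ fderiv ℂ f 0 = 0

/-- `H` is the leading homogeneous term of the germ of `f` at the origin, of degree `c`. -/
def IsLeadingTerm (f : (Fin n → ℂ) → (Fin n → ℂ)) (c : ℕ)
    (H : Fin n → MvPolynomial (Fin n) ℂ) : Prop :=
  (∀ i, (H i).IsHomogeneous c) ∧ H ≠ 0 ∧
    (fun z => f z - polyMap H z) =O[𝓝 0] (fun z : Fin n → ℂ => ‖z‖ ^ (c + 1))

/-- `H` is non-degenerate: `H⁻¹(O) = {O}`. -/
def IsNonDegenerate (H : Fin n → MvPolynomial (Fin n) ℂ) : Prop :=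
  ∀ z, polyMap H z = 0 ↔ z = 0

/-- The critical set. -/
def crit (f : (Fin n → ℂ) → (Fin n → ℂ)) : Set (Fin n → ℂ) :=
  {z | (fderiv ℂ f z).det = 0}

/-- The postcritical set of the restriction of `f` to `U`: the points `f^k(w)`, `k ≥ 0`, where `w`
is a critical point and `w, f(w), …, f^k(w)` lie in `U`. -/
def postcrit (f : (Fin n → ℂ) → (Fin n → ℂ)) (U : Set (Fin n → ℂ)) : Set (Fin n → ℂ) :=
  {z | ∃ (k : ℕ) (w : Fin n → ℂ), w ∈ crit f ∧ (∀ j ≤ k, f^[j] w ∈ U) ∧ f^[k] w = z}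

/-- A standard cone. -/
def IsStandardCone (K : Set (Fin n → ℂ)) : Prop :=
  ∀ (a : ℂ), ∀ z ∈ K, a • z ∈ K

/-- The germ at the origin of the postcritical set of `f` is a topological cone: there are a
standard cone `K` and a local homeomorphism `ψ` of `(ℂⁿ, O)` with `ψ(K) = PCrit(f)` near `O`,
for whichever neighbourhood `U` of `O` is used to define `PCrit(f)`. -/
def IsTopologicalCone (f : (Fin n → ℂ) → (Fin n → ℂ)) : Prop :=
  ∃ K : Set (Fin n → ℂ), IsStandardCone K ∧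
    ∃ ψ : OpenPartialHomeomorph (Fin n → ℂ) (Fin n → ℂ), 0 ∈ ψ.source ∧ ψ 0 = 0 ∧
      ∀ U ∈ 𝓝 (0 : Fin n → ℂ), ∀ᶠ z in 𝓝 (0 : Fin n → ℂ), (z ∈ K ↔ ψ z ∈ postcrit f U)

/-- The germs of `f` and `g` at the origin are topologically conjugated: `φ ∘ f = g ∘ φ` near `O`
for a local homeomorphism `φ` of `(ℂⁿ, O)`. -/
def IsTopConj (f g : (Fin n → ℂ) → (Fin n → ℂ)) : Prop :=
  ∃ φ : OpenPartialHomeomorph (Fin n → ℂ) (Fin n → ℂ), 0 ∈ φ.source ∧ φ 0 = 0 ∧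
    ∀ᶠ z in 𝓝 (0 : Fin n → ℂ), φ (f z) = g (φ z)

end Pool.Agent.H824.Sa
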