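import Pool.Agent.H824.Surface3

namespace Pool.Agent.H824

open MvPolynomial

variable {k : Type*} [Field k]

theorem surf_mem_iff (F : MvPolynomial (Fin 3 × Fin 3) k) :
    F ∈ (surf k).ideal ↔ aeval (zv (X : Fin 3 → MvPolynomial (Fin 3) k)) F = 0 := by
  change _ ∈ RingHom.ker _ ↔ _
  rw [RingHom.mem_ker]

theorem minor_mem (i j a b : Fin 3) :
    (X (i, j) * X (a, b) - X (i, b) * X (a, j) : MvPolynomial (Fin 3 × Fin 3) k) ∈
      (surf k).ideal := by
  rw [surf_mem_iff]
  simp only [map_sub, map_mul, aeval_X, zv]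
  ring

theorem eqF_mem [CharP k 2] (a : Fin 3) :
    (∑ i, X (a, i) * X (i, i) : MvPolynomial (Fin 3 × Fin 3) k) ∈ (surf k).ideal := by
  rw [surf_mem_iff, map_sum]
  have h2 := rel1 (two_eq_zero_poly (k := k) (Fin 3)) X
  have : xv X a * ∑ i, yv X i ^ 2 * xv (X : Fin 3 → MvPolynomial (Fin 3) k) i = 0 := by
    rw [h2, mul_zero]
  rw [← this, Finset.mul_sum]
  apply Finset.sum_congr rfl
  intro i _
  simp only [map_mul, aeval_X, zv]
  ring

theorem eqG_mem [CharP k 2] (a : Fin 3) :
    (∑ i, X (i, a) * X (i, i) : MvPolynomial (Fin 3 × Fin 3) k) ∈ (surf k).ideal := by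
  rw [surf_mem_iff, map_sum]
  have h2 := rel2 (two_eq_zero_poly (k := k) (Fin 3)) X
  have : yv X a * ∑ i, xv X i ^ 2 * yv (X : Fin 3 → MvPolynomial (Fin 3) k) i = 0 := by
    rw [h2, mul_zero]
  rw [← this, Finset.mul_sum]
  apply Finset.sum_congr rfl
  intro i _
  simp only [map_mul, aeval_X, zv]
  ring

/-- the points of the surface -/
theorem point_structure [CharP k 2] (z : Fin 3 × Fin 3 → k) (hz : z ∈ (surf k).points) :
    ∃ x y : Fin 3 → k, x ≠ 0 ∧ y ≠ 0 ∧ (∀ i j, z (i, j) = x i * y j) ∧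
      ∑ i, y i ^ 2 * x i = 0 ∧ ∑ i, x i ^ 2 * y i = 0 := by
  obtain ⟨hz0, hz1⟩ := hz
  obtain ⟨⟨i0, j0⟩, h0⟩ : ∃ ij, z ij ≠ 0 := by
    by_contra h
    push Not at h
    exact hz0 (funext h)
  have hmin : ∀ i j a b, z (i, j) * z (a, b) = z (i, b) * z (a, j) := by
    intro i j a b
    have := hz1 _ (minor_mem i j a b)
    simp only [map_sub, map_mul, eval_X] at this
    linear_combination this
  have hprod : ∀ i j, z (i, j) = z (i, j0) * (z (i0, j) / z (i0, j0)) := by
    intro i j
    have := hmin i j i0 j0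
    field_simp
    linear_combination this
  refine ⟨fun i => z (i, j0), fun j => z (i0, j) / z (i0, j0), ?_, ?_, hprod, ?_, ?_⟩
  · intro h
    exact h0 (congrFun h i0)
  · intro h
    have := congrFun h j0
    simp only [Pi.zero_apply, div_self h0] at this
    exact one_ne_zero this
  · have h := hz1 _ (eqF_mem i0)
    rw [map_sum] at h
    simp only [map_mul, eval_X] at h
    have h3 : z (i0, j0) * ∑ i, (z (i0, i) / z (i0, j0)) ^ 2 * z (i, j0) = 0 := by
      rw [← h, Finset.mul_sum]
      apply Finset.sum_congr rfl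
      intro i _
      rw [hprod i i]
      field_simp
    exact (mul_eq_zero.mp h3).resolve_left h0
  · have h := hz1 _ (eqG_mem j0)
    rw [map_sum] at h
    simp only [map_mul, eval_X] at h
    rw [← h]
    apply Finset.sum_congr rfl
    intro i _
    rw [hprod i i]
    ring

/-- the differential at `z` in the direction `v` -/
noncomputable def dz (z v : Fin 3 × Fin 3 → k) (F : MvPolynomial (Fin 3 × Fin 3) k) : k :=
  ∑ i, v i * eval z (pderiv i F)

theorem dz_add (z v : Fin 3 × Fin 3 → k) (F G : MvPolynomial (Fin 3 × Fin 3) k) :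
    dz z v (F + G) = dz z v F + dz z v G := by
  simp [dz, mul_add, Finset.sum_add_distrib]

theorem dz_sub (z v : Fin 3 × Fin 3 → k) (F G : MvPolynomial (Fin 3 × Fin 3) k) :
    dz z v (F - G) = dz z v F - dz z v G := by
  simp [dz, mul_sub, Finset.sum_sub_distrib]

theorem dz_sum (z v : Fin 3 × Fin 3 → k) (F : Fin 3 → MvPolynomial (Fin 3 × Fin 3) k) :
    dz z v (∑ i, F i) = ∑ i, dz z v (F i) := by
  simp only [Fin.sum_univ_three, dz_add]

theorem dz_mul (z v : Fin 3 × Fin 3 → k) (a b : Fin 3 × Fin 3) :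
    dz z v (X a * X b) = v a * z b + z a * v b := by
  classical
  unfold dz
  simp only [pderiv_mul, pderiv_X, map_add, map_mul, eval_X, Pi.single_apply, mul_add,
    Finset.sum_add_distrib]
  congr 1
  · rw [Finset.sum_eq_single a]
    · simp
    · intro c _ hc
      simp [hc.symm]
    · simp
  · rw [Finset.sum_eq_single b]
    · simp
      ring
    · intro c _ hc
      simp [hc.symm]
    · simp

theorem tangent_structure [CharP k 2] (x y : Fin 3 → k) (hx : x ≠ 0) (hy : y ≠ 0)
    (h1 : ∑ i, y i ^ 2 * x i = 0) (h2 : ∑ i, x i ^ 2 * y i = 0)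
    (v : Fin 3 × Fin 3 → k)
    (hv : v ∈ (surf k).coneTangent (fun ij => x ij.1 * y ij.2)) :
    ∃ a b : Fin 3 → k, (∀ i j, v (i, j) = x i * b j + a i * y j) ∧
      ∑ i, y i ^ 2 * a i = 0 ∧ ∑ i, x i ^ 2 * b i = 0 := by
  have htwo : (2 : k) = 0 := by
    have : ((2 : ℕ) : k) = 0 := CharP.cast_eq_zero _ _
    exact_mod_cast this
  obtain ⟨i0, hi0⟩ : ∃ i, x i ≠ 0 := by
    by_contra h
    push Not at h
    exact hx (funext h)
  obtain ⟨j0, hj0⟩ : ∃ j, y j ≠ 0 := by
    by_contra h
    push Not at h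
    exact hy (funext h)
  have hd : ∀ F ∈ (surf k).ideal, dz (fun ij => x ij.1 * y ij.2) v F = 0 := hv
  have hmin : ∀ i j a b, v (i, j) * (x a * y b) + (x i * y j) * v (a, b) =
      v (i, b) * (x a * y j) + (x i * y b) * v (a, j) := by
    intro i j a b
    have := hd _ (minor_mem i j a b)
    rw [dz_sub, dz_mul, dz_mul] at this
    linear_combination this
  let b : Fin 3 → k := fun j => v (i0, j) / x i0
  let a : Fin 3 → k := fun i => (v (i, j0) - x i * b j0) / y j0
  have hab : ∀ i j, v (i, j) = x i * b j + a i * y j := by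
    intro i j
    have h := hmin i j i0 j0
    simp only [a, b]
    field_simp
    linear_combination h
  refine ⟨a, b, hab, ?_, ?_⟩
  · have h := hd _ (eqF_mem i0)
    rw [dz_sum] at h
    simp only [dz_mul, hab] at h
    have h3 : x i0 * ∑ i, y i ^ 2 * a i = 0 := by
      rw [Fin.sum_univ_three] at h h1 ⊢
      linear_combination h - (a i0) * h1 - x i0 * (x 0 * y 0 * b 0 + x 1 * y 1 * b 1 +
        x 2 * y 2 * b 2) * htwo
    exact (mul_eq_zero.mp h3).resolve_left hi0
  · have h := hd _ (eqG_mem j0)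
    rw [dz_sum] at h
    simp only [dz_mul, hab] at h
    have h3 : y j0 * ∑ i, x i ^ 2 * b i = 0 := by
      rw [Fin.sum_univ_three] at h h2 ⊢
      linear_combination h - (b j0) * h2 - y j0 * (x 0 * y 0 * a 0 + x 1 * y 1 * a 1 +
        x 2 * y 2 * a 2) * htwo
    exact (mul_eq_zero.mp h3).resolve_left hj0

theorem finrank_ker_le (w : Fin 3 → k) (hw : w ≠ 0) :
    Module.finrank k (LinearMap.ker (∑ i, w i • LinearMap.proj (R := k) (φ := fun _ : Fin 3 => k) i))
      = 2 := by
  set f := ∑ i, w i • LinearMap.proj (R := k) (φ := fun _ : Fin 3 => k) i with hf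
  have hfa : ∀ u, f u = ∑ i, w i * u i := by
    intro u
    simp [hf]
  have hf0 : f ≠ 0 := by
    obtain ⟨i, hi⟩ : ∃ i, w i ≠ 0 := by
      by_contra h
      push Not at h
      exact hw (funext h)
    intro h
    apply hi
    have := hfa (Pi.single i 1)
    rw [h] at this
    simp [Pi.single_apply] at this
    exact this.symm
  have hr : Module.finrank k (LinearMap.range f) = 1 := by
    have := LinearMap.range_eq_top.mpr (LinearMap.surjective hf0)
    rw [this, finrank_top, Module.finrank_self]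
  have := LinearMap.finrank_range_add_finrank_ker f
  rw [hr, Module.finrank_fin_fun] at this
  omega

theorem surf_smooth [CharP k 2] : (surf k).IsSmooth := by
  intro z hz
  rw [surf_dim]
  obtain ⟨x, y, hx, hy, hz', h1, h2⟩ := point_structure z hz
  have hzeq : z = fun ij => x ij.1 * y ij.2 := funext (fun ij => hz' ij.1 ij.2)
  subst hzeq
  have hy2 : (fun i => y i ^ 2) ≠ 0 := by
    intro h
    exact hy (funext fun i => (pow_eq_zero_iff two_ne_zero).mp (congrFun h i))
  have hx2 : (fun i => x i ^ 2) ≠ 0 := by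
    intro h
    exact hx (funext fun i => (pow_eq_zero_iff two_ne_zero).mp (congrFun h i))
  set f1 := ∑ i, (fun i => y i ^ 2) i • LinearMap.proj (R := k) (φ := fun _ : Fin 3 => k) i with hf1
  set f2 := ∑ i, (fun i => x i ^ 2) i • LinearMap.proj (R := k) (φ := fun _ : Fin 3 => k) i with hf2
  have hfa1 : ∀ u, f1 u = ∑ i, y i ^ 2 * u i := by
    intro u
    simp [hf1]
  have hfa2 : ∀ u, f2 u = ∑ i, x i ^ 2 * u i := by
    intro u
    simp [hf2]
  let T : (LinearMap.ker f1 × LinearMap.ker f2) →ₗ[k] (Fin 3 × Fin 3 → k) :=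
    { toFun := fun ab ij => x ij.1 * (ab.2 : Fin 3 → k) ij.2 + (ab.1 : Fin 3 → k) ij.1 * y ij.2
      map_add' := by
        intro u v
        funext ij
        simp
        ring
      map_smul' := by
        intro c u
        funext ij
        simp
        ring }
  have hrange : (surf k).coneTangent (fun ij => x ij.1 * y ij.2) ≤ LinearMap.range T := by
    intro v hv
    obtain ⟨a, b, hab, ha, hb⟩ := tangent_structure x y hx hy h1 h2 v hv
    refine ⟨⟨⟨a, ?_⟩, ⟨b, ?_⟩⟩, ?_⟩
    · rw [LinearMap.mem_ker, hfa1]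
      exact ha
    · rw [LinearMap.mem_ker, hfa2]
      exact hb
    · funext ij
      exact (hab ij.1 ij.2).symm
  have hker : 1 ≤ Module.finrank k (LinearMap.ker T) := by
    rw [Nat.one_le_iff_ne_zero]
    intro h0
    rw [Submodule.finrank_eq_zero] at h0
    let u : LinearMap.ker f1 × LinearMap.ker f2 :=
      ⟨⟨x, by rw [LinearMap.mem_ker, hfa1]; exact h1⟩,
        ⟨-y, by
          rw [LinearMap.mem_ker, hfa2]
          simp only [Pi.neg_apply, mul_neg, Finset.sum_neg_distrib, h2, neg_zero]⟩⟩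
    have hu : u ∈ LinearMap.ker T := by
      rw [LinearMap.mem_ker]
      funext ij
      simp only [T, u, LinearMap.coe_mk, AddHom.coe_mk, Pi.neg_apply, Pi.zero_apply]
      ring
    rw [h0, Submodule.mem_bot] at hu
    apply hx
    have := congrArg (fun p => ((Prod.fst p : LinearMap.ker f1) : Fin 3 → k)) hu
    simpa [u] using this
  have hsum := LinearMap.finrank_range_add_finrank_ker T
  rw [Module.finrank_prod, finrank_ker_le _ hy2, finrank_ker_le _ hx2] at hsum
  have := Submodule.finrank_mono hrange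
  omega

end Pool.Agent.H824
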