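import Pool.Agent.H824.Surface2
import Pool.Agent.H824.Trdeg

namespace Pool.Agent.H824

open MvPolynomial

variable {k : Type*} [Field k]

/-- elements whose square is in a given subfield, in characteristic two -/
def sqField {Ω : Type*} [Field Ω] [Algebra k Ω] (h2 : (2 : Ω) = 0) (K : IntermediateField k Ω) :
    IntermediateField k Ω where
  carrier := {u | u ^ 2 ∈ K}
  mul_mem' := by
    intro a b ha hb
    change (a * b) ^ 2 ∈ K
    rw [mul_pow]
    exact mul_mem ha hb
  add_mem' := by
    intro a b ha hb
    change (a + b) ^ 2 ∈ K
    have : (a + b) ^ 2 = a ^ 2 + b ^ 2 := by linear_combination (a * b) * h2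
    rw [this]
    exact add_mem ha hb
  algebraMap_mem' := by
    intro r
    change (algebraMap k Ω r) ^ 2 ∈ K
    exact pow_mem (K.algebraMap_mem r) 2
  inv_mem' := by
    intro a ha
    change (a⁻¹) ^ 2 ∈ K
    rw [inv_pow]
    exact inv_mem ha

theorem surf_dim [CharP k 2] : (surf k).dim = 2 := by
  unfold ProjVariety.dim fieldDim
  have h2 := two_eq_zero_alg (k := k) (surf k).ConeField
  have key := trdeg_of_pow (k := k) (surf k).functionField
    (fun i : Fin 2 => xe k i.succ / xe k 0) (fun i => xe_mem _ _) (ratio_indep _ xe_indep) 2
    (by norm_num) ?_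
  · rw [key]
    simp
  · have hx : ∀ a b, xe k a / xe k b ∈ IntermediateField.adjoin k
        (Set.range (fun i : Fin 2 => xe k i.succ / xe k 0)) := by
      have key : ∀ i, xe k i / xe k 0 ∈ IntermediateField.adjoin k
          (Set.range (fun i : Fin 2 => xe k i.succ / xe k 0)) := by
        intro i
        refine Fin.cases ?_ (fun j => ?_) i
        · rw [div_self (xe_ne 0)]
          exact one_mem _
        · exact IntermediateField.subset_adjoin _ _ ⟨j, rfl⟩
      intro a b
      have : xe k a / xe k b = (xe k a / xe k 0) / (xe k b / xe k 0) := by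
        have := xe_ne (k := k) 0
        have := xe_ne (k := k) b
        field_simp
      rw [this]
      exact div_mem (key a) (key b)
    have hle : (surf k).functionField ≤ sqField h2 (IntermediateField.adjoin k
        (Set.range (fun i : Fin 2 => xe k i.succ / xe k 0))) := by
      apply surf_gen
      · intro a b
        exact pow_mem (hx a b) 2
      · intro a b
        apply ye_ratio_mem_of
        · intro a b
          exact pow_mem (hx a b) 2
        · change (ye k 1 / ye k 2) ^ 2 ∈ IntermediateField.adjoin k
            (Set.range (fun i : Fin 2 => xe k i.succ / xe k 0))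
          rw [r_sq]
          exact div_mem (add_mem (pow_mem (hx _ _) _) (hx _ _))
            (add_mem (pow_mem (hx _ _) _) (hx _ _))
    intro u hu
    exact hle hu

end Pool.Agent.H824
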